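import Pool.Agent.KS6_79.CK.D

/-!
Task ALM: first order decrease of the first eigenvalue.
-/

set_option autoImplicit false
open MeasureTheory Metric Set Filter Topology
open scoped ContDiff InnerProductSpace ENNReal NNReal

namespace Pool.Agent.KS6_79.CK

open Pool.Agent.H417R2.CH

open Pool.Agent.Helper546 (Tst lap dd ee)

namespace ALM

/-! ### the profile -/

theorem F1 (s : ℝ) : HasDerivAt expNegInvGlue (s⁻¹ ^ 2 * expNegInvGlue s) s := by
  have h := expNegInvGlue.hasDerivAt_polynomial_eval_inv_mul 1 s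
  simp only [Polynomial.eval_one, one_mul, Polynomial.derivative_one, sub_zero, mul_one,
    Polynomial.eval_pow, Polynomial.eval_X] at h
  exact h

theorem F2 (s : ℝ) : HasDerivAt (fun s => s⁻¹ ^ 2 * expNegInvGlue s)
    (s⁻¹ ^ 2 * (s⁻¹ ^ 2 - 2 * s⁻¹) * expNegInvGlue s) s := by
  have h := expNegInvGlue.hasDerivAt_polynomial_eval_inv_mul (Polynomial.X ^ 2) s
  simp only [Polynomial.derivative_X_pow, Polynomial.eval_mul, Polynomial.eval_sub,
    Polynomial.eval_pow, Polynomial.eval_X] at h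
  simpa using h

theorem e_le_one (s : ℝ) : expNegInvGlue s ≤ 1 := by
  rcases le_or_gt s 0 with h | h
  · rw [expNegInvGlue.zero_of_nonpos h]
    norm_num
  · unfold expNegInvGlue
    rw [if_neg (not_le.mpr h)]
    rw [Real.exp_le_one_iff]
    have : 0 < s⁻¹ := inv_pos.mpr h
    linarith

theorem e_pos_eq {s : ℝ} (h : 0 < s) : expNegInvGlue s = Real.exp (-s⁻¹) := by
  unfold expNegInvGlue
  rw [if_neg (not_le.mpr h)]

theorem F1_le (s : ℝ) : s⁻¹ ^ 2 * expNegInvGlue s ≤ 1 := by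
  rcases le_or_gt s 0 with h | h
  · rw [expNegInvGlue.zero_of_nonpos h, mul_zero]
    norm_num
  · rw [e_pos_eq h, Real.exp_neg]
    have hy : 0 < s⁻¹ := inv_pos.mpr h
    generalize s⁻¹ = y at hy
    rw [← div_eq_mul_inv, div_le_one (Real.exp_pos y)]
    have h1 := Real.quadratic_le_exp_of_nonneg hy.le
    have h2 : y ^ 2 ≤ Real.exp y := by
      have h3 := Real.sum_le_exp_of_nonneg hy.le 4
      simp only [Finset.sum_range_succ, Finset.sum_range_zero] at h3
      norm_num [Nat.factorial] at h3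
      nlinarith [sq_nonneg (y - 2), sq_nonneg (y - 3), mul_pos hy hy]
    exact h2

theorem F1_nonneg (s : ℝ) : 0 ≤ s⁻¹ ^ 2 * expNegInvGlue s :=
  mul_nonneg (sq_nonneg _) (expNegInvGlue.nonneg s)

/-! ### the test function -/

/-- argument of the profile -/
noncomputable def ss (z : V) (R : ℝ) (p : V) : ℝ := 1 - ((p 0 - z 0) ^ 2 + (p 1 - z 1) ^ 2) / R ^ 2

/-- the radial test function -/
noncomputable def psi (z : V) (R : ℝ) (p : V) : ℝ := expNegInvGlue (ss z R p)

theorem dist_sq (p z : V) : dist p z ^ 2 = (p 0 - z 0) ^ 2 + (p 1 - z 1) ^ 2 := by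
  rw [dist_eq_norm, Pool.Agent.Helper546.norm_sq_V]
  simp

theorem ss_dist (z : V) (R : ℝ) (p : V) : ss z R p = 1 - dist p z ^ 2 / R ^ 2 := by
  rw [dist_sq]; rfl

theorem hasF (z : V) (R : ℝ) (p : V) : HasFDerivAt (ss z R)
    ((-(2 * (p 0 - z 0) / R ^ 2)) • (EuclideanSpace.proj (0 : Fin 2) : V →L[ℝ] ℝ) +
      (-(2 * (p 1 - z 1) / R ^ 2)) • (EuclideanSpace.proj (1 : Fin 2) : V →L[ℝ] ℝ)) p := by
  have h0 := (Pool.Agent.Helper546.hasFDerivAt_coord 0 p).sub_const (z 0)
  have h1 := (Pool.Agent.Helper546.hasFDerivAt_coord 1 p).sub_const (z 1)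
  have h2 := (((h0.pow 2).add (h1.pow 2)).mul_const ((R ^ 2)⁻¹)).const_sub 1
  refine (h2.congr_of_eventuallyEq (Eventually.of_forall fun q => ?_)).congr_fderiv ?_
  · simp only [ss, div_eq_mul_inv]
    rfl
  · ext v
    simp
    ring

theorem dd_ss (z : V) (R : ℝ) (i : Fin 2) (p : V) :
    dd i (ss z R) p = -(2 * (p i - z i) / R ^ 2) := by
  rw [dd, (hasF z R p).fderiv]
  fin_cases i <;> simp [ee]

theorem dd_comp {F : ℝ → ℝ} {F' : ℝ} {z : V} {R : ℝ} {p : V} (h : HasDerivAt F F' (ss z R p))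
    (i : Fin 2) : dd i (fun q => F (ss z R q)) p = F' * -(2 * (p i - z i) / R ^ 2) := by
  have h1 := h.comp_hasFDerivAt p (hasF z R p)
  have h2 : dd i (fun q => F (ss z R q)) p = F' * dd i (ss z R) p := by
    rw [dd, dd, (hasF z R p).fderiv]
    erw [h1.fderiv]
    rfl
  rw [h2, dd_ss]

theorem dd_psi (z : V) (R : ℝ) (i : Fin 2) (p : V) :
    dd i (psi z R) p = (ss z R p)⁻¹ ^ 2 * expNegInvGlue (ss z R p) *
      -(2 * (p i - z i) / R ^ 2) := dd_comp (F1 _) i

theorem contDiff_ss (z : V) (R : ℝ) : ContDiff ℝ ∞ (ss z R) := by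
  unfold ss
  have h0 := Pool.Agent.Helper546.contDiff_coord 0
  have h1 := Pool.Agent.Helper546.contDiff_coord 1
  fun_prop

theorem contDiff_psi (z : V) (R : ℝ) : ContDiff ℝ ∞ (psi z R) :=
  expNegInvGlue.contDiff.comp (contDiff_ss z R)

theorem dd_dd_psi (z : V) (R : ℝ) (i : Fin 2) (p : V) :
    dd i (dd i (psi z R)) p =
      (ss z R p)⁻¹ ^ 2 * ((ss z R p)⁻¹ ^ 2 - 2 * (ss z R p)⁻¹) * expNegInvGlue (ss z R p) *
        (2 * (p i - z i) / R ^ 2) ^ 2 -
      (ss z R p)⁻¹ ^ 2 * expNegInvGlue (ss z R p) * (2 / R ^ 2) := by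
  have e : dd i (psi z R) = fun q => (fun s => s⁻¹ ^ 2 * expNegInvGlue s) (ss z R q) *
      -(2 * (q i - z i) / R ^ 2) := by
    funext q
    exact dd_psi z R i q
  have h1 := (F2 (ss z R p)).comp_hasFDerivAt p (hasF z R p)
  have h2 : HasFDerivAt (fun q : V => -(2 * (q i - z i) / R ^ 2))
      ((-(2 / R ^ 2)) • (EuclideanSpace.proj i : V →L[ℝ] ℝ)) p := by
    have h3 := ((Pool.Agent.Helper546.hasFDerivAt_coord i p).sub_const (z i)).const_mul (-(2 / R ^ 2))
    refine h3.congr_of_eventuallyEq (Eventually.of_forall fun q => ?_)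
    show -(2 * (q i - z i) / R ^ 2) = -(2 / R ^ 2) * (q i - z i)
    ring
  have h4 := h1.mul h2
  rw [e, dd]
  erw [h4.fderiv]
  fin_cases i
  · simp [ee]
    ring
  · simp [ee]
    ring

theorem lap_psi {z : V} {R : ℝ} (hR : 0 < R) {p : V} (hs : 0 < ss z R p) :
    lap (psi z R) p = 4 / R ^ 2 * ((ss z R p)⁻¹ ^ 2 * expNegInvGlue (ss z R p) *
      ((ss z R p)⁻¹ ^ 2 - 3 * (ss z R p)⁻¹ + 1)) := by
  rw [lap, dd_dd_psi, dd_dd_psi]
  have h1 : (p 0 - z 0) ^ 2 + (p 1 - z 1) ^ 2 = R ^ 2 * (1 - ss z R p) := by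
    unfold ss
    field_simp
    ring
  have hR' : R ≠ 0 := hR.ne'
  generalize hσ : ss z R p = s at *
  have hs' : s ≠ 0 := hs.ne'
  have e : s⁻¹ ^ 2 * (s⁻¹ ^ 2 - 2 * s⁻¹) * expNegInvGlue s * (2 * (p 0 - z 0) / R ^ 2) ^ 2 -
      s⁻¹ ^ 2 * expNegInvGlue s * (2 / R ^ 2) +
      (s⁻¹ ^ 2 * (s⁻¹ ^ 2 - 2 * s⁻¹) * expNegInvGlue s * (2 * (p 1 - z 1) / R ^ 2) ^ 2 -
      s⁻¹ ^ 2 * expNegInvGlue s * (2 / R ^ 2)) =
      s⁻¹ ^ 2 * (s⁻¹ ^ 2 - 2 * s⁻¹) * expNegInvGlue s * (4 / R ^ 4) *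
        ((p 0 - z 0) ^ 2 + (p 1 - z 1) ^ 2) - s⁻¹ ^ 2 * expNegInvGlue s * (4 / R ^ 2) := by
    field_simp
    ring
  rw [e, h1]
  field_simp
  ring

theorem lap_psi_zero {z : V} {R : ℝ} {p : V} (hs : ss z R p ≤ 0) : lap (psi z R) p = 0 := by
  rw [lap, dd_dd_psi, dd_dd_psi, expNegInvGlue.zero_of_nonpos hs]
  ring


/-! ### bounds for the test function -/

theorem psi_nonneg (z : V) (R : ℝ) (p : V) : 0 ≤ psi z R p := expNegInvGlue.nonneg _

theorem psi_le_one (z : V) (R : ℝ) (p : V) : psi z R p ≤ 1 := e_le_one _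

theorem ss_nonpos {z : V} {R : ℝ} (hR : 0 < R) {p : V} (h : R ≤ dist p z) : ss z R p ≤ 0 := by
  rw [ss_dist, sub_nonpos, le_div_iff₀ (by positivity), one_mul]
  exact pow_le_pow_left₀ hR.le h 2

theorem psi_zero {z : V} {R : ℝ} (hR : 0 < R) {p : V} (h : R ≤ dist p z) : psi z R p = 0 :=
  expNegInvGlue.zero_of_nonpos (ss_nonpos hR h)

theorem tst_psi (z : V) {R : ℝ} (hR : 0 < R) : Tst univ (psi z R) := by
  have h1 : tsupport (psi z R) ⊆ closedBall z R := by
    refine closure_minimal ?_ isClosed_closedBall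
    intro p hp
    by_contra h
    rw [mem_closedBall, not_le] at h
    exact hp (psi_zero hR h.le)
  exact ⟨contDiff_psi z R, (isCompact_closedBall z R).of_isClosed_subset (isClosed_tsupport _) h1,
    subset_univ _⟩

theorem norm_fderiv_psi_sq {z : V} {R : ℝ} (p : V) : ‖fderiv ℝ (psi z R) p‖ ^ 2 =
    ((ss z R p)⁻¹ ^ 2 * expNegInvGlue (ss z R p)) ^ 2 * (4 * dist p z ^ 2 / R ^ 4) := by
  rw [Pool.Agent.Helper546.norm_fderiv_sq, dd_psi, dd_psi, dist_sq]
  ring

theorem fderiv_psi_zero {z : V} {R : ℝ} (hR : 0 < R) {p : V} (h : R ≤ dist p z) :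
    ‖fderiv ℝ (psi z R) p‖ ^ 2 = 0 := by
  rw [norm_fderiv_psi_sq, expNegInvGlue.zero_of_nonpos (ss_nonpos hR h)]
  ring

theorem fderiv_psi_le {z : V} {R : ℝ} (hR : 0 < R) (p : V) : ‖fderiv ℝ (psi z R) p‖ ≤ 2 / R := by
  have h2 : ‖fderiv ℝ (psi z R) p‖ ^ 2 ≤ (2 / R) ^ 2 := by
    rcases le_or_gt R (dist p z) with h | h
    · rw [fderiv_psi_zero hR h]
      positivity
    · rw [norm_fderiv_psi_sq]
      have h3 := F1_nonneg (ss z R p)
      have h4 := F1_le (ss z R p)
      have h5 : ((ss z R p)⁻¹ ^ 2 * expNegInvGlue (ss z R p)) ^ 2 ≤ 1 := by nlinarith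
      have h6 : dist p z ^ 2 ≤ R ^ 2 := pow_le_pow_left₀ dist_nonneg h.le 2
      have h7 : 4 * dist p z ^ 2 / R ^ 4 ≤ (2 / R) ^ 2 := by
        rw [div_pow, div_le_div_iff₀ (by positivity) (by positivity)]
        nlinarith [mul_le_mul_of_nonneg_left h6 (by positivity : 0 ≤ 4 * R ^ 2)]
      calc _ ≤ 1 * (4 * dist p z ^ 2 / R ^ 4) := mul_le_mul_of_nonneg_right h5 (by positivity)
        _ ≤ _ := by rw [one_mul]; exact h7
  exact le_of_sq_le_sq h2 (by positivity) |>.trans_eq rfl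

theorem psi_lip {z : V} {R : ℝ} (hR : 0 < R) (p q : V) :
    |psi z R p - psi z R q| ≤ 2 / R * dist p q := by
  have h := Convex.norm_image_sub_le_of_norm_fderiv_le (𝕜 := ℝ) (f := psi z R) (s := univ)
    (x := q) (y := p) (C := 2 / R)
    (fun x _ => (contDiff_psi z R).differentiable (by simp) x) (fun x _ => fderiv_psi_le hR x)
    convex_univ (mem_univ _) (mem_univ _)
  rw [Real.norm_eq_abs, ← dist_eq_norm] at h
  exact h

/-- sign of the Laplacian away from the centre -/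
theorem lap_nonneg {z : V} {R : ℝ} (hR : 0 < R) {p : V} (h : 4 / 5 * R ≤ dist p z) :
    0 ≤ lap (psi z R) p := by
  rcases le_or_gt (ss z R p) 0 with h0 | h0
  · rw [lap_psi_zero h0]
  · rw [lap_psi hR h0]
    have h1 : ss z R p ≤ 9 / 25 := by
      rw [ss_dist]
      have : 16 / 25 ≤ dist p z ^ 2 / R ^ 2 := by
        rw [le_div_iff₀ (by positivity)]
        have := pow_le_pow_left₀ (by positivity) h 2
        nlinarith
      linarith
    have h2 : 25 / 9 ≤ (ss z R p)⁻¹ := by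
      rw [show (25 / 9 : ℝ) = (9 / 25)⁻¹ by norm_num]
      exact inv_anti₀ h0 h1
    have h3 := expNegInvGlue.nonneg (ss z R p)
    have h4 : 0 ≤ (ss z R p)⁻¹ ^ 2 - 3 * (ss z R p)⁻¹ + 1 := by nlinarith
    positivity

/-- range of the argument in the ring -/
theorem ss_ring {z : V} {R : ℝ} (hR : 0 < R) {p : V} (h1 : 17 / 20 * R ≤ dist p z)
    (h2 : dist p z ≤ 19 / 20 * R) : 39 / 400 ≤ ss z R p ∧ ss z R p ≤ 111 / 400 := by
  rw [ss_dist]
  have e1 : 289 / 400 ≤ dist p z ^ 2 / R ^ 2 := by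
    rw [le_div_iff₀ (by positivity)]
    have := pow_le_pow_left₀ (by positivity) h1 2
    nlinarith
  have e2 : dist p z ^ 2 / R ^ 2 ≤ 361 / 400 := by
    rw [div_le_iff₀ (by positivity)]
    have := pow_le_pow_left₀ dist_nonneg h2 2
    nlinarith
  constructor <;> linarith

theorem lap_lower {z : V} {R : ℝ} (hR : 0 < R) {p : V} (h1 : 17 / 20 * R ≤ dist p z)
    (h2 : dist p z ≤ 19 / 20 * R) : Real.exp (-11) / R ^ 2 ≤ lap (psi z R) p := by
  obtain ⟨s1, s2⟩ := ss_ring hR h1 h2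
  have s0 : 0 < ss z R p := by linarith
  rw [lap_psi hR s0, e_pos_eq s0]
  have y1 : 400 / 111 ≤ (ss z R p)⁻¹ := by
    rw [show (400 / 111 : ℝ) = (111 / 400)⁻¹ by norm_num]
    exact inv_anti₀ s0 s2
  have y2 : (ss z R p)⁻¹ ≤ 11 := by
    have : (ss z R p)⁻¹ ≤ (39 / 400)⁻¹ := inv_anti₀ (by norm_num) s1
    norm_num at this
    linarith
  generalize (ss z R p)⁻¹ = y at y1 y2
  have h3 : Real.exp (-11) ≤ Real.exp (-y) := Real.exp_le_exp.mpr (by linarith)
  have h4 : 1 ≤ y ^ 2 - 3 * y + 1 := by nlinarith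
  have h5 : 1 ≤ y ^ 2 := by nlinarith
  have h6 : 0 < Real.exp (-11) := Real.exp_pos _
  have h7 : Real.exp (-11) ≤ y ^ 2 * Real.exp (-y) * (y ^ 2 - 3 * y + 1) := by
    calc Real.exp (-11) = 1 * Real.exp (-11) * 1 := by ring
      _ ≤ y ^ 2 * Real.exp (-y) * (y ^ 2 - 3 * y + 1) := by
        apply mul_le_mul (mul_le_mul h5 h3 h6.le (by positivity)) h4 (by norm_num) (by positivity)
  rw [div_mul_eq_mul_div]
  apply div_le_div_of_nonneg_right _ (by positivity)
  linarith

theorem grad_lower {z : V} {R : ℝ} (hR : 0 < R) {p : V} (h1 : 17 / 20 * R ≤ dist p z)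
    (h2 : dist p z ≤ 19 / 20 * R) :
    Real.exp (-11) ^ 2 / R ^ 2 ≤ ‖fderiv ℝ (psi z R) p‖ ^ 2 := by
  obtain ⟨s1, s2⟩ := ss_ring hR h1 h2
  have s0 : 0 < ss z R p := by linarith
  rw [norm_fderiv_psi_sq, e_pos_eq s0]
  have y1 : 400 / 111 ≤ (ss z R p)⁻¹ := by
    rw [show (400 / 111 : ℝ) = (111 / 400)⁻¹ by norm_num]
    exact inv_anti₀ s0 s2
  have y2 : (ss z R p)⁻¹ ≤ 11 := by
    have : (ss z R p)⁻¹ ≤ (39 / 400)⁻¹ := inv_anti₀ (by norm_num) s1
    norm_num at this
    linarith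
  generalize (ss z R p)⁻¹ = y at y1 y2
  have h3 : Real.exp (-11) ≤ Real.exp (-y) := Real.exp_le_exp.mpr (by linarith)
  have h5 : 1 ≤ y ^ 2 := by nlinarith
  have h6 : 0 < Real.exp (-11) := Real.exp_pos _
  have h7 : Real.exp (-11) ≤ y ^ 2 * Real.exp (-y) := by
    calc Real.exp (-11) = 1 * Real.exp (-11) := by ring
      _ ≤ y ^ 2 * Real.exp (-y) := mul_le_mul h5 h3 h6.le (by positivity)
  have h8 : Real.exp (-11) ^ 2 ≤ (y ^ 2 * Real.exp (-y)) ^ 2 := pow_le_pow_left₀ h6.le h7 2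
  have h9 : 1 / R ^ 2 ≤ 4 * dist p z ^ 2 / R ^ 4 := by
    rw [div_le_div_iff₀ (by positivity) (by positivity)]
    have := pow_le_pow_left₀ (by positivity) h1 2
    nlinarith [mul_le_mul_of_nonneg_left this (by positivity : 0 ≤ R ^ 2)]
  calc Real.exp (-11) ^ 2 / R ^ 2 = Real.exp (-11) ^ 2 * (1 / R ^ 2) := by ring
    _ ≤ _ := mul_le_mul h8 h9 (by positivity) (by positivity)


/-! ### geometry -/

/-- a convex set containing a ball and not the point `P` of its boundary lies in a half plane -/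
theorem half_plane {U : Set V} (hc : Convex ℝ U) {y P : V} {r : ℝ} (hb : ball y r ⊆ U)
    (hP : P ∉ U) (hd : dist P y = r) (hr : 0 < r) {p : V} (hp : p ∈ U) :
    (P 0 - y 0) * (p 0 - P 0) + (P 1 - y 1) * (p 1 - P 1) ≤ 0 := by
  by_contra hcon
  push Not at hcon
  set I := (P 0 - y 0) * (p 0 - P 0) + (P 1 - y 1) * (p 1 - P 1) with hI
  set D := (p 0 - P 0) ^ 2 + (p 1 - P 1) ^ 2 with hD
  have hD0 : 0 ≤ D := by positivity
  obtain ⟨ε, hε, hε1⟩ : ∃ ε : ℝ, 0 < ε ∧ ε * D < 2 * I := by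
    refine ⟨I / (D + 1), by positivity, ?_⟩
    rw [div_mul_eq_mul_div, div_lt_iff₀ (by positivity)]
    nlinarith
  set q : V := pt (P 0 - ε * (p 0 - P 0)) (P 1 - ε * (p 1 - P 1)) with hq
  have hq0 : q 0 = P 0 - ε * (p 0 - P 0) := by simp [hq, pt]
  have hq1 : q 1 = P 1 - ε * (p 1 - P 1) := by simp [hq, pt]
  have hqb : q ∈ ball y r := by
    rw [mem_ball]
    have h1 : dist q y ^ 2 < r ^ 2 := by
      rw [dist_sq, ← hd, dist_sq, hq0, hq1]
      have : (P 0 - ε * (p 0 - P 0) - y 0) ^ 2 + (P 1 - ε * (p 1 - P 1) - y 1) ^ 2 =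
          (P 0 - y 0) ^ 2 + (P 1 - y 1) ^ 2 - ε * (2 * I - ε * D) := by
        rw [hI, hD]; ring
      rw [this]
      nlinarith
    exact lt_of_pow_lt_pow_left₀ 2 hr.le h1
  apply hP
  have h2 := hc (hb hqb) hp (a := 1 / (1 + ε)) (b := ε / (1 + ε)) (by positivity) (by positivity)
    (by field_simp)
  have h3 : (1 / (1 + ε)) • q + (ε / (1 + ε)) • p = P := by
    ext i
    fin_cases i
    · show (1 / (1 + ε)) * q 0 + (ε / (1 + ε)) * p 0 = P 0
      rw [hq0]
      field_simp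
      ring
    · show (1 / (1 + ε)) * q 1 + (ε / (1 + ε)) * p 1 = P 1
      rw [hq1]
      field_simp
      ring
  rwa [h3] at h2

theorem pt_zero (x y : ℝ) : (pt x y) 0 = x := by simp [pt]
theorem pt_one (x y : ℝ) : (pt x y) 1 = y := by simp [pt]

/-- data of the construction -/
structure Geo (r X₀ k n1 n2 R : ℝ) : Prop where
  r_pos : 0 < r
  n_unit : n1 ^ 2 + n2 ^ 2 = 1
  n2_pos : 0 < n2
  hX : X₀ = r * n1
  R_pos : 0 < R
  small : R * (5 / n2 + 2) ^ 2 ≤ r / 20
  small2 : (5 / n2 + 2) * R ≤ r * n2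
  small3 : 8 * R < r - |X₀|

/-- centre of the support of the test function -/
noncomputable def zz (r k n1 n2 R : ℝ) : V :=
  pt (r * n1 + 5 * R + 4 / 5 * R * n1) (k + r * n2 - 5 * R / n2 * n1 + 4 / 5 * R * n2)

/-- centre of the good part of the support -/
noncomputable def zg (r k n1 n2 R : ℝ) : V :=
  pt (r * n1 + 5 * R - 1 / 10 * R * n1) (k + r * n2 - 5 * R / n2 * n1 - 1 / 10 * R * n2)

variable {r X₀ k n1 n2 R : ℝ}

/-- distance from the centre to the half plane -/
theorem far (h : Geo r X₀ k n1 n2 R) {p : V}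
    (hp : n1 * (p 0 - r * n1) + n2 * (p 1 - (k + r * n2)) ≤ 0) :
    4 / 5 * R ≤ dist p (zz r k n1 n2 R) := by
  have hn2 := h.n2_pos
  have hR := h.R_pos
  have e : n1 * (p 0 - (zz r k n1 n2 R) 0) + n2 * (p 1 - (zz r k n1 n2 R) 1) =
      n1 * (p 0 - r * n1) + n2 * (p 1 - (k + r * n2)) - 4 / 5 * R := by
    unfold zz
    rw [pt_zero, pt_one]
    have h1 := h.n_unit
    field_simp
    linear_combination (-(4 * R)) * h1
  have h2 : (n1 * (p 0 - (zz r k n1 n2 R) 0) + n2 * (p 1 - (zz r k n1 n2 R) 1)) ^ 2 ≤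
      dist p (zz r k n1 n2 R) ^ 2 := by
    rw [dist_sq]
    have h3 : (p 0 - (zz r k n1 n2 R) 0) ^ 2 + (p 1 - (zz r k n1 n2 R) 1) ^ 2 -
        (n1 * (p 0 - (zz r k n1 n2 R) 0) + n2 * (p 1 - (zz r k n1 n2 R) 1)) ^ 2 =
        (n2 * (p 0 - (zz r k n1 n2 R) 0) - n1 * (p 1 - (zz r k n1 n2 R) 1)) ^ 2 := by
      linear_combination (-((p 0 - (zz r k n1 n2 R) 0) ^ 2 + (p 1 - (zz r k n1 n2 R) 1) ^ 2)) *
        h.n_unit
    nlinarith [sq_nonneg (n2 * (p 0 - (zz r k n1 n2 R) 0) - n1 * (p 1 - (zz r k n1 n2 R) 1))]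
  rw [e] at h2
  have h4 : (4 / 5 * R) ^ 2 ≤ dist p (zz r k n1 n2 R) ^ 2 := by
    refine le_trans ?_ h2
    nlinarith
  exact le_of_sq_le_sq h4 dist_nonneg |>.trans_eq rfl

theorem n1_le (h : Geo r X₀ k n1 n2 R) : |n1| ≤ 1 := by
  rw [abs_le]
  have := h.n_unit
  constructor <;> nlinarith [sq_nonneg n2, sq_nonneg (n1 - 1), sq_nonneg (n1 + 1)]

theorem n2_le (h : Geo r X₀ k n1 n2 R) : n2 ≤ 1 := by
  have := h.n_unit
  have := h.n2_pos
  nlinarith [sq_nonneg n1]

theorem coord_le (p z : V) (i : Fin 2) : |p i - z i| ≤ dist p z := by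
  apply abs_le_of_sq_le_sq _ dist_nonneg
  rw [dist_sq]
  fin_cases i
  · show (p 0 - z 0) ^ 2 ≤ _
    nlinarith [sq_nonneg (p 1 - z 1)]
  · show (p 1 - z 1) ^ 2 ≤ _
    nlinarith [sq_nonneg (p 0 - z 0)]

/-- abscissae of the support -/
theorem absc (h : Geo r X₀ k n1 n2 R) {p : V} (hp : dist p (zz r k n1 n2 R) ≤ R) :
    X₀ + 2 * R ≤ p 0 ∧ p 0 ≤ X₀ + 7 * R := by
  have h1 := (coord_le p (zz r k n1 n2 R) 0).trans hp
  have h2 := n1_le h
  have hR := h.R_pos
  rw [abs_le] at h1 h2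
  unfold zz at h1
  rw [pt_zero, ← h.hX] at h1
  have h3 : -R ≤ R * n1 := by nlinarith
  have h4 : R * n1 ≤ R := by nlinarith
  constructor <;> nlinarith

/-- ordinates of the support -/
theorem ordi (h : Geo r X₀ k n1 n2 R) {p : V} (hp : dist p (zz r k n1 n2 R) ≤ R) : k ≤ p 1 := by
  have h1 := (coord_le p (zz r k n1 n2 R) 1).trans hp
  have h2 := n1_le h
  have hR := h.R_pos
  have hn2 := h.n2_pos
  rw [abs_le] at h1 h2
  unfold zz at h1
  rw [pt_one] at h1
  have h3 := h.small2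
  have h4 : 5 * R / n2 * n1 ≤ 5 * R / n2 := by
    have : 0 ≤ 5 * R / n2 := by positivity
    nlinarith
  have h5 : (5 / n2 + 2) * R = 5 * R / n2 + 2 * R := by ring
  have h6 : 0 ≤ R * n2 := by positivity
  nlinarith

/-- the good part is in the ring -/
theorem good_ring (h : Geo r X₀ k n1 n2 R) {p : V} (hp : dist p (zg r k n1 n2 R) ≤ R / 20) :
    17 / 20 * R ≤ dist p (zz r k n1 n2 R) ∧ dist p (zz r k n1 n2 R) ≤ 19 / 20 * R := by
  have hR := h.R_pos
  have e : dist (zg r k n1 n2 R) (zz r k n1 n2 R) = 9 / 10 * R := by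
    have h1 : dist (zg r k n1 n2 R) (zz r k n1 n2 R) ^ 2 = (9 / 10 * R) ^ 2 := by
      rw [dist_sq]
      unfold zg zz
      rw [pt_zero, pt_one, pt_zero, pt_one]
      linear_combination ((9 / 10 * R) ^ 2) * h.n_unit
    exact (pow_left_inj₀ dist_nonneg (by positivity) two_ne_zero).mp h1
  have t1 := dist_triangle p (zg r k n1 n2 R) (zz r k n1 n2 R)
  have t2 := dist_triangle (zg r k n1 n2 R) p (zz r k n1 n2 R)
  rw [dist_comm (zg r k n1 n2 R) p] at t2
  constructor <;> linarith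

/-- the good part is inside the base ball -/
theorem good_ball (h : Geo r X₀ k n1 n2 R) {p : V} (hp : dist p (zg r k n1 n2 R) ≤ R / 20) :
    dist p (pt 0 k) ≤ r - R / 40 := by
  have hR := h.R_pos
  have hr := h.r_pos
  have hn2 := h.n2_pos
  set z := zg r k n1 n2 R with hz
  set a := p 0 - r * n1 with ha
  set b := p 1 - (k + r * n2) with hb
  -- the normal component
  have hA : n1 * a + n2 * b ≤ -(R / 20) := by
    have e : n1 * a + n2 * b = n1 * (p 0 - z 0) + n2 * (p 1 - z 1) - R / 10 := by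
      rw [ha, hb, hz]
      unfold zg
      rw [pt_zero, pt_one]
      have h1 := h.n_unit
      field_simp
      linear_combination (-R) * h1
    have h2 : (n1 * (p 0 - z 0) + n2 * (p 1 - z 1)) ^ 2 ≤ (R / 20) ^ 2 := by
      have h3 : (p 0 - z 0) ^ 2 + (p 1 - z 1) ^ 2 -
        (n1 * (p 0 - z 0) + n2 * (p 1 - z 1)) ^ 2 =
        (n2 * (p 0 - z 0) - n1 * (p 1 - z 1)) ^ 2 := by
        linear_combination (-((p 0 - z 0) ^ 2 + (p 1 - z 1) ^ 2)) * h.n_unit
      have h4 : dist p z ^ 2 ≤ (R / 20) ^ 2 := pow_le_pow_left₀ dist_nonneg hp 2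
      rw [dist_sq] at h4
      nlinarith [sq_nonneg (n2 * (p 0 - z 0) - n1 * (p 1 - z 1))]
    have h5 := abs_le_of_sq_le_sq' h2 (by positivity)
    rw [e]
    linarith [h5.2]
  -- the distance to the touching point
  have hB : a ^ 2 + b ^ 2 ≤ (R * (5 / n2 + 2)) ^ 2 := by
    have e1 : a ^ 2 + b ^ 2 = dist p (pt (r * n1) (k + r * n2)) ^ 2 := by
      rw [dist_sq, pt_zero, pt_one]
    have e2 : dist z (pt (r * n1) (k + r * n2)) ≤ R * (5 / n2 + 1) := by
      have h1 : dist z (pt (r * n1) (k + r * n2)) ^ 2 ≤ (R * (5 / n2 + 1)) ^ 2 := by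
        rw [dist_sq, hz]
        unfold zg
        rw [pt_zero, pt_one, pt_zero, pt_one]
        have e3 : (r * n1 + 5 * R - 1 / 10 * R * n1 - r * n1) ^ 2 +
            (k + r * n2 - 5 * R / n2 * n1 - 1 / 10 * R * n2 - (k + r * n2)) ^ 2 =
            R ^ 2 * (25 * (n1 ^ 2 + n2 ^ 2) / n2 ^ 2 + 1 / 100 * (n1 ^ 2 + n2 ^ 2)) := by
          field_simp
          ring
        rw [e3, h.n_unit, mul_pow]
        apply mul_le_mul_of_nonneg_left _ (by positivity)
        have : (5 / n2 + 1) ^ 2 = 25 / n2 ^ 2 + 10 / n2 + 1 := by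
          field_simp
          ring
        rw [this]
        have h10 : 0 < 10 / n2 := by positivity
        norm_num
        linarith
      exact le_of_sq_le_sq h1 (by positivity) |>.trans_eq rfl
    rw [e1]
    apply pow_le_pow_left₀ dist_nonneg
    have := dist_triangle p z (pt (r * n1) (k + r * n2))
    have h2 : R * (5 / n2 + 2) = R * (5 / n2 + 1) + R := by ring
    rw [h2]
    linarith
  have hC : dist p (pt 0 k) ^ 2 ≤ (r - R / 40) ^ 2 := by
    rw [dist_sq, pt_zero, pt_one]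
    have e : (p 0 - 0) ^ 2 + (p 1 - k) ^ 2 =
        r ^ 2 * (n1 ^ 2 + n2 ^ 2) + 2 * r * (n1 * a + n2 * b) + (a ^ 2 + b ^ 2) := by
      rw [ha, hb]; ring
    rw [e, h.n_unit]
    have h5 : (R * (5 / n2 + 2)) ^ 2 ≤ R * (r / 20) := by
      have := mul_le_mul_of_nonneg_left h.small hR.le
      nlinarith
    nlinarith
  have h6 : R ≤ r := by
    have h7 : 1 ≤ (5 / n2 + 2) ^ 2 := by
      have : 0 < 5 / n2 := by positivity
      nlinarith
    have := h.small
    nlinarith
  exact le_of_sq_le_sq hC (by linarith) |>.trans_eq rfl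


/-! ### the cut-off -/

/-- cut-off above the graph -/
noncomputable def chi (gt : ℝ → ℝ) (η : ℝ) (p : V) : ℝ := max 0 (min 1 (1 + (gt (p 0) - p 1) / η))

/-- the test function on the larger set -/
noncomputable def psi' (z : V) (R : ℝ) (gt : ℝ → ℝ) (η : ℝ) (p : V) : ℝ := psi z R p * chi gt η p

theorem chi_nonneg (gt : ℝ → ℝ) (η : ℝ) (p : V) : 0 ≤ chi gt η p := le_max_left _ _

theorem chi_le_one (gt : ℝ → ℝ) (η : ℝ) (p : V) : chi gt η p ≤ 1 :=
  max_le (by norm_num) (min_le_left _ _)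

theorem chi_one {gt : ℝ → ℝ} {η : ℝ} (hη : 0 < η) {p : V} (h : p 1 ≤ gt (p 0)) :
    chi gt η p = 1 := by
  unfold chi
  have : 0 ≤ (gt (p 0) - p 1) / η := div_nonneg (by linarith) hη.le
  rw [min_eq_left (by linarith), max_eq_right (by norm_num)]

theorem chi_zero {gt : ℝ → ℝ} {η : ℝ} (hη : 0 < η) {p : V} (h : gt (p 0) + η ≤ p 1) :
    chi gt η p = 0 := by
  unfold chi
  have : (gt (p 0) - p 1) / η ≤ -1 := by
    rw [div_le_iff₀ hη]
    linarith
  rw [max_eq_left]
  exact (min_le_right _ _).trans (by linarith)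

theorem chi_lip {gt : ℝ → ℝ} {L : ℝ≥0} (hg : LipschitzWith L gt) {η : ℝ} (hη : 0 < η) (p q : V) :
    |chi gt η p - chi gt η q| ≤ (L + 1) / η * dist p q := by
  have h1 : LipschitzWith 1 (fun a : ℝ => max 0 (min 1 a)) :=
    (LipschitzWith.id.const_min 1).const_max 0
  have h2 := h1.dist_le_mul (1 + (gt (p 0) - p 1) / η) (1 + (gt (q 0) - q 1) / η)
  rw [NNReal.coe_one, one_mul, Real.dist_eq, Real.dist_eq] at h2
  refine h2.trans ?_
  have h3 : (1 + (gt (p 0) - p 1) / η) - (1 + (gt (q 0) - q 1) / η) =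
      ((gt (p 0) - gt (q 0)) - (p 1 - q 1)) / η := by ring
  rw [h3, abs_div, abs_of_pos hη, div_mul_eq_mul_div]
  apply div_le_div_of_nonneg_right _ hη.le
  have h4 := hg.dist_le_mul (p 0) (q 0)
  rw [Real.dist_eq, Real.dist_eq] at h4
  have h5 := coord_le p q 0
  have h6 := coord_le p q 1
  calc |(gt (p 0) - gt (q 0)) - (p 1 - q 1)| ≤ |gt (p 0) - gt (q 0)| + |p 1 - q 1| := abs_sub _ _
    _ ≤ L * dist p q + dist p q :=
      add_le_add (h4.trans (mul_le_mul_of_nonneg_left h5 L.2)) h6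
    _ = _ := by ring

theorem psi'_lip {z : V} {R : ℝ} (hR : 0 < R) {gt : ℝ → ℝ} {L : ℝ≥0} (hg : LipschitzWith L gt)
    {η : ℝ} (hη : 0 < η) :
    LipschitzWith (Real.toNNReal (2 / R + (L + 1) / η)) (psi' z R gt η) := by
  apply LipschitzWith.of_dist_le_mul
  intro p q
  rw [Real.coe_toNNReal _ (by positivity), Real.dist_eq]
  have e : psi' z R gt η p - psi' z R gt η q =
      (psi z R p - psi z R q) * chi gt η p + psi z R q * (chi gt η p - chi gt η q) := by
    unfold psi'; ring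
  rw [e]
  have h1 := psi_lip hR (z := z) p q
  have h2 := chi_lip hg hη p q
  calc _ ≤ |(psi z R p - psi z R q) * chi gt η p| + |psi z R q * (chi gt η p - chi gt η q)| :=
        abs_add_le _ _
    _ = |psi z R p - psi z R q| * chi gt η p + psi z R q * |chi gt η p - chi gt η q| := by
      rw [abs_mul, abs_mul, abs_of_nonneg (chi_nonneg _ _ _), abs_of_nonneg (psi_nonneg _ _ _)]
    _ ≤ 2 / R * dist p q * 1 + 1 * ((L + 1) / η * dist p q) :=
      add_le_add (mul_le_mul h1 (chi_le_one _ _ _) (chi_nonneg _ _ _) (by positivity))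
        (mul_le_mul (psi_le_one _ _ _) h2 (abs_nonneg _) (by norm_num))
    _ = _ := by ring

theorem psi'_cpt {z : V} {R : ℝ} (hR : 0 < R) (gt : ℝ → ℝ) (η : ℝ) :
    HasCompactSupport (psi' z R gt η) := (tst_psi z hR).2.1.mul_right

/-- the strip above the graph -/
def strip (z : V) (R : ℝ) (gt : ℝ → ℝ) (η : ℝ) : Set V :=
  {p | |p 0 - z 0| ≤ R ∧ gt (p 0) ≤ p 1 ∧ p 1 ≤ gt (p 0) + η}

theorem cont_coord (i : Fin 2) : Continuous (fun p : V => p i) := by fun_prop

theorem strip_closed {z : V} {R : ℝ} {gt : ℝ → ℝ} (hg : Continuous gt) {η : ℝ} :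
    IsClosed (strip z R gt η) := by
  have c0 := cont_coord 0
  have c1 := cont_coord 1
  refine (isClosed_le ((c0.sub continuous_const).abs) continuous_const).inter
    ((isClosed_le (hg.comp c0) c1).inter (isClosed_le c1 ((hg.comp c0).add continuous_const)))

open Classical in
/-- pointwise bound of the gradient -/
theorem fderiv_psi'_le {z : V} {R : ℝ} (hR : 0 < R) {gt : ℝ → ℝ} {L : ℝ≥0}
    (hg : LipschitzWith L gt) {η : ℝ} (hη : 0 < η) (p : V) :
    ‖fderiv ℝ (psi' z R gt η) p‖ ^ 2 ≤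
      (closedBall z R).indicator (fun _ => (2 / R) ^ 2) p +
      (strip z R gt η).indicator (fun _ => (2 / R + (L + 1) / η) ^ 2) p := by
  have hi1 : 0 ≤ (closedBall z R).indicator (fun _ => (2 / R) ^ 2) p :=
    indicator_nonneg (fun _ _ => by positivity) p
  have hi2 : 0 ≤ (strip z R gt η).indicator (fun _ => (2 / R + (L + 1) / η) ^ 2) p :=
    indicator_nonneg (fun _ _ => by positivity) p
  have c0 := cont_coord 0
  have c1 := cont_coord 1
  by_cases hp : p ∈ strip z R gt η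
  · have h1 := norm_fderiv_le_of_lipschitz ℝ (x₀ := p) (psi'_lip hR hg hη (z := z))
    rw [Real.coe_toNNReal _ (by positivity)] at h1
    have h2 := pow_le_pow_left₀ (norm_nonneg _) h1 2
    rw [indicator_of_mem hp]
    linarith
  · have hz : ∀ q : V, R < |q 0 - z 0| → psi' z R gt η q = 0 := by
      intro q hq
      unfold psi'
      rw [psi_zero hR (hq.le.trans (coord_le q z 0)), zero_mul]
    by_cases h1 : |p 0 - z 0| ≤ R
    · by_cases h2 : gt (p 0) ≤ p 1
      · -- above the strip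
        have h3 : gt (p 0) + η < p 1 := by
          by_contra h
          exact hp ⟨h1, h2, not_lt.mp h⟩
        have h4 : psi' z R gt η =ᶠ[𝓝 p] fun _ => 0 := by
          have : ∀ᶠ q in 𝓝 p, gt (q 0) + η < q 1 :=
            (isOpen_lt ((hg.continuous.comp c0).add continuous_const) c1).mem_nhds h3
          filter_upwards [this] with q hq
          unfold psi'
          rw [chi_zero hη hq.le, mul_zero]
        rw [h4.fderiv_eq]
        simp only [fderiv_fun_const, Pi.zero_apply, norm_zero]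
        norm_num
        linarith
      · -- below the graph
        have h4 : psi' z R gt η =ᶠ[𝓝 p] psi z R := by
          have : ∀ᶠ q in 𝓝 p, q 1 < gt (q 0) :=
            (isOpen_lt c1 (hg.continuous.comp c0)).mem_nhds (not_le.mp h2)
          filter_upwards [this] with q hq
          unfold psi'
          rw [chi_one hη hq.le, mul_one]
        rw [h4.fderiv_eq]
        by_cases h5 : p ∈ closedBall z R
        · rw [indicator_of_mem h5]
          have := pow_le_pow_left₀ (norm_nonneg _) (fderiv_psi_le hR (z := z) p) 2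
          linarith
        · rw [mem_closedBall, not_le] at h5
          rw [fderiv_psi_zero hR h5.le]
          linarith
    · have h4 : psi' z R gt η =ᶠ[𝓝 p] fun _ => 0 := by
        have : ∀ᶠ q in 𝓝 p, R < |q 0 - z 0| :=
          (isOpen_lt continuous_const ((c0.sub continuous_const).abs)).mem_nhds (not_le.mp h1)
        filter_upwards [this] with q hq
        exact hz q hq
      rw [h4.fderiv_eq]
      simp only [fderiv_fun_const, Pi.zero_apply, norm_zero]
      norm_num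
      linarith

/-- area of the strip -/
theorem strip_vol {z : V} {R : ℝ} (hR : 0 < R) {gt : ℝ → ℝ} (hg : Continuous gt) {η : ℝ}
    (hη : 0 < η) : volume (strip z R gt η) ≤ ENNReal.ofReal (6 * R * η) := by
  set f : V → ℝ × ℝ := fun p => (p 0, p 1) with hf
  have hmp : MeasurePreserving f volume volume :=
    (volume_preserving_finTwoArrow ℝ).comp
      (EuclideanSpace.volume_preserving_symm_measurableEquiv_toLp (Fin 2))
  set s := Icc (z 0 - R) (z 0 + R) with hs
  set A := regionBetween (fun x => gt x - η) (fun x => gt x + 2 * η) s with hA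
  have hmA : MeasurableSet A := measurableSet_regionBetween (by fun_prop) (by fun_prop)
    measurableSet_Icc
  have hsub : strip z R gt η ⊆ f ⁻¹' A := by
    rintro p ⟨h1, h2, h3⟩
    rw [abs_le] at h1
    refine ⟨⟨?_, ?_⟩, ?_, ?_⟩
    · show z 0 - R ≤ p 0
      linarith [h1.1]
    · show p 0 ≤ z 0 + R
      linarith [h1.2]
    · show gt (p 0) - η < p 1
      linarith
    · show p 1 < gt (p 0) + 2 * η
      linarith
  calc volume (strip z R gt η) ≤ volume (f ⁻¹' A) := measure_mono hsub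
    _ = volume A := hmp.measure_preimage hmA.nullMeasurableSet
    _ = ENNReal.ofReal (∫ y in s, ((fun x => gt x + 2 * η) - (fun x => gt x - η)) y) := by
      rw [hA, Measure.volume_eq_prod]
      refine volume_regionBetween_eq_integral ?_ ?_ measurableSet_Icc (fun x _ => by linarith)
      · exact (Continuous.continuousOn (by fun_prop)).integrableOn_Icc
      · exact (Continuous.continuousOn (by fun_prop)).integrableOn_Icc
    _ = ENNReal.ofReal (6 * R * η) := by
      congr 1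
      have : ∀ y, ((fun x => gt x + 2 * η) - (fun x => gt x - η)) y = 3 * η := by
        intro y
        simp only [Pi.sub_apply]
        ring
      simp only [this]
      rw [setIntegral_const, hs, Real.volume_real_Icc_of_le (by linarith), smul_eq_mul]
      ring

/-- energy bound -/
theorem energy_le {z : V} {R : ℝ} (hR : 0 < R) {gt : ℝ → ℝ} {L : ℝ≥0}
    (hg : LipschitzWith L gt) {η : ℝ} (hη : 0 < η) (hηR : η ≤ R) :
    ∫ p, ‖gradient (psi' z R gt η) p‖ ^ 2 ≤ (4 * Real.pi + 6 * (L + 3) ^ 2) * (R / η) := by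
  have hgr : ∀ p, ‖gradient (psi' z R gt η) p‖ = ‖fderiv ℝ (psi' z R gt η) p‖ := fun p => by
    rw [gradient, LinearIsometryEquiv.norm_map]
  have hv1 : (volume (closedBall z R)) = ENNReal.ofReal (Real.pi * R ^ 2) := by
    rw [EuclideanSpace.volume_closedBall_fin_two, ← ENNReal.ofReal_pow hR.le,
      ← ENNReal.ofReal_mul (by positivity), mul_comm]
  have hv2 := strip_vol hR hg.continuous hη (z := z)
  have hf1 : (volume (closedBall z R)) ≠ ⊤ := by rw [hv1]; exact ENNReal.ofReal_ne_top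
  have hf2 : volume (strip z R gt η) ≠ ⊤ := ne_top_of_le_ne_top ENNReal.ofReal_ne_top hv2
  have i1 : Integrable ((closedBall z R).indicator (fun _ : V => (2 / R) ^ 2)) :=
    (integrableOn_const hf1).integrable_indicator measurableSet_closedBall
  have i2 : Integrable ((strip z R gt η).indicator (fun _ : V => (2 / R + (L + 1) / η) ^ 2)) :=
    (integrableOn_const hf2).integrable_indicator (strip_closed hg.continuous).measurableSet
  have h1 : ∫ p, ‖gradient (psi' z R gt η) p‖ ^ 2 ≤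
      ∫ p, ((closedBall z R).indicator (fun _ => (2 / R) ^ 2) p +
      (strip z R gt η).indicator (fun _ => (2 / R + (L + 1) / η) ^ 2) p) := by
    refine integral_mono_of_nonneg (Eventually.of_forall fun p => by positivity) (i1.add i2)
      (Eventually.of_forall fun p => ?_)
    simp only [hgr]
    exact fderiv_psi'_le hR hg hη p
  refine h1.trans ?_
  rw [integral_add i1 i2, integral_indicator measurableSet_closedBall,
    integral_indicator (strip_closed hg.continuous).measurableSet, setIntegral_const,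
    setIntegral_const, smul_eq_mul, smul_eq_mul]
  have r1 : volume.real (closedBall z R) = Real.pi * R ^ 2 := by
    rw [Measure.real, hv1, ENNReal.toReal_ofReal (by positivity)]
  have r2 : volume.real (strip z R gt η) ≤ 6 * R * η := by
    rw [Measure.real]
    exact ENNReal.toReal_le_of_le_ofReal (by positivity) hv2
  rw [r1]
  have h2 : 1 ≤ R / η := by rw [le_div_iff₀ hη]; linarith
  have h3 : (2 / R + (L + 1) / η) ^ 2 ≤ ((L + 3) / η) ^ 2 := by
    apply pow_le_pow_left₀ (by positivity)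
    have : 2 / R ≤ 2 / η := div_le_div_of_nonneg_left (by norm_num) hη hηR
    calc 2 / R + (L + 1) / η ≤ 2 / η + (L + 1) / η := by linarith
      _ = (L + 3) / η := by ring
  have e1 : Real.pi * R ^ 2 * (2 / R) ^ 2 = 4 * Real.pi := by
    field_simp
    ring
  rw [e1]
  have h4 : volume.real (strip z R gt η) * (2 / R + (L + 1) / η) ^ 2 ≤
      6 * R * η * ((L + 3) / η) ^ 2 := mul_le_mul r2 h3 (by positivity) (by positivity)
  have e2 : 6 * R * η * ((L + 3) / η) ^ 2 = 6 * ((L : ℝ) + 3) ^ 2 * (R / η) := by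
    field_simp
  rw [e2] at h4
  have h5 : 4 * Real.pi ≤ 4 * Real.pi * (R / η) := by
    have := Real.pi_pos
    nlinarith
  calc _ ≤ 4 * Real.pi * (R / η) + 6 * ((L : ℝ) + 3) ^ 2 * (R / η) := add_le_add h5 h4
    _ = _ := by ring


/-- lower bound for the first variation -/
theorem B_lower {r X₀ k n1 n2 R : ℝ} (h : Geo r X₀ k n1 n2 R) {u : V → ℝ} (hu : Continuous u)
    {c : ℝ} (hc : 0 < c) (hopf : ∀ p ∈ ball (pt 0 k) r, c * (r - dist p (pt 0 k)) ≤ u p)
    (hnn : ∀ p, 0 ≤ u p)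
    (hhalf : ∀ p, u p ≠ 0 → n1 * (p 0 - r * n1) + n2 * (p 1 - (k + r * n2)) ≤ 0) :
    Real.pi / 400 * (c / 40) * Real.exp (-11) * R ≤
      ∫ x, u x * lap (psi (zz r k n1 n2 R) R) x := by
  have hR := h.R_pos
  set z := zz r k n1 n2 R with hz
  have hψ := tst_psi z hR
  have hcl : Continuous (lap (psi z R)) := (Pool.Agent.Helper546.contDiff_lap hψ.1).continuous
  have hcs : HasCompactSupport (lap (psi z R)) :=
    ((hψ.dd 0).dd 0).2.1.add ((hψ.dd 1).dd 1).2.1
  have hint : Integrable (fun x => u x * lap (psi z R) x) :=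
    (hu.mul hcl).integrable_of_hasCompactSupport (hcs.mul_left (f := u))
  have hpos : ∀ x, 0 ≤ u x * lap (psi z R) x := by
    intro x
    by_cases hx : u x = 0
    · rw [hx, zero_mul]
    · exact mul_nonneg (hnn x) (lap_nonneg hR (far h (hhalf x hx)))
  set G := closedBall (zg r k n1 n2 R) (R / 20) with hG
  have hvG : volume G = ENNReal.ofReal (Real.pi * (R / 20) ^ 2) := by
    rw [hG, EuclideanSpace.volume_closedBall_fin_two, ← ENNReal.ofReal_pow (by positivity),
      ← ENNReal.ofReal_mul (by positivity), mul_comm]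
  have hfG : volume G ≠ ⊤ := by rw [hvG]; exact ENNReal.ofReal_ne_top
  have hlow : ∀ x ∈ G, c * (R / 40) * (Real.exp (-11) / R ^ 2) ≤ u x * lap (psi z R) x := by
    intro x hx
    rw [hG, mem_closedBall] at hx
    have g1 := good_ball h hx
    obtain ⟨g2, g3⟩ := good_ring h hx
    have g4 := lap_lower hR g2 g3
    have g5 : c * (R / 40) ≤ u x := by
      refine le_trans (mul_le_mul_of_nonneg_left ?_ hc.le) (hopf x ?_)
      · linarith
      · rw [mem_ball]
        linarith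
    exact mul_le_mul g5 g4 (by positivity) (hnn x)
  calc Real.pi / 400 * (c / 40) * Real.exp (-11) * R
      = ∫ _ in G, c * (R / 40) * (Real.exp (-11) / R ^ 2) := by
        rw [setIntegral_const, smul_eq_mul, Measure.real, hvG,
          ENNReal.toReal_ofReal (by positivity)]
        field_simp
        ring
    _ ≤ ∫ x in G, u x * lap (psi z R) x :=
        setIntegral_mono_on (integrableOn_const hfG) hint.integrableOn
          measurableSet_closedBall hlow
    _ ≤ ∫ x, u x * lap (psi z R) x :=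
        setIntegral_le_integral hint (Eventually.of_forall hpos)

end ALM

theorem t_ALM (h1 : S_HOPF) (h2 : S_HLIP) (h3 : S_VAR) (h4 : S_ADM) (h5 : S_REG) : S_ALM := by
  intro U r α β l g R k X₀ hF u hu
  have hr : 0 < r := hF.good.r_pos
  have hXr := hF.hX
  obtain ⟨hXr1, hXr2⟩ := abs_lt.mp hXr
  have hsq : 0 < r ^ 2 - X₀ ^ 2 := by nlinarith
  set n1 := X₀ / r with hn1
  set n2 := √(r ^ 2 - X₀ ^ 2) / r with hn2
  have hn2p : 0 < n2 := div_pos (Real.sqrt_pos.mpr hsq) hr
  have hunit : n1 ^ 2 + n2 ^ 2 = 1 := by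
    rw [hn1, hn2, div_pow, div_pow, Real.sq_sqrt hsq.le]
    field_simp
    ring
  have hX : X₀ = r * n1 := by rw [hn1]; field_simp
  have hY : g X₀ = k + r * n2 := by
    rw [hF.touch, hn2]
    field_simp
  -- the base ball
  have hbase : ∀ x : ℝ, |x| < r → α < x ∧ x < β ∧ l x < k := by
    intro x hx
    have : pt x k ∈ U := by
      apply hF.base
      rw [mem_ball]
      have e : dist (pt x k) (pt 0 k) ^ 2 = |x| ^ 2 := by
        rw [ALM.dist_sq, ALM.pt_zero, ALM.pt_zero, ALM.pt_one, ALM.pt_one, sq_abs]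
        ring
      have e2 := (pow_left_inj₀ dist_nonneg (abs_nonneg x) two_ne_zero).mp e
      rw [e2]
      exact hx
    rw [hF.eq] at this
    obtain ⟨q1, q2, q3, _⟩ := this
    rw [ALM.pt_zero] at q1 q2 q3
    rw [ALM.pt_one] at q3
    exact ⟨q1, q2, q3⟩
  have hPU : pt X₀ (g X₀) ∉ U := by
    intro hP
    rw [hF.eq] at hP
    have := hP.2.2.2
    rw [ALM.pt_zero, ALM.pt_one] at this
    exact lt_irrefl _ this
  have hPd : dist (pt X₀ (g X₀)) (pt 0 k) = r := by
    have e : dist (pt X₀ (g X₀)) (pt 0 k) ^ 2 = r ^ 2 := by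
      rw [ALM.dist_sq, ALM.pt_zero, ALM.pt_zero, ALM.pt_one, ALM.pt_one, hY, hX]
      linear_combination (r ^ 2) * hunit
    exact (pow_left_inj₀ dist_nonneg hr.le two_ne_zero).mp e
  have hhalf : ∀ p ∈ U, n1 * (p 0 - r * n1) + n2 * (p 1 - (k + r * n2)) ≤ 0 := by
    intro p hp
    have := ALM.half_plane hF.good.pc.convex hF.base hPU hPd hr hp
    rw [ALM.pt_zero, ALM.pt_zero, ALM.pt_one, ALM.pt_one, hY, hX] at this
    have e : (r * n1 - 0) * (p 0 - r * n1) + (k + r * n2 - k) * (p 1 - (k + r * n2)) =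
        r * (n1 * (p 0 - r * n1) + n2 * (p 1 - (k + r * n2))) := by ring
    rw [e] at this
    exact nonpos_of_mul_nonpos_right this hr
  obtain ⟨cH, hcH, hopf⟩ := h1 U u hF.good.pc hu (pt 0 k) r hr hF.base
  -- Lipschitz extension of the upper function
  set X1 := X₀ + (r - |X₀|) / 2 with hX1
  have hsub1 : Icc X₀ X1 ⊆ Ioo α β := by
    intro x hx
    have hx' : |x| < r := by
      rw [abs_lt]
      have := abs_lt.mp hXr
      have h3 := le_abs_self X₀
      have h4 := neg_abs_le X₀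
      constructor
      · linarith [hx.1]
      · linarith [hx.2]
    obtain ⟨q1, q2, _⟩ := hbase x hx'
    exact ⟨q1, q2⟩
  obtain ⟨L, hL⟩ := (((hF.reg.cg).locallyLipschitzOn isOpen_Ioo).mono
    hsub1).exists_lipschitzOnWith_of_compact isCompact_Icc
  obtain ⟨gt, hgt, hge⟩ := hL.extend_real
  -- constants
  set M := 5 / n2 + 2 with hM
  have hMp : 0 < M := by positivity
  have hd0 : 0 < r - |X₀| := by linarith
  set ρ := min (r / (20 * M ^ 2)) (min (r * n2 / M) ((r - |X₀|) / 16)) with hρ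
  have hρp : 0 < ρ := lt_min (by positivity) (lt_min (by positivity) (by positivity))
  set c1 := Real.pi / 400 * (cH / 40) * Real.exp (-11) with hc1
  have hc1p : 0 < c1 := by
    have := Real.pi_pos
    positivity
  set C2 := 4 * Real.pi + 6 * ((L : ℝ) + 3) ^ 2 with hC2
  have hC2p : 0 < C2 := by
    have := Real.pi_pos
    positivity
  refine ⟨c1 ^ 2 / (64 * C2), 16 * ρ, by positivity, by positivity, ?_⟩
  intro φ H a' d' b d hH hAdm hφ0 hXb hbX hdw hφ
  set R' := (d - X₀) / 16 with hR'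
  have hR'p : 0 < R' := by
    rw [hR']
    linarith
  have hR'ρ : R' ≤ ρ := by rw [hR']; linarith
  have s1 : R' ≤ r / (20 * M ^ 2) := hR'ρ.trans (min_le_left _ _)
  have s2 : R' ≤ r * n2 / M := hR'ρ.trans ((min_le_right _ _).trans (min_le_left _ _))
  have s3 : R' ≤ (r - |X₀|) / 16 := hR'ρ.trans ((min_le_right _ _).trans (min_le_right _ _))
  have hGeo : ALM.Geo r X₀ k n1 n2 R' := by
    refine ⟨hr, hunit, hn2p, hX, hR'p, ?_, ?_, ?_⟩
    · rw [le_div_iff₀ (by positivity)] at s1 ⊢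
      linarith
    · rw [le_div_iff₀ hMp] at s2
      linarith
    · linarith
  obtain ⟨t₁, ht₁, hreg⟩ := h4.2.2 α β l g φ a' d' hF.reg hAdm
  refine ⟨min t₁ (4 * R' / H), lt_min ht₁ (by positivity), ?_⟩
  intro t ht0 ht
  have ht1 : t ≤ t₁ := ht.trans (min_le_left _ _)
  have ht2 : t ≤ 4 * R' / H := ht.trans (min_le_right _ _)
  set η := t * H / 4 with hη
  have hηp : 0 < η := by positivity
  have hηR : η ≤ R' := by
    rw [le_div_iff₀ hH] at ht2
    rw [hη]
    linarith
  have hPC' : PC (Reg α β l (fun x => g x + t * φ x)) :=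
    h5.1 _ _ _ _ (hreg t (by rw [abs_of_pos ht0]; exact ht1))
  set U' := Reg α β l (fun x => g x + t * φ x) with hU'
  have hsub : U ⊆ U' := by
    intro p hp
    rw [hF.eq] at hp
    obtain ⟨q1, q2, q3, q4⟩ := hp
    refine ⟨q1, q2, q3, ?_⟩
    show p 1 < g (p 0) + t * φ (p 0)
    have := mul_nonneg ht0.le (hφ0 (p 0))
    linarith
  set z := ALM.zz r k n1 n2 R' with hz
  -- points of the support
  have hsupp : ∀ p : V, dist p z < R' → gt (p 0) = g (p 0) ∧ H / 4 ≤ φ (p 0) ∧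
      α < p 0 ∧ p 0 < β ∧ l (p 0) < p 1 := by
    intro p hp
    obtain ⟨q1, q2⟩ := ALM.absc hGeo hp.le
    have q3 := ALM.ordi hGeo hp.le
    have hx : |p 0| < r := by
      rw [abs_lt]
      have h4 := neg_abs_le X₀
      have h5 := le_abs_self X₀
      constructor <;> linarith
    obtain ⟨q4, q5, q6⟩ := hbase _ hx
    refine ⟨?_, ?_, q4, q5, lt_of_lt_of_le q6 q3⟩
    · have hin : p 0 ∈ Icc X₀ X1 := ⟨by linarith, by rw [hX1]; linarith⟩
      exact (hge hin).symm
    · apply hφ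
      constructor
      · rw [hR'] at q1
        linarith
      · rw [hR'] at q2
        linarith
  have hzero : ∀ x, x ∉ U' → ALM.psi' z R' gt η x = 0 := by
    intro x hx
    by_cases hd : dist x z < R'
    · obtain ⟨q1, q2, q3, q4, q5⟩ := hsupp x hd
      have q6 : g (x 0) + t * φ (x 0) ≤ x 1 := by
        by_contra hcon
        exact hx ⟨q3, q4, q5, not_le.mp hcon⟩
      unfold ALM.psi'
      rw [ALM.chi_zero hηp, mul_zero]
      rw [q1]
      have := mul_le_mul_of_nonneg_left q2 ht0.le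
      rw [hη]
      linarith
    · unfold ALM.psi'
      rw [ALM.psi_zero hR'p (not_lt.mp hd), zero_mul]
  have heqU : ∀ x ∈ U, ALM.psi' z R' gt η x = ALM.psi z R' x := by
    intro x hx
    unfold ALM.psi'
    by_cases hd : dist x z < R'
    · obtain ⟨q1, _, _, _, _⟩ := hsupp x hd
      rw [ALM.chi_one hηp, mul_one]
      rw [q1]
      rw [hF.eq] at hx
      exact hx.2.2.2.le
    · rw [ALM.psi_zero hR'p (not_lt.mp hd), zero_mul]
  have hgradU : ∀ x ∈ U, gradient (ALM.psi' z R' gt η) x = gradient (ALM.psi z R') x := by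
    intro x hx
    have : ALM.psi' z R' gt η =ᶠ[𝓝 x] ALM.psi z R' := by
      filter_upwards [hF.good.pc.isOpen.mem_nhds hx] with y hy
      exact heqU y hy
    rw [gradient, gradient, this.fderiv_eq]
  have hK : H10 U' (ALM.psi' z R' gt η) (gradient (ALM.psi' z R' gt η)) :=
    h2 U' hPC'.isOpen _ _ (ALM.psi'_lip hR'p hgt hηp) (ALM.psi'_cpt hR'p gt η) hzero
  have hunn : ∀ p, 0 ≤ u p := by
    intro p
    by_cases hp : p ∈ U
    · exact (hu.pos p hp).le
    · rw [hu.zero p hp]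
  have hB := ALM.B_lower hGeo hu.cont hcH hopf hunn (fun p hp => hhalf p (by
    by_contra hpU
    exact hp (hu.zero p hpU)))
  rw [← hc1, ← hz] at hB
  have hB0 : 0 ≤ c1 * R' := by positivity
  have hE := ALM.energy_le hR'p hgt hηp hηR (z := z)
  rw [← hC2] at hE
  have hEp : 0 < ∫ x, ‖gradient (ALM.psi' z R' gt η) x‖ ^ 2 := by
    rw [integral_pos_iff_support_of_nonneg (fun x => by positivity)
      (by simpa using hK.memG.integrable_norm_pow (by norm_num))]
    refine lt_of_lt_of_le (measure_ball_pos volume (ALM.zg r k n1 n2 R')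
      (show 0 < R' / 20 by positivity)) (measure_mono ?_)
    intro p hp
    rw [mem_ball] at hp
    have g1 := ALM.good_ball hGeo hp.le
    obtain ⟨g2, g3⟩ := ALM.good_ring hGeo hp.le
    have g4 := ALM.grad_lower hR'p g2 g3
    have hpU : p ∈ U := hF.base (by rw [mem_ball]; linarith)
    rw [Function.mem_support, hgradU p hpU, gradient, LinearIsometryEquiv.norm_map]
    have : 0 < Real.exp (-11) ^ 2 / R' ^ 2 := by positivity
    linarith
  have hV := h3 U U' u (ALM.psi z R') (ALM.psi' z R' gt η) (gradient (ALM.psi' z R' gt η))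
    hF.good.pc hPC' hsub hu (ALM.tst_psi z hR'p) hK
    (fun x => mul_nonneg (ALM.psi_nonneg _ _ _) (ALM.chi_nonneg _ _ _)) heqU hgradU
    (hB0.trans hB) hEp
  refine hV.trans (sub_le_sub_left ?_ _)
  set B := ∫ x, u x * lap (ALM.psi z R') x with hBd
  set E := ∫ x, ‖gradient (ALM.psi' z R' gt η) x‖ ^ 2 with hEd
  have hfin : (c1 * R') ^ 2 / (C2 * (R' / η)) ≤ B ^ 2 / E := by
    apply div_le_div₀ (by positivity) (pow_le_pow_left₀ hB0 hB 2) hEp hE
  refine le_trans (le_of_eq ?_) hfin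
  rw [hη, hR']
  have hw : d - X₀ ≠ 0 := by
    have := hR'p
    rw [hR'] at this
    intro h
    rw [h] at this
    norm_num at this
  field_simp
  ring

end Pool.Agent.KS6_79.CK
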