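import Pool.Agent.KS6_79.CK.D

/-!
Project CH, task AR1: the inner parallel set does not change away from the strip.
-/

set_option autoImplicit false
open MeasureTheory Metric Set Filter Topology
open scoped ContDiff InnerProductSpace ENNReal NNReal

namespace Pool.Agent.KS6_79.CK

open Pool.Agent.H417R2.CH

namespace AR1

theorem inner_eq (x y : V) : ⟪x, y⟫_ℝ = x 0 * y 0 + x 1 * y 1 := by
  simp [PiLp.inner_apply, Fin.sum_univ_two, mul_comm]

theorem norm_sq (x : V) : ‖x‖ ^ 2 = x 0 ^ 2 + x 1 ^ 2 := by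
  rw [← real_inner_self_eq_norm_sq, inner_eq]
  ring

@[simp] theorem pt_zero (x y : ℝ) : (pt x y) 0 = x := rfl

@[simp] theorem pt_one (x y : ℝ) : (pt x y) 1 = y := rfl

/-- a ball inside a convex open set touching a point outside: the tangent line is a supporting
line -/
theorem touch {U : Set V} (hU : IsOpen U) (hc : Convex ℝ U) {p P : V} {r : ℝ} (hr : 0 < r)
    (hb : ball p r ⊆ U) (hP : P ∉ U) (hd : ‖P - p‖ ≤ r) : ‖P - p‖ = r ∧
    ∀ z ∈ U, ⟪P - p, z - P⟫_ℝ < 0 := by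
  have h0 : ‖P - p‖ = r := by
    refine le_antisymm hd (not_lt.1 fun h => hP (hb ?_))
    rw [mem_ball, dist_eq_norm]
    exact h
  refine ⟨h0, ?_⟩
  obtain ⟨f, hf⟩ := geometric_hahn_banach_open_point hc hU hP
  obtain ⟨v, hv⟩ : ∃ v : V, ∀ x, f x = ⟪v, x⟫_ℝ :=
    ⟨(InnerProductSpace.toDual ℝ V).symm f, fun x => by simp⟩
  have hp : p ∈ U := hb (mem_ball_self hr)
  have hv0 : v ≠ 0 := by
    rintro rfl
    have := hf p hp
    rw [hv, hv, inner_zero_left, inner_zero_left] at this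
    exact lt_irrefl _ this
  have hvn : 0 < ‖v‖ := norm_pos_iff.2 hv0
  -- the ball is in the half plane
  have h1 : ∀ s : ℝ, 0 ≤ s → s < r → s * ‖v‖ < ⟪v, P - p⟫_ℝ := by
    intro s hs hsr
    have h2 : p + (s / ‖v‖) • v ∈ U := by
      apply hb
      rw [mem_ball, dist_eq_norm, add_sub_cancel_left, norm_smul, Real.norm_eq_abs,
        abs_of_nonneg (by positivity), div_mul_cancel₀ _ hvn.ne']
      exact hsr
    have h3 := hf _ h2
    rw [hv, hv, inner_add_right, real_inner_smul_right, real_inner_self_eq_norm_sq] at h3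
    rw [inner_sub_right]
    have h4 : s / ‖v‖ * ‖v‖ ^ 2 = s * ‖v‖ := by field_simp
    linarith
  have h2 : r * ‖v‖ ≤ ⟪v, P - p⟫_ℝ := by
    by_contra hcon
    push Not at hcon
    have h3 : 0 < ⟪v, P - p⟫_ℝ := by
      have := h1 0 le_rfl hr
      rwa [zero_mul] at this
    have h4 := h1 (⟪v, P - p⟫_ℝ / ‖v‖) (by positivity) (by rwa [div_lt_iff₀ hvn])
    rw [div_mul_cancel₀ _ hvn.ne'] at h4
    exact lt_irrefl _ h4
  have h3 : ⟪v, P - p⟫_ℝ = ‖v‖ * ‖P - p‖ := by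
    refine le_antisymm (real_inner_le_norm _ _) ?_
    rw [h0, mul_comm]
    exact h2
  have h4 := inner_eq_norm_mul_iff_real.1 h3
  -- ‖v‖ (P - p) = ‖P - p‖ v
  intro z hz
  have h5 := hf z hz
  rw [hv, hv] at h5
  have h6 : ⟪v, z - P⟫_ℝ < 0 := by
    rw [inner_sub_right]
    linarith
  have h7 : ‖P - p‖ * ⟪v, z - P⟫_ℝ = ‖v‖ * ⟪P - p, z - P⟫_ℝ := by
    rw [← real_inner_smul_left, ← real_inner_smul_left, h4]
  have h8 : ‖v‖ * ⟪P - p, z - P⟫_ℝ < 0 := by
    rw [← h7, h0]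
    exact mul_neg_of_pos_of_neg hr h6
  by_contra hcon
  push Not at hcon
  exact absurd h8 (not_lt.2 (mul_nonneg hvn.le hcon))

theorem cross_le {x y x' y' r : ℝ} (hy : 0 < y) (hy' : 0 < y') (h : x ^ 2 + y ^ 2 = r ^ 2)
    (h' : x' ^ 2 + y' ^ 2 = r ^ 2) (hc : x * y' ≤ x' * y) : x ≤ x' := by
  by_contra hlt
  push Not at hlt
  rcases le_or_gt 0 x' with h1 | h1
  · have h2 : y < y' := by nlinarith
    nlinarith [mul_lt_mul'' hlt h2 h1 hy.le]
  · rcases le_or_gt 0 x with h2 | h2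
    · nlinarith [mul_nonneg h2 hy'.le, mul_neg_of_neg_of_pos h1 hy]
    · have h3 : y' < y := by nlinarith
      nlinarith [mul_lt_mul'' (neg_lt_neg hlt) h3 (by linarith) hy'.le]

/-- two tangent balls -/
theorem geo {x y x' y' r Dx Dy ex ey : ℝ} (hy : 0 < y) (hy' : 0 < y')
    (h : x ^ 2 + y ^ 2 = r ^ 2) (h' : x' ^ 2 + y' ^ 2 = r ^ 2) (hD : 0 < Dx)
    (hx : Dx = ex + x' - x) (h1 : x * Dx + y * Dy ≤ 0) (h2 : 0 ≤ x' * Dx + y' * Dy)
    (h3 : 0 ≤ x' * ex + y' * ey) (h4 : x * ex + y * ey ≤ 0) : 0 ≤ ex ∧ ex ≤ Dx := by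
  have h5 : 0 ≤ (x' * y - x * y') * Dx := by nlinarith
  have h6 : x * y' ≤ x' * y := by
    by_contra hcon
    push Not at hcon
    nlinarith
  have h7 := cross_le hy hy' h h' h6
  refine ⟨?_, by linarith⟩
  rcases h6.lt_or_eq with h8 | h8
  · have h9 : 0 ≤ (x' * y - x * y') * ex := by nlinarith
    by_contra hcon
    push Not at hcon
    nlinarith
  · have h10 := cross_le hy' hy h' h h8.ge
    linarith

/-- the geometric part: a ball of radius `r` in `U` touching the graph between `X₀` and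
`X₀ + δ₀` -/
theorem noball {U : Set V} {r α β : ℝ} {l g : ℝ → ℝ} {R k X₀ : ℝ}
    (hF : Frame U r α β l g R k X₀) (hU : IsOpen U) (hc : Convex ℝ U) {δ₀ X : ℝ} {p : V}
    (hX : X ∈ Ioo α β) (h0 : X₀ < X) (h1 : X < X₀ + δ₀) (hp : ball p r ⊆ U)
    (hd : ‖pt X (g X) - p‖ ≤ r) : |p 0| < δ₀ := by
  have hr : 0 < r := hF.good.r_pos
  have hreg := hF.reg
  have hXs := abs_lt.1 hF.hX
  have hX₀ : X₀ ∈ Ioo α β := by
    have h2 : pt X₀ 0 ∈ U := hF.hball (by
      rw [mem_ball, dist_zero_right]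
      have h3 : ‖pt X₀ 0‖ ^ 2 < R ^ 2 := by
        rw [norm_sq, pt_zero, pt_one]
        have := hF.hR
        nlinarith
      exact lt_of_pow_lt_pow_left₀ 2 (by linarith [hF.hR]) h3)
    rw [hF.eq] at h2
    exact ⟨h2.1, h2.2.1⟩
  have hsq : 0 < r ^ 2 - X₀ ^ 2 := by nlinarith
  have hout : ∀ x ∈ Ioo α β, pt x (g x) ∉ U := by
    intro x hx h
    rw [hF.eq] at h
    exact lt_irrefl _ h.2.2.2
  have hin : ∀ x ∈ Ioo α β, ∀ s : ℝ, 0 < s → s < g x - l x → pt x (g x - s) ∈ U := by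
    intro x hx s hs hs'
    rw [hF.eq]
    exact ⟨hx.1, hx.2, by show l x < g x - s; linarith, by show g x - s < g x; linarith⟩
  have hQd : ‖pt X₀ (g X₀) - pt 0 k‖ ≤ r := by
    have h3 : ‖pt X₀ (g X₀) - pt 0 k‖ ^ 2 ≤ r ^ 2 := by
      rw [norm_sq]
      simp only [PiLp.sub_apply, pt_zero, pt_one]
      rw [hF.touch, add_sub_cancel_left, Real.sq_sqrt hsq.le]
      nlinarith
    exact le_of_sq_le_sq h3 hr.le
  obtain ⟨hQn, hQ⟩ := touch hU hc hr hF.base (hout X₀ hX₀) hQd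
  obtain ⟨hPn, hP⟩ := touch hU hc hr hp (hout X hX) hd
  -- the ball `p` in the half plane of `Q` and conversely
  have hbb : ∀ {q n : V}, ball q r ⊆ U → ‖n‖ = r → ∀ s : ℝ, 0 < s → s < 1 → q + s • n ∈ U := by
    intro q n hq hn s hs hs1
    apply hq
    rw [mem_ball, dist_eq_norm, add_sub_cancel_left, norm_smul, Real.norm_eq_abs, abs_of_pos hs, hn]
    nlinarith
  have hhalf : ∀ {q n Z : V}, ball q r ⊆ U → ‖n‖ = r → (∀ z ∈ U, ⟪n, z - Z⟫_ℝ < 0) →
      ⟪n, q - Z⟫_ℝ + r ^ 2 ≤ 0 := by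
    intro q n Z hq hn hz
    have h3 : ∀ s : ℝ, 0 < s → s < 1 → ⟪n, q - Z⟫_ℝ + s * r ^ 2 < 0 := by
      intro s hs hs1
      have h4 := hz _ (hbb hq hn s hs hs1)
      have h5 : q + s • n - Z = (q - Z) + s • n := by abel
      rw [h5, inner_add_right, real_inner_smul_right, real_inner_self_eq_norm_sq, hn] at h4
      exact h4
    by_contra hcon
    push Not at hcon
    have h4 := h3 (1 / 2) (by norm_num) (by norm_num)
    have h5 : 0 < r ^ 2 := by positivity
    have h6 := h3 (max (1 / 2) (-⟪n, q - Z⟫_ℝ / r ^ 2)) (lt_max_of_lt_left (by norm_num))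
      (max_lt (by norm_num) (by rw [div_lt_one h5]; linarith))
    have h7 : -⟪n, q - Z⟫_ℝ / r ^ 2 * r ^ 2 = -⟪n, q - Z⟫_ℝ := div_mul_cancel₀ _ h5.ne'
    have h8 : -⟪n, q - Z⟫_ℝ / r ^ 2 * r ^ 2 ≤ max (1 / 2) (-⟪n, q - Z⟫_ℝ / r ^ 2) * r ^ 2 :=
      mul_le_mul_of_nonneg_right (le_max_right _ _) h5.le
    linarith
  have e3 := hhalf hF.base hPn hP
  have e4 := hhalf hp hQn hQ
  -- points of the graph in the closed half planes
  have hgr : ∀ {n Z : V}, (∀ z ∈ U, ⟪n, z - Z⟫_ℝ < 0) → ∀ x ∈ Ioo α β,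
      n 0 * (x - Z 0) + n 1 * (g x - Z 1) ≤ 0 := by
    intro n Z hz x hx
    have h3 : ∀ s : ℝ, 0 < s → s < g x - l x →
        n 0 * (x - Z 0) + n 1 * (g x - Z 1) < s * n 1 := by
      intro s hs hs'
      have h4 := hz _ (hin x hx s hs hs')
      rw [inner_eq] at h4
      simp only [PiLp.sub_apply, pt_zero, pt_one] at h4
      linarith
    have h5 : 0 < g x - l x := by linarith [hreg.lg x hx]
    by_contra hcon
    push Not at hcon
    have h6 := h3 _ (half_pos h5) (by linarith)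
    have h7 : 0 < n 1 := by
      by_contra h8
      push Not at h8
      nlinarith
    have h8 := h3 (min ((g x - l x) / 2) ((n 0 * (x - Z 0) + n 1 * (g x - Z 1)) / n 1))
      (lt_min (by linarith) (by positivity)) ((min_le_left _ _).trans_lt (by linarith))
    have h9 : min ((g x - l x) / 2) ((n 0 * (x - Z 0) + n 1 * (g x - Z 1)) / n 1) * n 1 ≤
        (n 0 * (x - Z 0) + n 1 * (g x - Z 1)) / n 1 * n 1 :=
      mul_le_mul_of_nonneg_right (min_le_right _ _) h7.le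
    rw [div_mul_cancel₀ _ h7.ne'] at h9
    linarith
  have e1 := hgr hQ X hX
  have e2 := hgr hP X₀ hX₀
  have hy' : 0 < (pt X (g X) - p) 1 := by
    have h5 : 0 < g X - l X := by linarith [hreg.lg X hX]
    have h6 := hP _ (hin X hX _ (half_pos h5) (by linarith))
    rw [inner_eq] at h6
    simp only [PiLp.sub_apply, pt_zero, pt_one] at h6 ⊢
    nlinarith
  have hy : 0 < (pt X₀ (g X₀) - pt 0 k) 1 := by
    simp only [PiLp.sub_apply, pt_one]
    rw [hF.touch, add_sub_cancel_left]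
    exact Real.sqrt_pos.2 hsq
  have n1 := norm_sq (pt X₀ (g X₀) - pt 0 k)
  rw [hQn] at n1
  have n2 := norm_sq (pt X (g X) - p)
  rw [hPn] at n2
  rw [inner_eq] at e3 e4
  simp only [PiLp.sub_apply, pt_zero, pt_one] at e1 e2 e3 e4 hy hy' n1 n2
  obtain ⟨g1, g2⟩ := geo (x := X₀ - 0) (y := g X₀ - k) (x' := X - p 0) (y' := g X - p 1) (r := r)
    (Dx := X - X₀) (Dy := g X - g X₀) (ex := p 0) (ey := p 1 - k) hy hy' n1.symm n2.symm
    (by linarith) (by ring) (by linarith) (by nlinarith) (by nlinarith) (by nlinarith)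
  rw [abs_lt]
  constructor <;> linarith

theorem continuousOn_g {α β : ℝ} {l g : ℝ → ℝ} (h : RegD α β l g) : ContinuousOn g (Ioo α β) :=
  h.cg.continuousOn isOpen_Ioo

theorem bound_of_adm (h : S_ADM) {α β : ℝ} {g φ : ℝ → ℝ} {a d : ℝ} (hφ : Adm α β g φ a d) :
    Continuous φ ∧ ∃ B : ℝ, 0 < B ∧ ∀ x, |φ x| ≤ B := by
  have hcont := (h.1 α β g φ a d hφ).1
  refine ⟨hcont, ?_⟩
  obtain ⟨B, hB⟩ := (isCompact_Icc (a := a) (b := d)).exists_bound_of_continuousOn hcont.continuousOn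
  refine ⟨max B 1, lt_max_of_lt_right one_pos, fun x => ?_⟩
  by_cases hx : x ∈ Ioo a d
  · exact (hB x (Ioo_subset_Icc_self hx)).trans (le_max_left _ _)
  · rw [hφ.zero x hx, abs_zero]
    exact le_max_of_le_right zero_le_one

theorem isOpen_convex {U : Set V} {r α β : ℝ} {l g : ℝ → ℝ} {R k X₀ : ℝ}
    (hF : Frame U r α β l g R k X₀) : IsOpen U ∧ Convex ℝ U :=
  ⟨hF.good.pc.isOpen, hF.good.pc.convex⟩

end AR1

theorem t_AR1 (h : S_ADM) : S_AR1 := by
  intro U r α β l g R k X₀ hF δ₀ hδ hδR φ a d hφ ha hd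
  obtain ⟨hU, hc⟩ := AR1.isOpen_convex hF
  obtain ⟨hcont, B, hB0, hB⟩ := AR1.bound_of_adm h hφ
  have hg := AR1.continuousOn_g hF.reg
  by_contra hcon
  push Not at hcon
  have hn : ∀ n : ℕ, ∃ (t : ℝ) (p z : V), |t| ≤ 1 / ((n : ℝ) + 1) ∧
      p ∈ Inn (Reg α β l (fun x => g x + t * φ x)) r ∧ δ₀ < |p 0| ∧ z ∈ ball p r ∧ z ∉ U := by
    intro n
    obtain ⟨t, ht, p, hp, hp0, hpU⟩ := hcon (1 / ((n : ℝ) + 1)) (by positivity)
    obtain ⟨z, hz, hzU⟩ := not_subset.1 hpU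
    exact ⟨t, p, z, ht, hp, hp0, hz, hzU⟩
  choose t p z ht hp hp0 hz hzU using hn
  -- everything is bounded
  obtain ⟨M, hM⟩ := hF.reg.bd
  have htB : ∀ n x, |t n * φ x| ≤ B := by
    intro n x
    rw [abs_mul]
    have h1 : |t n| ≤ 1 := (ht n).trans (by
      rw [div_le_one (by positivity)]
      linarith [(Nat.cast_nonneg n : (0 : ℝ) ≤ n)])
    calc |t n| * |φ x| ≤ 1 * B := mul_le_mul h1 (hB x) (abs_nonneg _) zero_le_one
      _ = B := one_mul B
  have hbdd : ∀ n, ∀ q ∈ Reg α β l (fun x => g x + t n * φ x),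
      ‖q‖ ≤ |α| + |β| + |M| + B := by
    intro n q hq
    obtain ⟨h1, h2, h3, h4⟩ := hq
    have h5 := hM (q 0) ⟨h1, h2⟩
    have h6 := abs_le.1 (htB n (q 0))
    have h7 : |q 0| ≤ |α| + |β| := by
      rw [abs_le]
      have := neg_abs_le α
      have := le_abs_self β
      have := abs_nonneg α
      have := abs_nonneg β
      constructor <;> linarith
    have h8 : |q 1| ≤ |M| + B := by
      rw [abs_le]
      have := le_abs_self M
      have h9 : q 1 < g (q 0) + t n * φ (q 0) := h4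
      constructor <;> linarith
    have h9 : ‖q‖ ^ 2 ≤ (|q 0| + |q 1|) ^ 2 := by
      rw [AR1.norm_sq, ← sq_abs (q 0), ← sq_abs (q 1)]
      have := mul_nonneg (abs_nonneg (q 0)) (abs_nonneg (q 1))
      nlinarith
    have h10 := le_of_sq_le_sq h9 (by positivity)
    linarith
  have hr : 0 < r := hF.good.r_pos
  obtain ⟨w, -, θ, hθ, hw⟩ := tendsto_subseq_of_bounded
    (s := closedBall (0 : V × V) (|α| + |β| + |M| + B)) isBounded_closedBall
    (x := fun n => (p n, z n)) (fun n => by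
      rw [mem_closedBall, dist_zero_right, Prod.norm_def]
      exact max_le (hbdd n _ (hp n (mem_ball_self hr))) (hbdd n _ (hp n (hz n))))
  have hwp : Tendsto (fun n => p (θ n)) atTop (𝓝 w.1) := (continuous_fst.tendsto w).comp hw
  have hwz : Tendsto (fun n => z (θ n)) atTop (𝓝 w.2) := (continuous_snd.tendsto w).comp hw
  have ht0 : Tendsto t atTop (𝓝 0) := by
    refine squeeze_zero_norm ht ?_
    exact tendsto_one_div_add_atTop_nhds_zero_nat
  have htθ : Tendsto (fun n => t (θ n)) atTop (𝓝 0) := ht0.comp hθ.tendsto_atTop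
  -- `z n` is between the graphs
  have hzn : ∀ n, z n 0 ∈ Ioo a d ∧ g (z n 0) ≤ z n 1 ∧ z n 1 < g (z n 0) + t n * φ (z n 0) := by
    intro n
    obtain ⟨h1, h2, h3, h4⟩ := hp n (hz n)
    have h5 : z n 1 < g (z n 0) + t n * φ (z n 0) := h4
    have h6 : g (z n 0) ≤ z n 1 := by
      by_contra h7
      push Not at h7
      exact hzU n (by rw [hF.eq]; exact ⟨h1, h2, h3, h7⟩)
    refine ⟨?_, h6, h5⟩
    by_contra h7
    rw [hφ.zero _ h7, mul_zero, add_zero] at h5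
    linarith
  have hc0 : Continuous (fun q : V => q 0) := EuclideanSpace.proj (𝕜 := ℝ) (0 : Fin 2) |>.continuous
  have hc1 : Continuous (fun q : V => q 1) := EuclideanSpace.proj (𝕜 := ℝ) (1 : Fin 2) |>.continuous
  have hz0 : Tendsto (fun n => z (θ n) 0) atTop (𝓝 (w.2 0)) := (hc0.tendsto _).comp hwz
  have hz1 : Tendsto (fun n => z (θ n) 1) atTop (𝓝 (w.2 1)) := (hc1.tendsto _).comp hwz
  have hXm : w.2 0 ∈ Icc a d := isClosed_Icc.mem_of_tendsto hz0
    (Eventually.of_forall fun n => Ioo_subset_Icc_self (hzn (θ n)).1)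
  have hXI : w.2 0 ∈ Ioo α β := ⟨hφ.ha.trans_le hXm.1, hXm.2.trans_lt hφ.hd⟩
  have hgz : Tendsto (fun n => g (z (θ n) 0)) atTop (𝓝 (g (w.2 0))) :=
    ((hg.continuousAt (isOpen_Ioo.mem_nhds hXI)).tendsto).comp hz0
  have hdiff : Tendsto (fun n => z (θ n) 1 - g (z (θ n) 0)) atTop (𝓝 0) := by
    have h1 : Tendsto (fun n => |t (θ n)| * B) atTop (𝓝 0) := by
      have := (htθ.abs).mul_const B
      rwa [abs_zero, zero_mul] at this
    refine squeeze_zero (fun n => by linarith [(hzn (θ n)).2.1]) (fun n => ?_) h1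
    have h2 := (hzn (θ n)).2.2
    have h3 : t (θ n) * φ (z (θ n) 0) ≤ |t (θ n)| * B := by
      refine (le_abs_self _).trans ?_
      rw [abs_mul]
      exact mul_le_mul_of_nonneg_left (hB _) (abs_nonneg _)
    linarith
  have hw1 : w.2 1 = g (w.2 0) := by
    have h1 := tendsto_nhds_unique (hz1.sub hgz) hdiff
    linarith
  have hwpt : pt (w.2 0) (g (w.2 0)) = w.2 := by
    ext i
    fin_cases i
    · rfl
    · exact hw1.symm
  -- distance of the limits
  have hd1 : ‖w.2 - w.1‖ ≤ r := by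
    have h1 : Tendsto (fun n => ‖z (θ n) - p (θ n)‖) atTop (𝓝 ‖w.2 - w.1‖) := (hwz.sub hwp).norm
    refine le_of_tendsto h1 (Eventually.of_forall fun n => ?_)
    have h2 := hz (θ n)
    rw [mem_ball, dist_eq_norm] at h2
    exact h2.le
  -- the ball around the limit is in `U`
  have hball : ball w.1 r ⊆ U := by
    have h1 : ∀ q ∈ ball w.1 r, α < q 0 ∧ q 0 < β ∧ l (q 0) < q 1 ∧ q 1 ≤ g (q 0) := by
      intro q hq
      have h2 : ∀ᶠ n in atTop, q ∈ ball (p (θ n)) r := by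
        have h3 : Tendsto (fun n => dist q (p (θ n))) atTop (𝓝 (dist q w.1)) :=
          tendsto_const_nhds.dist hwp
        exact h3.eventually_lt_const hq
      have h4 : ∀ᶠ n in atTop, α < q 0 ∧ q 0 < β ∧ l (q 0) < q 1 ∧
          q 1 < g (q 0) + t (θ n) * φ (q 0) := h2.mono fun n hn => hp (θ n) hn
      obtain ⟨n, h5, h6, h7, -⟩ := h4.exists
      refine ⟨h5, h6, h7, ?_⟩
      have h8 : Tendsto (fun n => g (q 0) + t (θ n) * φ (q 0)) atTop (𝓝 (g (q 0))) := by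
        have := (htθ.mul_const (φ (q 0))).const_add (g (q 0))
        rwa [zero_mul, add_zero] at this
      exact ge_of_tendsto h8 (h4.mono fun n hn => hn.2.2.2.le)
    intro q hq
    obtain ⟨h2, h3, h4, -⟩ := h1 q hq
    rw [hF.eq]
    refine ⟨h2, h3, h4, ?_⟩
    -- a slightly higher point
    obtain ⟨ε, hε, hεb⟩ := Metric.isOpen_iff.1 isOpen_ball q hq
    have h5 : pt (q 0) (q 1 + ε / 2) ∈ ball w.1 r := by
      apply hεb
      rw [mem_ball, dist_eq_norm]
      have h6 : ‖pt (q 0) (q 1 + ε / 2) - q‖ ^ 2 < ε ^ 2 := by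
        rw [AR1.norm_sq]
        simp only [PiLp.sub_apply, AR1.pt_zero, AR1.pt_one]
        ring_nf
        nlinarith [sq_nonneg ε, pow_pos hε 2]
      exact lt_of_pow_lt_pow_left₀ 2 hε.le h6
    obtain ⟨-, -, -, h6⟩ := h1 _ h5
    rw [AR1.pt_zero, AR1.pt_one] at h6
    linarith
  have hp1 : δ₀ ≤ |w.1 0| := by
    have h1 : Tendsto (fun n => |p (θ n) 0|) atTop (𝓝 |w.1 0|) :=
      (((hc0.tendsto _).comp hwp)).abs
    exact ge_of_tendsto h1 (Eventually.of_forall fun n => (hp0 (θ n)).le)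
  have hfin := AR1.noball hF hU hc (δ₀ := δ₀) (X := w.2 0) (p := w.1) hXI
    (ha.trans_le hXm.1) (hXm.2.trans_lt hd) hball (by rw [hwpt]; exact hd1)
  linarith

end Pool.Agent.KS6_79.CK
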