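import Pool.Agent.KS6_79.CK.D

/-!
Project CH (helper417), task AR2: change of the inner parallel set in the strip `|x| ≤ δ₀`.
-/

set_option autoImplicit false
open MeasureTheory Metric Set Filter Topology
open scoped ContDiff InnerProductSpace ENNReal NNReal

namespace Pool.Agent.KS6_79.CK

open Pool.Agent.H417R2.CH

open Pool.Agent.Helper546 (Tst lap)

namespace AR2

/-- clamp -/
noncomputable def cl (c z : ℝ) : ℝ := max (-c) (min c z)

lemma continuous_cl (c : ℝ) : Continuous (cl c) := by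
  unfold cl; fun_prop

lemma cl_eq {c z : ℝ} (h : |z| ≤ c) : cl c z = z := by
  rw [abs_le] at h
  unfold cl
  rw [min_eq_right h.2, max_eq_right h.1]

lemma cl_mem {c : ℝ} (hc : 0 ≤ c) (z : ℝ) : |cl c z| ≤ c := by
  unfold cl
  rw [abs_le]
  exact ⟨le_max_left _ _, max_le (by linarith) (min_le_left _ _)⟩

lemma continuous_gr {f : ℝ → ℝ} {c r : ℝ} (hc : 0 ≤ c) (hf : ContinuousOn f (Icc (-c) c)) :
    Continuous (gr (fun z => f (cl c z)) r) := by
  have h1 : Continuous (fun z => f (cl c z)) := by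
    refine hf.comp_continuous (continuous_cl c) (fun z => ?_)
    rw [mem_Icc, ← abs_le]; exact cl_mem hc z
  have h2 : Continuous (Function.uncurry fun x s : ℝ => f (cl c (x + s)) - √(r ^ 2 - s ^ 2)) := by
    have h3 : Continuous (fun p : ℝ × ℝ => f (cl c (p.1 + p.2))) :=
      h1.comp (continuous_fst.add continuous_snd)
    exact h3.sub (by fun_prop)
  exact IsCompact.continuous_sInf (f := fun x s : ℝ => f (cl c (x + s)) - √(r ^ 2 - s ^ 2))
    isCompact_Icc h2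

lemma gr_cl {f : ℝ → ℝ} {δ r x : ℝ} (hx : |x| ≤ δ) :
    gr (fun z => f (cl (δ + r) z)) r x = gr f r x := by
  unfold gr
  congr 1
  refine image_congr (fun s hs => ?_)
  have : |x + s| ≤ δ + r := (abs_add_le x s).trans (add_le_add hx (abs_le.2 hs))
  simp only [cl_eq this]

lemma le_gr {f : ℝ → ℝ} {r x m : ℝ} (hr : 0 < r)
    (h : ∀ s ∈ Icc (-r) r, m + √(r ^ 2 - s ^ 2) ≤ f (x + s)) : m ≤ gr f r x := by
  unfold gr
  refine le_csInf ((nonempty_Icc.2 (by linarith)).image _) ?_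
  rintro _ ⟨s, hs, rfl⟩
  have := h s hs
  simp only
  linarith

lemma gr_le {f : ℝ → ℝ} {r x s : ℝ} (hf : ContinuousOn f (Icc (x - r) (x + r)))
    (hs : s ∈ Icc (-r) r) : gr f r x ≤ f (x + s) - √(r ^ 2 - s ^ 2) := by
  unfold gr
  refine csInf_le ?_ ⟨s, hs, rfl⟩
  refine (isCompact_Icc.bddBelow_image ?_)
  refine ContinuousOn.sub ?_ (by fun_prop)
  refine hf.comp (by fun_prop) ?_
  intro s hs
  simp only [mem_Icc] at hs ⊢
  constructor <;> linarith [hs.1, hs.2]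

lemma le_gr_of {f : ℝ → ℝ} {r x y : ℝ} (hr : 0 < r)
    (hf : ContinuousOn f (Icc (x - r) (x + r)))
    (h : ∀ s ∈ Ioo (-r) r, ∀ τ, |τ| < √(r ^ 2 - s ^ 2) → y + τ ≤ f (x + s)) :
    y ≤ gr f r x := by
  refine le_gr hr (fun s hs => ?_)
  have hcl : closure (Ioo (-r) r) = Icc (-r) r := closure_Ioo (by linarith : -r ≠ r)
  refine le_on_closure (s := Ioo (-r) r) (f := fun s => y + √(r ^ 2 - s ^ 2))
    (g := fun s => f (x + s)) ?_ (by fun_prop) ?_ (by rw [hcl]; exact hs)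
  · intro s hs
    have hq : 0 < √(r ^ 2 - s ^ 2) := by
      apply Real.sqrt_pos.2
      nlinarith [hs.1, hs.2]
    refine le_of_forall_pos_le_add (fun ε hε => ?_)
    have hm : 0 < min ε √(r ^ 2 - s ^ 2) := lt_min hε hq
    have := h s hs (√(r ^ 2 - s ^ 2) - min ε √(r ^ 2 - s ^ 2)) (by
      rw [abs_lt]
      constructor <;> linarith [min_le_right ε √(r ^ 2 - s ^ 2)])
    linarith [min_le_left ε √(r ^ 2 - s ^ 2)]
  · rw [hcl]
    refine hf.comp (by fun_prop) ?_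
    intro s hs
    simp only [mem_Icc] at hs ⊢
    constructor <;> linarith [hs.1, hs.2]

@[simp] lemma pt_zero (x y : ℝ) : pt x y 0 = x := by simp [pt]
@[simp] lemma pt_one (x y : ℝ) : pt x y 1 = y := by simp [pt]

lemma mem_ball_pt {x y r : ℝ} (hr : 0 < r) (p : V) :
    p ∈ ball (pt x y) r ↔ (p 0 - x) ^ 2 + (p 1 - y) ^ 2 < r ^ 2 := by
  rw [mem_ball, EuclideanSpace.dist_eq, Real.sqrt_lt' hr]
  simp [Fin.sum_univ_two, Real.dist_eq, sq_abs]

lemma pt_mem_ball {x y r : ℝ} (hr : 0 < r) :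
    pt x y ∈ ball (0 : V) r ↔ x ^ 2 + y ^ 2 < r ^ 2 := by
  rw [mem_ball, EuclideanSpace.dist_eq, Real.sqrt_lt' hr]
  simp [Fin.sum_univ_two, Real.dist_eq, sq_abs]

/-- coordinates -/
noncomputable def e : V ≃ᵐ ℝ × ℝ :=
  (MeasurableEquiv.toLp 2 (Fin 2 → ℝ)).symm.trans MeasurableEquiv.finTwoArrow

lemma e_apply (p : V) : e p = (p 0, p 1) := rfl

lemma e_mp : MeasurePreserving e (volume : Measure V) (volume : Measure (ℝ × ℝ)) :=
  (EuclideanSpace.volume_preserving_symm_measurableEquiv_toLp (Fin 2)).trans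
    (volume_preserving_finTwoArrow ℝ)

/-- closed region -/
def T (δ : ℝ) (F₁ F₂ : ℝ → ℝ) : Set (ℝ × ℝ) :=
  {p | p.1 ∈ Icc (-δ) δ ∧ p.2 ∈ Icc (F₁ p.1) (F₂ p.1)}

lemma volume_T {δ : ℝ} (hδ : 0 < δ) {F₁ F₂ : ℝ → ℝ} (h₁ : Continuous F₁) (h₂ : Continuous F₂)
    (h : ∀ x ∈ Icc (-δ) δ, F₁ x ≤ F₂ x) :
    volume (T δ F₁ F₂) = ENNReal.ofReal (∫ x in (-δ)..δ, (F₂ x - F₁ x)) := by
  have hm : MeasurableSet (T δ F₁ F₂) :=
    measurableSet_region_between_cc h₁.measurable h₂.measurable measurableSet_Icc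
  rw [Measure.volume_eq_prod, Measure.prod_apply hm]
  have h3 : ∀ x, volume (Prod.mk x ⁻¹' T δ F₁ F₂) =
      (Icc (-δ) δ).indicator (fun x => ENNReal.ofReal (F₂ x - F₁ x)) x := by
    intro x
    by_cases hx : x ∈ Icc (-δ) δ
    · rw [indicator_of_mem hx]
      have : Prod.mk x ⁻¹' T δ F₁ F₂ = Icc (F₁ x) (F₂ x) := by
        ext y; simp only [T, mem_preimage, mem_setOf_eq]; tauto
      rw [this, Real.volume_Icc]
    · rw [indicator_of_notMem hx]
      have : Prod.mk x ⁻¹' T δ F₁ F₂ = ∅ := by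
        ext y; simp only [T, mem_preimage, mem_setOf_eq, mem_empty_iff_false]; tauto
      rw [this, measure_empty]
  simp_rw [h3]
  rw [lintegral_indicator measurableSet_Icc, intervalIntegral.integral_of_le (by linarith),
    ← integral_Icc_eq_integral_Ioc, ofReal_integral_eq_lintegral_ofReal]
  · exact (h₂.sub h₁).continuousOn.integrableOn_compact isCompact_Icc
  · refine (ae_restrict_iff' measurableSet_Icc).2 (Eventually.of_forall fun x hx => ?_)
    simpa using h x hx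

end AR2

open AR2

theorem t_AR2 (h1 : S_ADM) (h2 : S_GRF) (h3 : S_CTB) : S_AR2 := by
  intro U r α β l g R k X₀ F δ₀ hδ hδR φ a d hA
  have hr : 0 < r := F.good.r_pos
  have hR : 0 < R := hr.trans F.hR
  obtain ⟨hφ, -⟩ := h1.1 α β g φ a d hA
  -- bound for φ
  obtain ⟨B, hB⟩ : ∃ B : ℝ, ∀ x, |φ x| ≤ B := by
    obtain ⟨B, hB⟩ := isCompact_Icc.exists_bound_of_continuousOn (s := Icc a d) hφ.continuousOn
    refine ⟨max B 0, fun x => ?_⟩
    by_cases hx : x ∈ Ioo a d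
    · exact (hB x (Ioo_subset_Icc_self hx)).trans (le_max_left _ _)
    · rw [hA.zero x hx, abs_zero]; exact le_max_right _ _
  have hB0 : 0 ≤ B := (abs_nonneg _).trans (hB 0)
  have hball : ∀ x y : ℝ, x ^ 2 + y ^ 2 < R ^ 2 → α < x ∧ x < β ∧ l x < y ∧ y < g x := by
    intro x y hxy
    have h := F.hball ((pt_mem_ball hR).2 hxy)
    rw [F.eq] at h
    simpa [Reg] using h
  have hIoo : ∀ x : ℝ, |x| ≤ δ₀ + r → x ∈ Ioo α β := by
    intro x hx
    have h : x ^ 2 + (0 : ℝ) ^ 2 < R ^ 2 := by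
      have h1 : |x| < R := lt_of_le_of_lt hx (by linarith)
      have := sq_lt_sq' (by linarith [abs_nonneg x]) h1
      rw [sq_abs] at this
      simpa using this
    exact ⟨(hball x 0 h).1, (hball x 0 h).2.1⟩
  have hcg : ContinuousOn g (Icc (-(δ₀ + r)) (δ₀ + r)) :=
    (F.reg.cg.continuousOn isOpen_Ioo).mono fun x hx => hIoo x (abs_le.2 hx)
  have hcl : ContinuousOn l (Icc (-(δ₀ + r)) (δ₀ + r)) :=
    (F.reg.cl.continuousOn isOpen_Ioo).mono fun x hx => hIoo x (abs_le.2 hx)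
  have hcnl : ContinuousOn (fun z => -l z) (Icc (-(δ₀ + r)) (δ₀ + r)) := hcl.neg
  have hsub : ∀ x : ℝ, |x| ≤ δ₀ → Icc (x - r) (x + r) ⊆ Icc (-(δ₀ + r)) (δ₀ + r) := by
    intro x hx
    rw [abs_le] at hx
    exact Icc_subset_Icc (by linarith) (by linarith)
  set m : ℝ := (R - (δ₀ + r)) / 2 with hm
  have hm0 : 0 < m := by rw [hm]; linarith
  -- margins
  have hmarg : ∀ x, |x| ≤ δ₀ → ∀ s ∈ Icc (-r) r,
      m + √(r ^ 2 - s ^ 2) ≤ g (x + s) ∧ m + √(r ^ 2 - s ^ 2) ≤ -l (x + s) := by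
    intro x hx s hs
    set q := √(r ^ 2 - s ^ 2) with hq
    have hq2 : q ^ 2 = r ^ 2 - s ^ 2 := Real.sq_sqrt (by nlinarith [hs.1, hs.2])
    have hq0 : 0 ≤ q := Real.sqrt_nonneg _
    have hqr : q ≤ r := by
      apply le_of_sq_le_sq _ hr.le
      nlinarith [sq_nonneg s]
    have hxs : x * s ≤ δ₀ * r := by
      calc x * s ≤ |x * s| := le_abs_self _
        _ = |x| * |s| := abs_mul _ _
        _ ≤ δ₀ * r := mul_le_mul hx (abs_le.2 hs) (abs_nonneg _) hδ.le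
    have hx2 : x ^ 2 ≤ δ₀ ^ 2 := by
      rw [← sq_abs]; exact pow_le_pow_left₀ (abs_nonneg _) hx 2
    have hlt : δ₀ + r + m < R := by rw [hm]; linarith
    have hk : (x + s) ^ 2 + (m + q) ^ 2 < R ^ 2 := by
      have h1 : (x + s) ^ 2 + (m + q) ^ 2 ≤ (δ₀ + r + m) ^ 2 := by
        nlinarith [mul_nonneg hδ.le hm0.le, mul_le_mul_of_nonneg_left hqr hm0.le]
      have h2 : (δ₀ + r + m) ^ 2 < R ^ 2 := by
        apply pow_lt_pow_left₀ hlt (by positivity) (by norm_num)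
      linarith
    refine ⟨(hball (x + s) (m + q) hk).2.2.2.le, ?_⟩
    have h4 := (hball (x + s) (-(m + q)) (by rw [neg_sq]; exact hk)).2.2.1
    linarith
  refine ⟨m / (B + 1), by positivity, fun t ht => ?_⟩
  have htB : ∀ x, |t * φ x| ≤ m := by
    intro x
    rw [abs_mul]
    calc |t| * |φ x| ≤ m / (B + 1) * B := mul_le_mul ht (hB x) (abs_nonneg _) (by positivity)
      _ ≤ m := by
        rw [div_mul_eq_mul_div, div_le_iff₀ (by positivity)]
        nlinarith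
  -- the three functions
  set g' : ℝ → ℝ := fun z => g z + t * φ z with hg'
  have hcg' : ContinuousOn g' (Icc (-(δ₀ + r)) (δ₀ + r)) :=
    hcg.add ((continuous_const.mul hφ).continuousOn)
  set G := gr (fun z => g (cl (δ₀ + r) z)) r with hG
  set G' := gr (fun z => g' (cl (δ₀ + r) z)) r with hG'
  set L : ℝ → ℝ := fun x => -gr (fun z => -l (cl (δ₀ + r) z)) r x with hL
  have hc0 : 0 ≤ δ₀ + r := by linarith
  have cG : Continuous G := continuous_gr hc0 hcg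
  have cG' : Continuous G' := continuous_gr hc0 hcg'
  have cL : Continuous L := (continuous_gr (f := fun z => -l z) hc0 hcnl).neg
  have eG : ∀ x, |x| ≤ δ₀ → G x = gr g r x := fun x hx => gr_cl hx
  have eG' : ∀ x, |x| ≤ δ₀ → G' x = gr g' r x := fun x hx => gr_cl hx
  have eL : ∀ x, |x| ≤ δ₀ → L x = -gr (fun z => -l z) r x := fun x hx => by
    simp only [hL]
    rw [gr_cl (f := fun z => -l z) hx]
  have hLneg : ∀ x, |x| ≤ δ₀ → L x ≤ 0 := by
    intro x hx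
    rw [eL x hx, neg_nonpos]
    exact le_gr hr (fun s hs => by linarith [(hmarg x hx s hs).2])
  have hGpos : ∀ x, |x| ≤ δ₀ → 0 ≤ G x := by
    intro x hx
    rw [eG x hx]
    exact le_gr hr (fun s hs => by linarith [(hmarg x hx s hs).1])
  have hG'pos : ∀ x, |x| ≤ δ₀ → 0 ≤ G' x := by
    intro x hx
    rw [eG' x hx]
    refine le_gr hr (fun s hs => ?_)
    have h1 := (hmarg x hx s hs).1
    have h2 := (abs_le.1 (htB (x + s))).1
    simp only [hg']
    linarith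
  -- sections
  have sec1 : ∀ f : ℝ → ℝ, ContinuousOn f (Icc (-(δ₀ + r)) (δ₀ + r)) → ∀ p : V, |p 0| ≤ δ₀ →
      ball p r ⊆ Reg α β l f → L (p 0) ≤ p 1 ∧ p 1 ≤ gr f r (p 0) := by
    intro f hf p hp hb
    have hmem : ∀ s ∈ Ioo (-r) r, ∀ τ, |τ| < √(r ^ 2 - s ^ 2) →
        l (p 0 + s) < p 1 + τ ∧ p 1 + τ < f (p 0 + s) := by
      intro s hs τ hτ
      have h0 : 0 ≤ r ^ 2 - s ^ 2 := by nlinarith [hs.1, hs.2]
      have h1 : s ^ 2 + τ ^ 2 < r ^ 2 := by
        have := pow_lt_pow_left₀ hτ (abs_nonneg _) (two_ne_zero)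
        rw [sq_abs, Real.sq_sqrt h0] at this
        linarith
      have h2 : pt (p 0 + s) (p 1 + τ) ∈ ball p r := by
        rw [mem_ball, EuclideanSpace.dist_eq, Real.sqrt_lt' hr]
        simpa [Fin.sum_univ_two, Real.dist_eq, sq_abs] using h1
      have h3 := hb h2
      simp only [Reg, mem_setOf_eq, pt_zero, pt_one] at h3
      exact h3.2.2
    constructor
    · rw [eL _ hp, neg_le]
      refine le_gr_of hr (hcnl.mono (hsub _ hp)) (fun s hs τ hτ => ?_)
      have := (hmem s hs (-τ) (by rwa [abs_neg])).1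
      simp only
      linarith
    · exact le_gr_of hr (hf.mono (hsub _ hp)) (fun s hs τ hτ => (hmem s hs τ hτ).2.le)
  have sec2 : ∀ p : V, |p 0| ≤ δ₀ → L (p 0) ≤ p 1 → p 1 ≤ G (p 0) → ball p r ⊆ U := by
    intro p hp hp1 hp2 z hz
    rw [eL _ hp] at hp1
    rw [eG _ hp] at hp2
    set s := z 0 - p 0 with hs
    have hzz : (z 0 - p 0) ^ 2 + (z 1 - p 1) ^ 2 < r ^ 2 := by
      have := hz
      rw [mem_ball, EuclideanSpace.dist_eq, Real.sqrt_lt' hr] at this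
      simpa [Fin.sum_univ_two, Real.dist_eq, sq_abs] using this
    have hs2 : s ^ 2 < r ^ 2 := by nlinarith [sq_nonneg (z 1 - p 1)]
    have hsr : |s| < r := abs_lt_of_sq_lt_sq hs2 hr.le
    have hsI : s ∈ Icc (-r) r := abs_le.1 hsr.le
    have h1 : |z 1 - p 1| < √(r ^ 2 - s ^ 2) := by
      apply Real.lt_sqrt_of_sq_lt
      rw [sq_abs]; linarith
    have h2 := gr_le (hcg.mono (hsub _ hp)) hsI
    have h3 := gr_le (hcnl.mono (hsub _ hp)) hsI
    have hz0 : p 0 + s = z 0 := by rw [hs]; ring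
    rw [hz0] at h2 h3
    rw [abs_lt] at h1
    have hz0m : z 0 ∈ Ioo α β := by
      apply hIoo
      rw [← hz0]
      exact (abs_add_le _ _).trans (add_le_add hp hsr.le)
    rw [F.eq]
    refine ⟨hz0m.1, hz0m.2, ?_, ?_⟩
    · linarith
    · linarith
  have hgU : ∀ p : V, |p 0| ≤ δ₀ → ball p r ⊆ U → p 1 ≤ G (p 0) ∧ L (p 0) ≤ p 1 := by
    intro p hp hb
    rw [F.eq] at hb
    have := sec1 g hcg p hp hb
    rw [eG _ hp]
    exact ⟨this.2, this.1⟩
  have hLG : ∀ x ∈ Icc (-δ₀) δ₀, L x ≤ G x := fun x hx =>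
    (hLneg x (abs_le.2 hx)).trans (hGpos x (abs_le.2 hx))
  have hLG' : ∀ x ∈ Icc (-δ₀) δ₀, L x ≤ G' x := fun x hx =>
    (hLneg x (abs_le.2 hx)).trans (hG'pos x (abs_le.2 hx))
  have hS : Inn U r ∩ {p | |p 0| ≤ δ₀} = e ⁻¹' (T δ₀ L G) := by
    ext p
    simp only [Inn, T, mem_inter_iff, mem_setOf_eq, mem_preimage, e_apply, mem_Icc, ← abs_le]
    constructor
    · rintro ⟨hb, hp⟩
      have := hgU p hp hb
      exact ⟨hp, this.2, this.1⟩
    · rintro ⟨hp, h1, h2⟩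
      exact ⟨sec2 p hp h1 h2, hp⟩
  have hS' : Inn (Reg α β l g') r ∩ {p | |p 0| ≤ δ₀} ⊆ e ⁻¹' (T δ₀ L G') := by
    rintro p ⟨hb, hp⟩
    have := sec1 g' hcg' p hp hb
    simp only [T, mem_setOf_eq, mem_preimage, e_apply, mem_Icc, ← abs_le]
    rw [eG' _ hp]
    exact ⟨hp, this.1, this.2⟩
  have vS : volume (Inn U r ∩ {p | |p 0| ≤ δ₀}) =
      ENNReal.ofReal (∫ x in (-δ₀)..δ₀, (G x - L x)) := by
    rw [hS, e_mp.measure_preimage_equiv, volume_T hδ cL cG hLG]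
  have vS' : volume (Inn (Reg α β l g') r ∩ {p | |p 0| ≤ δ₀}) ≤
      ENNReal.ofReal (∫ x in (-δ₀)..δ₀, (G' x - L x)) := by
    refine (measure_mono hS').trans ?_
    rw [e_mp.measure_preimage_equiv, volume_T hδ cL cG' hLG']
  have hint : ∀ f : ℝ → ℝ, Continuous f → IntervalIntegrable f volume (-δ₀) δ₀ :=
    fun f hf => hf.intervalIntegrable _ _
  have n1 : 0 ≤ ∫ x in (-δ₀)..δ₀, (G x - L x) :=
    intervalIntegral.integral_nonneg (by linarith) fun x hx => sub_nonneg.2 (hLG x hx)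
  have n2 : 0 ≤ ∫ x in (-δ₀)..δ₀, (G' x - L x) :=
    intervalIntegral.integral_nonneg (by linarith) fun x hx => sub_nonneg.2 (hLG' x hx)
  have a1 : ar (Inn U r ∩ {p | |p 0| ≤ δ₀}) = ∫ x in (-δ₀)..δ₀, (G x - L x) := by
    unfold ar; rw [vS, ENNReal.toReal_ofReal n1]
  have a2 : ar (Inn (Reg α β l g') r ∩ {p | |p 0| ≤ δ₀}) ≤ ∫ x in (-δ₀)..δ₀, (G' x - L x) := by
    unfold ar
    exact ENNReal.toReal_le_of_le_ofReal n2 vS'
  have a3 : FF g r δ₀ (fun x => t * φ x) = ∫ x in (-δ₀)..δ₀, (G' x - G x) := by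
    unfold FF
    refine intervalIntegral.integral_congr (fun x hx => ?_)
    rw [uIcc_of_le (by linarith)] at hx
    simp only
    rw [eG x (abs_le.2 hx), eG' x (abs_le.2 hx)]
  have a4 : ∫ x in (-δ₀)..δ₀, (G' x - L x) =
      (∫ x in (-δ₀)..δ₀, (G x - L x)) + ∫ x in (-δ₀)..δ₀, (G' x - G x) := by
    rw [← intervalIntegral.integral_add (f := fun x => G x - L x) (g := fun x => G' x - G x)
      (hint _ (cG.sub cL)) (hint _ (cG'.sub cG))]
    congr 1
    ext x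
    ring
  rw [a1, a3, ← a4]
  exact a2

end Pool.Agent.KS6_79.CK
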