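import Pool.Agent.KS6_79.CK.D

set_option autoImplicit false
open MeasureTheory Metric Set Filter Topology

namespace Pool.Agent.KS6_79.CK

open Pool.Agent.H417R2.CH
namespace CTB

theorem pt_zero (x y : ℝ) : (pt x y) 0 = x := by simp [pt]
theorem pt_one (x y : ℝ) : (pt x y) 1 = y := by simp [pt]

theorem mem_ball_pt {x y a b R : ℝ} (hR : 0 < R) :
    pt x y ∈ ball (pt a b) R ↔ (x - a) ^ 2 + (y - b) ^ 2 < R ^ 2 := by
  rw [mem_ball, EuclideanSpace.dist_eq, Fin.sum_univ_two, Real.sqrt_lt' hR]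
  simp only [pt_zero, pt_one, Real.dist_eq, sq_abs]

theorem zero_eq : (0 : V) = pt 0 0 := by
  ext i; fin_cases i <;> simp [pt]

/-- supergradient -/
theorem supergrad {α β : ℝ} {g : ℝ → ℝ} (hg : ConcaveOn ℝ (Ioo α β) g) {X : ℝ}
    (hX : X ∈ Ioo α β) : ∃ m : ℝ, ∀ z ∈ Ioo α β, g z ≤ g X + m * (z - X) := by
  have hX' : X ∈ interior (Ioo α β) := by rwa [interior_Ioo]
  have hc : ConvexOn ℝ (Ioo α β) (-g) := hg.neg
  refine ⟨-derivWithin (-g) (Ioi X) X, fun z hz => ?_⟩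
  rcases lt_trichotomy z X with h | h | h
  · have h1 := hc.slope_le_leftDeriv_of_mem_interior hz hX' h
    have h2 := hc.leftDeriv_le_rightDeriv_of_mem_interior hX'
    have h3 := h1.trans h2
    rw [slope_def_field, div_le_iff₀ (by linarith)] at h3
    simp only [Pi.neg_apply] at h3
    nlinarith
  · rw [h]; simp
  · have h1 := hc.rightDeriv_le_slope_of_mem_interior hX' hz h
    rw [slope_def_field, le_div_iff₀ (by linarith)] at h1
    simp only [Pi.neg_apply] at h1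
    nlinarith

/-- a point where the line of slope `m` is farthest below the half circle -/
theorem exists_w {r : ℝ} (hr : 0 < r) (m : ℝ) :
    ∃ w, |w| ≤ r ∧ √(r ^ 2 - w ^ 2) - m * w = r * √(1 + m ^ 2) := by
  have hq : 0 < 1 + m ^ 2 := by positivity
  have hq' : 0 < √(1 + m ^ 2) := Real.sqrt_pos.2 hq
  have hqq : √(1 + m ^ 2) ^ 2 = 1 + m ^ 2 := Real.sq_sqrt hq.le
  refine ⟨-(m * r / √(1 + m ^ 2)), ?_, ?_⟩
  · rw [abs_neg, abs_div, abs_mul, abs_of_pos hr, abs_of_pos hq', div_le_iff₀ hq', mul_comm]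
    refine mul_le_mul_of_nonneg_left ?_ hr.le
    refine Real.le_sqrt_of_sq_le ?_
    rw [sq_abs]; linarith
  · have h1 : r ^ 2 - (-(m * r / √(1 + m ^ 2))) ^ 2 = (r / √(1 + m ^ 2)) ^ 2 := by
      rw [neg_sq, div_pow, div_pow, hqq]; field_simp; ring
    rw [h1, Real.sqrt_sq (by positivity)]
    field_simp
    rw [hqq]; ring

/-- equality case -/
theorem eq_case {r m W : ℝ} (hr : 0 < r) (hW : |W| ≤ r)
    (h : r * √(1 + m ^ 2) ≤ √(r ^ 2 - W ^ 2) - m * W) :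
    W = -(m * r / √(1 + m ^ 2)) ∧ √(r ^ 2 - W ^ 2) = r / √(1 + m ^ 2) := by
  have hq : 0 < 1 + m ^ 2 := by positivity
  have hq' : 0 < √(1 + m ^ 2) := Real.sqrt_pos.2 hq
  have hqq : √(1 + m ^ 2) ^ 2 = 1 + m ^ 2 := Real.sq_sqrt hq.le
  have hW2 : W ^ 2 ≤ r ^ 2 := sq_le_sq' (abs_le.1 hW).1 (abs_le.1 hW).2
  set q := √(1 + m ^ 2) with hqd
  set s := √(r ^ 2 - W ^ 2) with hsd
  have hs0 : 0 ≤ s := Real.sqrt_nonneg _
  have hss : s ^ 2 = r ^ 2 - W ^ 2 := Real.sq_sqrt (by linarith)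
  have h1 : (r * q) ^ 2 ≤ (s - m * W) ^ 2 := by
    apply pow_le_pow_left₀ (by positivity) h
  have h2 : (s - m * W) ^ 2 + (W + m * s) ^ 2 = q ^ 2 * r ^ 2 := by
    rw [hqq]; nlinarith
  have h3 : (W + m * s) ^ 2 ≤ 0 := by nlinarith
  have h4 : W = -(m * s) := by
    have := pow_eq_zero_iff (two_ne_zero) |>.1 (le_antisymm h3 (sq_nonneg _))
    linarith
  have h5 : (s * q) ^ 2 = r ^ 2 := by
    have : W ^ 2 = m ^ 2 * s ^ 2 := by rw [h4]; ring
    rw [mul_pow, hqq]; nlinarith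
  have h6 : s * q = r := by
    have := (sq_eq_sq₀ (by positivity) hr.le).1 h5
    exact this
  have h7 : s = r / q := by rw [eq_div_iff hq'.ne', h6]
  refine ⟨?_, h7⟩
  rw [h4, h7]; ring

theorem slope_mono {m m' : ℝ} (h : m' ≤ m) :
    m' / √(1 + m' ^ 2) ≤ m / √(1 + m ^ 2) := by
  have hq : 0 < √(1 + m ^ 2) := Real.sqrt_pos.2 (by positivity)
  have hq' : 0 < √(1 + m' ^ 2) := Real.sqrt_pos.2 (by positivity)
  have hqq : √(1 + m ^ 2) ^ 2 = 1 + m ^ 2 := Real.sq_sqrt (by positivity)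
  have hqq' : √(1 + m' ^ 2) ^ 2 = 1 + m' ^ 2 := Real.sq_sqrt (by positivity)
  rw [div_le_div_iff₀ hq' hq]
  -- m' q ≤ m q'
  rcases le_total 0 m' with h0 | h0
  · -- both nonneg
    have h0m : 0 ≤ m := h0.trans h
    refine (pow_le_pow_iff_left₀ (by positivity) (by positivity) two_ne_zero).1 ?_
    rw [mul_pow, mul_pow, hqq, hqq']
    nlinarith
  · rcases le_total 0 m with h1 | h1
    · have a1 : m' * √(1 + m ^ 2) ≤ 0 := mul_nonpos_of_nonpos_of_nonneg h0 hq.le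
      have a2 : 0 ≤ m * √(1 + m' ^ 2) := mul_nonneg h1 hq'.le
      linarith
    · have : (-m) * √(1 + m' ^ 2) ≤ (-m') * √(1 + m ^ 2) := by
        have hm : 0 ≤ -m := by linarith
        have hm' : 0 ≤ -m' := by linarith
        refine (pow_le_pow_iff_left₀ (by positivity) (by positivity) two_ne_zero).1 ?_
        rw [mul_pow, mul_pow, hqq, hqq']
        nlinarith
      linarith

/-- what we use of the frame -/
structure Dat (α β : ℝ) (g : ℝ → ℝ) (r R k X₀ δ₀ M : ℝ) : Prop where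
  hr : 0 < r
  hg : ConcaveOn ℝ (Ioo α β) g
  hδ : 0 < δ₀
  hδR : δ₀ + r < R
  dom : ∀ x, |x| < R → x ∈ Ioo α β
  low : ∀ x, |x| < R → 0 ≤ g x
  upp : ∀ x ∈ Ioo α β, g x ≤ M
  base : ∀ s, |s| < r → k + √(r ^ 2 - s ^ 2) ≤ g s
  hX : |X₀| < r
  touch : g X₀ = k + √(r ^ 2 - X₀ ^ 2)

theorem dat {U : Set V} {r α β : ℝ} {l g : ℝ → ℝ} {R k X₀ : ℝ}
    (h : Frame U r α β l g R k X₀) {δ₀ : ℝ} (h0 : 0 < δ₀) (h1 : δ₀ < R - r) :
    ∃ M, Dat α β g r R k X₀ δ₀ M := by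
  obtain ⟨M, hM⟩ := h.reg.bd
  have hR : 0 < R := h.good.r_pos.trans h.hR
  have hr := h.good.r_pos
  have key : ∀ x y : ℝ, x ^ 2 + y ^ 2 < R ^ 2 → pt x y ∈ Reg α β l g := by
    intro x y hxy
    rw [← h.eq]
    apply h.hball
    rw [zero_eq, mem_ball_pt hR]
    simpa using hxy
  have hx2 : ∀ x : ℝ, |x| < R → x ^ 2 < R ^ 2 := fun x hx => sq_lt_sq' (abs_lt.1 hx).1 (abs_lt.1 hx).2
  refine ⟨M, hr, h.reg.cg, h0, by linarith, ?_, ?_, fun x hx => (hM x hx).2, ?_, h.hX, h.touch⟩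
  · intro x hx
    have := key x 0 (by simpa using hx2 x hx)
    simp only [Reg, mem_setOf_eq, pt_zero, pt_one] at this
    exact ⟨this.1, this.2.1⟩
  · intro x hx
    have := key x 0 (by simpa using hx2 x hx)
    simp only [Reg, mem_setOf_eq, pt_zero, pt_one] at this
    exact this.2.2.2.le
  · intro s hs
    have hs2 : s ^ 2 < r ^ 2 := sq_lt_sq' (abs_lt.1 hs).1 (abs_lt.1 hs).2
    have hsq : 0 < √(r ^ 2 - s ^ 2) := Real.sqrt_pos.2 (by linarith)
    have hsqq : √(r ^ 2 - s ^ 2) ^ 2 = r ^ 2 - s ^ 2 := Real.sq_sqrt (by linarith)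
    apply le_of_forall_lt
    intro c hc
    -- choose the point with ordinate max c k
    have h2 : pt s (max c k) ∈ Reg α β l g := by
      rw [← h.eq]
      apply h.base
      rw [mem_ball_pt hr]
      have h3 : 0 ≤ max c k - k := by linarith [le_max_right c k]
      have h4 : max c k - k < √(r ^ 2 - s ^ 2) := by
        rcases max_cases c k with h | h
        · rw [h.1]; linarith
        · rw [h.1]; linarith
      have h5 : (max c k - k) ^ 2 < √(r ^ 2 - s ^ 2) ^ 2 := by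
        apply pow_lt_pow_left₀ h4 h3 two_ne_zero
      rw [hsqq] at h5
      simp only [sub_zero]
      linarith
    simp only [Reg, mem_setOf_eq, pt_zero, pt_one] at h2
    exact (le_max_left c k).trans_lt h2.2.2.2

section
variable {α β : ℝ} {g : ℝ → ℝ} {r R k X₀ δ₀ M : ℝ}

theorem Dat.cont (D : Dat α β g r R k X₀ δ₀ M) : ContinuousOn g (Ioo α β) :=
  D.hg.continuousOn isOpen_Ioo

theorem Dat.near (D : Dat α β g r R k X₀ δ₀ M) {x s : ℝ} (hx : x ∈ Icc (-δ₀) δ₀) (hs : |s| ≤ r) :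
    |x + s| ≤ δ₀ + r :=
  (abs_add_le x s).trans (add_le_add (abs_le.2 ⟨hx.1, hx.2⟩) hs)

theorem Dat.isC (D : Dat α β g r R k X₀ δ₀ M) {x : ℝ} (hx : x ∈ Icc (-δ₀) δ₀) :
    ContinuousOn (fun s => g (x + s) - √(r ^ 2 - s ^ 2)) (Icc (-r) r) := by
  refine ContinuousOn.sub ?_ (by fun_prop)
  refine D.cont.comp (by fun_prop) ?_
  intro s hs
  exact D.dom _ ((D.near hx (abs_le.2 ⟨hs.1, hs.2⟩)).trans_lt D.hδR)

theorem Dat.le (D : Dat α β g r R k X₀ δ₀ M) {x z : ℝ} (hx : x ∈ Icc (-δ₀) δ₀)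
    (hz : |z - x| ≤ r) : gr g r x ≤ g z - √(r ^ 2 - (z - x) ^ 2) := by
  have hb : BddBelow ((fun s => g (x + s) - √(r ^ 2 - s ^ 2)) '' Icc (-r) r) :=
    (isCompact_Icc.image_of_continuousOn (D.isC hx)).bddBelow
  refine csInf_le hb ⟨z - x, abs_le.1 hz, ?_⟩
  simp

theorem Dat.exists_ct (D : Dat α β g r R k X₀ δ₀ M) {x : ℝ} (hx : x ∈ Icc (-δ₀) δ₀) :
    ∃ X, Ct g r x X := by
  obtain ⟨s, hs, hmin⟩ := isCompact_Icc.exists_isMinOn
    (nonempty_Icc.2 (by linarith [D.hr] : -r ≤ r)) (D.isC hx)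
  refine ⟨x + s, by simpa using abs_le.2 hs, ?_⟩
  have : IsLeast ((fun s => g (x + s) - √(r ^ 2 - s ^ 2)) '' Icc (-r) r)
      (g (x + s) - √(r ^ 2 - s ^ 2)) :=
    ⟨⟨s, hs, rfl⟩, by rintro _ ⟨t, ht, rfl⟩; exact hmin ht⟩
  rw [gr, this.csInf_eq]
  simp

/-- the key lemma: slope at a contact pair -/
theorem Dat.key (D : Dat α β g r R k X₀ δ₀ M) {x X : ℝ} (hx : x ∈ Icc (-δ₀) δ₀)
    (h : Ct g r x X) : ∃ m : ℝ, X - x = -(m * r / √(1 + m ^ 2)) ∧
      (∀ x' ∈ Icc (-δ₀) δ₀, gr g r x' ≤ gr g r x + m * (x' - x)) ∧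
      ∀ z ∈ Ioo α β, g z ≤ g X + m * (z - X) := by
  have hXR : |X| ≤ δ₀ + r := by
    have := D.near hx h.1
    simpa using this
  have hXI := D.dom X (hXR.trans_lt D.hδR)
  obtain ⟨m, hm⟩ := supergrad D.hg hXI
  have hq : 0 < √(1 + m ^ 2) := Real.sqrt_pos.2 (by positivity)
  have hqq : √(1 + m ^ 2) ^ 2 = 1 + m ^ 2 := Real.sq_sqrt (by positivity)
  obtain ⟨w, hw, hw2⟩ := exists_w D.hr m
  have h2 := h.2
  have hbound : ∀ x' ∈ Icc (-δ₀) δ₀, gr g r x' + r * √(1 + m ^ 2) ≤ g X + m * (x' - X) := by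
    intro x' hx'
    have h3 := D.le (z := x' + w) hx' (by simpa using hw)
    have h4 := hm (x' + w) (D.dom _ ((D.near hx' hw).trans_lt D.hδR))
    rw [add_sub_cancel_left] at h3
    rw [← hw2]
    linarith
  obtain ⟨e1, e2⟩ := eq_case (W := X - x) (m := m) D.hr h.1 (by
    have := hbound x hx
    linarith)
  refine ⟨m, e1, fun x' hx' => ?_, hm⟩
  have h5 := hbound x' hx'
  have h6 : g X = gr g r x + r / √(1 + m ^ 2) := by rw [← e2, ← h2]; ring
  have h7 : X = x - m * r / √(1 + m ^ 2) := by linarith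
  have h8 : r * √(1 + m ^ 2) = r / √(1 + m ^ 2) + m * (m * r / √(1 + m ^ 2)) := by
    field_simp
    rw [hqq]
  rw [h6, h7] at h5
  linarith

theorem Dat.mono (D : Dat α β g r R k X₀ δ₀ M) {x x' X X' : ℝ} (hx : x ∈ Icc (-δ₀) δ₀)
    (hx' : x' ∈ Icc (-δ₀) δ₀) (h : Ct g r x X) (h' : Ct g r x' X') (hxx : x < x') :
    x' - x ≤ X' - X := by
  obtain ⟨m, e, a, -⟩ := D.key hx h
  obtain ⟨m', e', a', -⟩ := D.key hx' h'
  have h1 := a x' hx'
  have h2 := a' x hx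
  have hmm : m' ≤ m := by
    by_contra hcon
    push Not at hcon
    nlinarith
  have h3 := mul_le_mul_of_nonneg_right (slope_mono hmm) D.hr.le
  have e1 : m' / √(1 + m' ^ 2) * r = m' * r / √(1 + m' ^ 2) := by ring
  have e2 : m / √(1 + m ^ 2) * r = m * r / √(1 + m ^ 2) := by ring
  rw [e1, e2] at h3
  linarith

theorem Dat.base' (D : Dat α β g r R k X₀ δ₀ M) {s : ℝ} (hs : |s| ≤ r) :
    k + √(r ^ 2 - s ^ 2) ≤ g s := by
  rcases hs.lt_or_eq with h | h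
  · exact D.base s h
  · have hs2 : s ^ 2 = r ^ 2 := by rw [← h, sq_abs]
    rw [hs2]
    simp only [sub_self, Real.sqrt_zero, add_zero]
    have hsd : s ∈ Ioo α β := D.dom s (hs.trans_lt (by linarith [D.hδ, D.hδR]))
    have hc : ContinuousAt g s := D.cont.continuousAt (isOpen_Ioo.mem_nhds hsd)
    have h1 : Tendsto (fun t : ℝ => g (t * s)) (𝓝[<] 1) (𝓝 (g s)) := by
      have : Tendsto (fun t : ℝ => t * s) (𝓝[<] 1) (𝓝 (1 * s)) :=
        ((continuous_id.mul continuous_const).tendsto 1).mono_left nhdsWithin_le_nhds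
      rw [one_mul] at this
      exact hc.tendsto.comp this
    refine ge_of_tendsto h1 ?_
    filter_upwards [Ioo_mem_nhdsLT (zero_lt_one' ℝ)] with t ht
    have h2 : |t * s| < r := by
      rw [abs_mul, abs_of_pos ht.1, h]
      nlinarith [ht.2, D.hr]
    have h3 := D.base _ h2
    linarith [Real.sqrt_nonneg (r ^ 2 - (t * s) ^ 2)]

theorem Dat.ct0 (D : Dat α β g r R k X₀ δ₀ M) : Ct g r 0 X₀ := by
  refine ⟨by simpa using D.hX.le, ?_⟩
  have h0 : (0 : ℝ) ∈ Icc (-δ₀) δ₀ := ⟨by linarith [D.hδ], D.hδ.le⟩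
  have : IsLeast ((fun s => g (0 + s) - √(r ^ 2 - s ^ 2)) '' Icc (-r) r) k := by
    refine ⟨⟨X₀, abs_le.1 D.hX.le, ?_⟩, ?_⟩
    · simp only [zero_add]; rw [D.touch]; ring
    · rintro _ ⟨t, ht, rfl⟩
      have := D.base' (abs_le.2 ht)
      simp only [zero_add]
      linarith
  rw [gr, this.csInf_eq, sub_zero, D.touch]
  ring

theorem Dat.sigma (D : Dat α β g r R k X₀ δ₀ M) :
    ∃ σ : ℝ, σ < r ∧ ∀ x ∈ Icc (-δ₀) δ₀, ∀ X, Ct g r x X → |X - x| ≤ σ := by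
  have hd : 0 < R - (δ₀ + r) := by linarith [D.hδR]
  have h0 : (0 : ℝ) ∈ Ioo α β := D.dom 0 (by simpa using by linarith [D.hδ, D.hr, D.hδR])
  have hM0 : 0 ≤ M := (D.low 0 (by simpa using by linarith [D.hδ, D.hr, D.hδR])).trans (D.upp 0 h0)
  set B : ℝ := 2 * M / (R - (δ₀ + r)) with hB
  have hB0 : 0 ≤ B := by positivity
  have hqB : 0 < √(1 + B ^ 2) := Real.sqrt_pos.2 (by positivity)
  have hqqB : √(1 + B ^ 2) ^ 2 = 1 + B ^ 2 := Real.sq_sqrt (by positivity)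
  refine ⟨r * (B / √(1 + B ^ 2)), ?_, ?_⟩
  · have : B / √(1 + B ^ 2) < 1 := by
      rw [div_lt_one hqB]
      apply Real.lt_sqrt_of_sq_lt
      linarith
    nlinarith [D.hr]
  · intro x hx X hX
    obtain ⟨m, e, -, hm⟩ := D.key hx hX
    have hXR : |X| ≤ δ₀ + r := by
      have := D.near hx hX.1
      simpa using this
    have hXI := D.dom X (hXR.trans_lt D.hδR)
    have hgX := D.upp X hXI
    have hX1 := abs_le.1 hXR
    set ρ : ℝ := (R + (δ₀ + r)) / 2 with hρ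
    have hρR : |ρ| < R := by
      rw [abs_of_pos (by rw [hρ]; linarith [D.hδ, D.hr, D.hδR])]
      rw [hρ]; linarith
    have hρR' : |-ρ| < R := by rwa [abs_neg]
    have hmB : |m| ≤ B := by
      rw [hB, le_div_iff₀ hd]
      rcases le_total 0 m with h | h
      · rw [abs_of_nonneg h]
        have a1 := hm (-ρ) (D.dom _ hρR')
        have a2 := D.low (-ρ) hρR'
        have a3 : m * (-ρ - X) ≤ m * (-((R - (δ₀ + r)) / 2)) := by
          apply mul_le_mul_of_nonneg_left _ h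
          rw [hρ]; linarith
        linarith
      · rw [abs_of_nonpos h]
        have a1 := hm ρ (D.dom _ hρR)
        have a2 := D.low ρ hρR
        have a3 : m * (ρ - X) ≤ m * ((R - (δ₀ + r)) / 2) := by
          apply mul_le_mul_of_nonpos_left _ h
          rw [hρ]; linarith
        linarith
    rw [e, abs_neg, abs_div, abs_mul, abs_of_pos D.hr, abs_of_pos (Real.sqrt_pos.2 (by positivity))]
    have := mul_le_mul_of_nonneg_left (slope_mono hmB) D.hr.le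
    rw [sq_abs] at this
    calc |m| * r / √(1 + m ^ 2) = r * (|m| / √(1 + m ^ 2)) := by ring
      _ ≤ _ := this

theorem Dat.cs (D : Dat α β g r R k X₀ δ₀ M) {a b : ℝ} (hab : a ≤ b) :
    MeasurableSet (CS g r δ₀ (Icc a b)) ∧ len (CS g r δ₀ (Icc a b)) ≤ b - a := by
  have hoc : (CS g r δ₀ (Icc a b)).OrdConnected := by
    refine ⟨?_⟩
    rintro x ⟨hx, X, hXI, hX⟩ y ⟨hy, Y, hYI, hY⟩ z hz
    have hzI : z ∈ Icc (-δ₀) δ₀ := ⟨hx.1.trans hz.1, hz.2.trans hy.2⟩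
    rcases hz.1.lt_or_eq with h1 | h1
    · rcases hz.2.lt_or_eq with h2 | h2
      · obtain ⟨Z, hZ⟩ := D.exists_ct hzI
        have b1 := D.mono hx hzI hX hZ h1
        have b2 := D.mono hzI hy hZ hY h2
        exact ⟨hzI, Z, ⟨by linarith [hXI.1], by linarith [hYI.2]⟩, hZ⟩
      · rw [h2]; exact ⟨hy, Y, hYI, hY⟩
    · rw [← h1]; exact ⟨hx, X, hXI, hX⟩
  refine ⟨hoc.measurableSet, ?_⟩
  have hdist : ∀ x ∈ CS g r δ₀ (Icc a b), ∀ y ∈ CS g r δ₀ (Icc a b), y - x ≤ b - a := by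
    rintro x ⟨hx, X, hXI, hX⟩ y ⟨hy, Y, hYI, hY⟩
    rcases lt_or_ge x y with h | h
    · have := D.mono hx hy hX hY h
      linarith [hXI.1, hYI.2]
    · linarith
  rcases (CS g r δ₀ (Icc a b)).eq_empty_or_nonempty with he | hne
  · rw [he, len]; simpa using hab
  · have hbb : BddBelow (CS g r δ₀ (Icc a b)) := ⟨-δ₀, fun x hx => hx.1.1⟩
    have hba : BddAbove (CS g r δ₀ (Icc a b)) := ⟨δ₀, fun x hx => hx.1.2⟩
    have hsub : CS g r δ₀ (Icc a b) ⊆ Icc (sInf (CS g r δ₀ (Icc a b))) (sSup (CS g r δ₀ (Icc a b))) :=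
      fun x hx => ⟨csInf_le hbb hx, le_csSup hba hx⟩
    have hlen : sSup (CS g r δ₀ (Icc a b)) - sInf (CS g r δ₀ (Icc a b)) ≤ b - a := by
      have h1 : sSup (CS g r δ₀ (Icc a b)) ≤ b - a + sInf (CS g r δ₀ (Icc a b)) := by
        apply csSup_le hne
        intro y hy
        have h2 : y - (b - a) ≤ sInf (CS g r δ₀ (Icc a b)) := by
          apply le_csInf hne
          intro x hx
          linarith [hdist x hx y hy]
        linarith
      linarith
    have hle : len (CS g r δ₀ (Icc a b)) ≤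
        sSup (CS g r δ₀ (Icc a b)) - sInf (CS g r δ₀ (Icc a b)) := by
      have h3 : volume (CS g r δ₀ (Icc a b)) ≤
          ENNReal.ofReal (sSup (CS g r δ₀ (Icc a b)) - sInf (CS g r δ₀ (Icc a b))) := by
        rw [← Real.volume_Icc]
        exact measure_mono hsub
      have h4 : 0 ≤ sSup (CS g r δ₀ (Icc a b)) - sInf (CS g r δ₀ (Icc a b)) := by
        obtain ⟨y, hy⟩ := hne
        linarith [(hsub hy).1, (hsub hy).2]
      exact ENNReal.toReal_le_of_le_ofReal h4 h3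
    exact hle.trans hlen

end

end CTB

theorem t_CTB : S_CTB := by
  intro U r α β l g R k X₀ hF δ₀ h0 h1
  obtain ⟨M, D⟩ := CTB.dat hF h0 h1
  have hz : (0 : ℝ) ∈ Icc (-δ₀) δ₀ := ⟨by linarith, h0.le⟩
  refine ⟨fun x hx => D.exists_ct hx, fun x hx x' hx' X X' h h' hxx => D.mono hx hx' h h' hxx,
    D.ct0, ?_, D.sigma, fun a b hab => D.cs hab⟩
  intro x hx X h hX
  rcases lt_trichotomy x 0 with hx0 | hx0 | hx0
  · have := D.mono hx hz h D.ct0 hx0
    linarith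
  · rw [hx0]; exact ⟨le_refl _, by linarith⟩
  · have := D.mono hz hx D.ct0 h hx0
    exact ⟨hx0.le, by linarith⟩

end Pool.Agent.KS6_79.CK
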