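import Pool.Graph.R_seed8.H417R2.CH.Defs2

/-!
Local version of the first order optimality used in the library proof that minimisers of
`λ₁ / h²` are polygons (MP_70c477_an).  The statements `S_<ID>` are those of
`Pool.Graph.R_seed8.H417R2.CH.Defs`, with the weaker, local notion of optimality.
-/

set_option autoImplicit false
open MeasureTheory Metric Set Filter Topology
open scoped ContDiff InnerProductSpace ENNReal NNReal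

namespace Pool.Agent.KS6_79.CK

open Pool.Agent.H417R2.CH
open Pool.Agent.Helper546 (Tst lap)

/-- geometric data -/
structure Good (U : Set V) (r : ℝ) : Prop where
  pc : PC U
  r_pos : 0 < r
  area : ar (Inn U r) ≤ Real.pi * r ^ 2
  fat : ∃ (c : V) (R : ℝ), r < R ∧ ball c R ⊆ U

/-- local first order optimality near the point `x₀` -/
def Loc (U : Set V) (r : ℝ) (x₀ : V) : Prop :=
  ∃ ε m M : ℝ, 0 < ε ∧ 0 < m ∧ 0 < M ∧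
    (∀ (U' : Set V) (ρ : ℝ), PC U' → symmDiff U U' ⊆ ball x₀ ε → 0 < ρ → r - ε < ρ → ρ ≤ r →
      ar (Inn U' ρ) ≤ Real.pi * ρ ^ 2 → lam U + m * (r - ρ) ≤ lam U') ∧
    (∀ (U' : Set V) (ρ : ℝ), PC U' → symmDiff U U' ⊆ ball x₀ ε → r ≤ ρ → ρ < r + ε →
      ar (Inn U' ρ) ≤ Real.pi * ρ ^ 2 → lam U ≤ lam U' + M * (ρ - r))

/-- invariance under isometries -/
def S_ISOM : Prop := (∀ (Φ : V ≃ᵢ V) (U : Set V) (r : ℝ), Good U r → Good (Φ '' U) r) ∧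
  ∀ (Φ : V ≃ᵢ V) (U : Set V) (r : ℝ) (x₀ : V), Loc U r x₀ → Loc (Φ '' U) r (Φ x₀)

/-- the normalised situation at an accumulation point of extreme points -/
structure Frame (U : Set V) (r α β : ℝ) (l g : ℝ → ℝ) (R k X₀ : ℝ) : Prop where
  good : Good U r
  loc : Loc U r (pt X₀ (g X₀))
  reg : RegD α β l g
  eq : U = Reg α β l g
  hR : r < R
  hball : ball (0 : V) R ⊆ U
  hk : 0 ≤ k
  base : ball (pt 0 k) r ⊆ U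
  hX : |X₀| < r
  touch : g X₀ = k + √(r ^ 2 - X₀ ^ 2)
  bends : ∀ ε : ℝ, 0 < ε → ∃ q ∈ Ioo X₀ (X₀ + ε), Bend g q

/-- accumulation points of extreme points are touched by an interior ball of radius `r` -/
def S_ACT : Prop := ∀ (U : Set V) (r : ℝ), Good U r → ∀ x₀ : V, Loc U r x₀ →
  (∀ ε : ℝ, 0 < ε → (extremePoints ℝ (closure U) ∩ ball x₀ ε).Infinite) →
  ∃ y₀ : V, ball y₀ r ⊆ U ∧ dist x₀ y₀ = r

def S_FRM : Prop := ∀ (U : Set V) (r : ℝ), Good U r → ∀ x₀ : V, Loc U r x₀ →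
  (∀ ε : ℝ, 0 < ε → (extremePoints ℝ (closure U) ∩ ball x₀ ε).Infinite) →
  ∃ (U' : Set V) (α β : ℝ) (l g : ℝ → ℝ) (R k X₀ : ℝ), Frame U' r α β l g R k X₀

def S_CTB : Prop := ∀ (U : Set V) (r α β : ℝ) (l g : ℝ → ℝ) (R k X₀ : ℝ),
  Frame U r α β l g R k X₀ → ∀ δ₀ : ℝ, 0 < δ₀ → δ₀ < R - r →
    (∀ x ∈ Icc (-δ₀) δ₀, ∃ X, Ct g r x X) ∧
    (∀ x ∈ Icc (-δ₀) δ₀, ∀ x' ∈ Icc (-δ₀) δ₀, ∀ X X', Ct g r x X → Ct g r x' X' → x < x' →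
      x' - x ≤ X' - X) ∧
    Ct g r 0 X₀ ∧
    (∀ x ∈ Icc (-δ₀) δ₀, ∀ X, Ct g r x X → X₀ < X → 0 ≤ x ∧ x ≤ X - X₀) ∧
    (∃ σ : ℝ, σ < r ∧ ∀ x ∈ Icc (-δ₀) δ₀, ∀ X, Ct g r x X → |X - x| ≤ σ) ∧
    (∀ a b : ℝ, a ≤ b → MeasurableSet (CS g r δ₀ (Icc a b)) ∧
      len (CS g r δ₀ (Icc a b)) ≤ b - a)

/-- regularity, concavity and upper bound for the inner parallel curve -/
def S_GRF : Prop := ∀ (U : Set V) (r α β : ℝ) (l g : ℝ → ℝ) (R k X₀ : ℝ),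
  Frame U r α β l g R k X₀ → ∀ δ₀ : ℝ, 0 < δ₀ → δ₀ < R - r →
    (∀ φ : ℝ → ℝ, Continuous φ →
      ContinuousOn (gr (fun z => g z + φ z) r) (Icc (-δ₀) δ₀)) ∧
    (∀ φ₁ φ₂ : ℝ → ℝ, Continuous φ₁ → Continuous φ₂ → ∀ θ ∈ Icc (0 : ℝ) 1,
      ∀ x ∈ Icc (-δ₀) δ₀,
      (1 - θ) * gr (fun z => g z + φ₁ z) r x + θ * gr (fun z => g z + φ₂ z) r x ≤
        gr (fun z => g z + ((1 - θ) * φ₁ z + θ * φ₂ z)) r x) ∧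
    (∀ φ : ℝ → ℝ, Continuous φ → ∀ x ∈ Icc (-δ₀) δ₀, ∀ X, Ct g r x X →
      gr (fun z => g z + φ z) r x ≤ gr g r x + φ X)

/-- second order gain at contact points where the perturbation is affine -/
def S_GNP : Prop := ∀ (U : Set V) (r α β : ℝ) (l g : ℝ → ℝ) (R k X₀ : ℝ),
  Frame U r α β l g R k X₀ → ∀ δ₀ : ℝ, 0 < δ₀ → δ₀ < R - r →
    ∃ κ : ℝ, 0 < κ ∧ ∀ φ : ℝ → ℝ, Continuous φ → ∀ a b s η : ℝ, a < b → 0 < η →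
      (∀ x ∈ Icc a b, ∀ y ∈ Icc a b, φ x - φ y = s * (x - y)) →
      ∃ t₀ : ℝ, 0 < t₀ ∧ ∀ t : ℝ, |t| ≤ t₀ → ∀ x ∈ CS g r δ₀ (Icc (a + η) (b - η)),
        gr (fun z => g z + t * φ z) r x + gr (fun z => g z + -t * φ z) r x - 2 * gr g r x ≤
          -(κ * t ^ 2 * s ^ 2)

/-- the area of the inner parallel set of a perturbed set -/
def S_ARE : Prop := ∀ (U : Set V) (r α β : ℝ) (l g : ℝ → ℝ) (R k X₀ : ℝ),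
  Frame U r α β l g R k X₀ → ∀ δ₀ : ℝ, 0 < δ₀ → δ₀ < R - r →
    ∀ (φ : ℝ → ℝ) (a d : ℝ), Adm α β g φ a d → X₀ < a → d < X₀ + δ₀ →
      ∃ t₀ : ℝ, 0 < t₀ ∧ ∀ t : ℝ, |t| ≤ t₀ →
        ar (Inn (Reg α β l (fun x => g x + t * φ x)) r) ≤
          ar (Inn U r) + FF g r δ₀ (fun x => t * φ x)

/-- first order decrease of the first eigenvalue -/
def S_ALM : Prop := ∀ (U : Set V) (r α β : ℝ) (l g : ℝ → ℝ) (R k X₀ : ℝ),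
  Frame U r α β l g R k X₀ → ∀ u : V → ℝ, Eig U u →
    ∃ c w₀ : ℝ, 0 < c ∧ 0 < w₀ ∧ ∀ (φ : ℝ → ℝ) (H a' d' b d : ℝ), 0 < H →
      Adm α β g φ a' d' → (∀ x, 0 ≤ φ x) → X₀ < b → b - X₀ ≤ (d - X₀) / 8 → d - X₀ ≤ w₀ →
      (∀ x ∈ Icc b ((b + d) / 2), H / 4 ≤ φ x) →
      ∃ t₀ : ℝ, 0 < t₀ ∧ ∀ t : ℝ, 0 < t → t ≤ t₀ →
        lam (Reg α β l (fun x => g x + t * φ x)) ≤ lam U - c * t * H * (d - X₀)

/-- lower bound for the measure of the set of centres touching a given arc -/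
def S_LOW : Prop := ∀ (U : Set V) (r α β : ℝ) (l g : ℝ → ℝ) (R k X₀ : ℝ),
  Frame U r α β l g R k X₀ → ∀ δ₀ : ℝ, 0 < δ₀ → δ₀ < R - r →
    ∃ c w₀ : ℝ, 0 < c ∧ 0 < w₀ ∧ ∀ b d : ℝ, X₀ < b → b - X₀ ≤ c * (d - X₀) → d - X₀ ≤ w₀ →
      Bend g b → Bend g d → c * (d - X₀) ≤ len (CS g r δ₀ (Icc b d))

/-- extension of a hat-like function from the upper boundary curve to the plane -/
def S_EXT : Prop := ∀ (U : Set V) (r α β : ℝ) (l g : ℝ → ℝ) (R k X₀ : ℝ),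
  Frame U r α β l g R k X₀ → ∃ C w₀ : ℝ, 0 < C ∧ 0 < w₀ ∧
    ∀ (φ : ℝ → ℝ) (H a b d : ℝ), HL φ H a b d → X₀ < a → d ≤ X₀ + w₀ →
      ∃ (Wf : V → ℝ) (K : ℝ≥0), LipschitzWith K Wf ∧
        (∀ x ∈ Ioo α β, Wf (pt x (g x)) = φ x) ∧ (∀ x ∈ Ioo α β, Wf (pt x (l x)) = 0) ∧
        (∀ p, ‖fderiv ℝ Wf p‖ ≤ C * H / ((b - a) + dist p (pt b (g b)))) ∧
        (∀ p, C * (d - b) < dist p (pt b (g b)) → Wf p = 0)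

/-- second order bound for the product of the eigenvalues -/
def S_BLM : Prop := ∀ (U : Set V) (r α β : ℝ) (l g : ℝ → ℝ) (R k X₀ : ℝ),
  Frame U r α β l g R k X₀ → ∃ C w₀ : ℝ, 0 < C ∧ 0 < w₀ ∧
    ∀ (φ₁ φ₂ : ℝ → ℝ) (H₁ a₁ b₁ d₁ H₂ a₂ b₂ d₂ : ℝ),
      HL φ₁ H₁ a₁ b₁ d₁ → HL φ₂ H₂ a₂ b₂ d₂ → Adm α β g φ₁ a₁ d₁ → Adm α β g φ₂ a₂ d₂ →
      X₀ < a₁ → X₀ < a₂ → d₁ ≤ X₀ + w₀ → d₂ ≤ X₀ + w₀ →
      ∀ v₁ v₂ : ℝ, |v₁| + |v₂| ≤ 1 → ∃ t₀ : ℝ, 0 < t₀ ∧ ∀ t : ℝ, |t| ≤ t₀ →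
        lam (Reg α β l (fun x => g x + t * (v₁ * φ₁ x + v₂ * φ₂ x))) *
          lam (Reg α β l (fun x => g x + -t * (v₁ * φ₁ x + v₂ * φ₂ x))) ≤
        lam U ^ 2 * (1 + C * t ^ 2 *
          (v₁ ^ 2 * H₁ ^ 2 * (1 + Real.log ((d₁ - b₁) / (b₁ - a₁))) +
            v₂ ^ 2 * H₂ ^ 2 * (1 + Real.log ((d₂ - b₂) / (b₂ - a₂)))))

/-- the contradiction -/
def S_MAIN : Prop := ∀ (U : Set V) (r α β : ℝ) (l g : ℝ → ℝ) (R k X₀ : ℝ),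
  ¬ Frame U r α β l g R k X₀

/-- no change of the inner parallel set away from the strip -/
def S_AR1 : Prop := ∀ (U : Set V) (r α β : ℝ) (l g : ℝ → ℝ) (R k X₀ : ℝ),
  Frame U r α β l g R k X₀ → ∀ δ₀ : ℝ, 0 < δ₀ → δ₀ < R - r →
    ∀ (φ : ℝ → ℝ) (a d : ℝ), Adm α β g φ a d → X₀ < a → d < X₀ + δ₀ →
      ∃ t₀ : ℝ, 0 < t₀ ∧ ∀ t : ℝ, |t| ≤ t₀ →
        ∀ p ∈ Inn (Reg α β l (fun x => g x + t * φ x)) r, δ₀ < |p 0| → p ∈ Inn U r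

/-- change of the inner parallel set in the strip -/
def S_AR2 : Prop := ∀ (U : Set V) (r α β : ℝ) (l g : ℝ → ℝ) (R k X₀ : ℝ),
  Frame U r α β l g R k X₀ → ∀ δ₀ : ℝ, 0 < δ₀ → δ₀ < R - r →
    ∀ (φ : ℝ → ℝ) (a d : ℝ), Adm α β g φ a d →
      ∃ t₀ : ℝ, 0 < t₀ ∧ ∀ t : ℝ, |t| ≤ t₀ →
        ar (Inn (Reg α β l (fun x => g x + t * φ x)) r ∩ {p | |p 0| ≤ δ₀}) ≤
          ar (Inn U r ∩ {p | |p 0| ≤ δ₀}) + FF g r δ₀ (fun x => t * φ x)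

end Pool.Agent.KS6_79.CK
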