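import Pool.Agent.KS6_79.CK.D

/-! FRM (helper25): the normalised situation at an accumulation point of extreme points. -/

set_option autoImplicit false
open MeasureTheory Metric Set Filter Topology
open scoped ContDiff InnerProductSpace ENNReal NNReal

namespace Pool.Agent.KS6_79.CK

open Pool.Agent.H417R2.CH

namespace FRM

theorem pt0 (x y : ℝ) : (pt x y) 0 = x := by simp [pt]

theorem pt1 (x y : ℝ) : (pt x y) 1 = y := by simp [pt]

theorem eta (p : V) : pt (p 0) (p 1) = p := by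
  ext i; fin_cases i <;> simp [pt]

theorem distsq (p q : V) : dist p q ^ 2 = (p 0 - q 0) ^ 2 + (p 1 - q 1) ^ 2 := by
  rw [EuclideanSpace.dist_eq, Real.sq_sqrt (by positivity), Fin.sum_univ_two, Real.dist_eq,
    Real.dist_eq, sq_abs, sq_abs]

theorem mem_ball_iff (p q : V) (r : ℝ) (hr : 0 < r) :
    p ∈ ball q r ↔ (p 0 - q 0) ^ 2 + (p 1 - q 1) ^ 2 < r ^ 2 := by
  rw [mem_ball, ← distsq]
  constructor
  · intro h
    nlinarith [dist_nonneg (x := p) (y := q)]
  · intro h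
    exact lt_of_pow_lt_pow_left₀ 2 hr.le h

theorem mem_cball_iff (p q : V) (r : ℝ) (hr : 0 < r) :
    p ∈ closedBall q r ↔ (p 0 - q 0) ^ 2 + (p 1 - q 1) ^ 2 ≤ r ^ 2 := by
  rw [mem_closedBall, ← distsq]
  constructor
  · intro h
    nlinarith [dist_nonneg (x := p) (y := q)]
  · intro h
    exact le_of_sq_le_sq h hr.le

theorem acc {U : Set V} (hb : Bornology.IsBounded U)
    (hinf : (extremePoints ℝ (closure U)).Infinite) :
    ∃ x₀ : V, ∀ ε : ℝ, 0 < ε → (extremePoints ℝ (closure U) ∩ ball x₀ ε).Infinite := by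
  have hc : IsCompact (closure U) := hb.isCompact_closure
  obtain ⟨x₀, -, hx⟩ := hinf.exists_accPt_of_subset_isCompact hc extremePoints_subset
  refine ⟨x₀, fun ε hε hfin => ?_⟩
  rw [accPt_iff_nhds] at hx
  have hfin' : ((extremePoints ℝ (closure U) ∩ ball x₀ ε) \ {x₀}).Finite :=
    hfin.subset fun z hz => hz.1
  have hN : ball x₀ ε ∩ ((extremePoints ℝ (closure U) ∩ ball x₀ ε) \ {x₀})ᶜ ∈ 𝓝 x₀ :=
    inter_mem (ball_mem_nhds x₀ hε) (hfin'.isClosed.isOpen_compl.mem_nhds (by simp))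
  obtain ⟨y, ⟨hy1, hy2⟩, hy3⟩ := hx _ hN
  exact hy1.2 ⟨⟨hy2, hy1.1⟩, hy3⟩

theorem ext_img (Φ : V ≃ᵢ V) (A : Set V) (x : V) (hx : x ∈ extremePoints ℝ A) :
    Φ x ∈ extremePoints ℝ (Φ '' A) := by
  have hf : ∀ z, Φ.toRealAffineIsometryEquiv z = Φ z := fun z => by
    rw [IsometryEquiv.coeFn_toRealAffineIsometryEquiv]
  rw [mem_extremePoints] at hx ⊢
  refine ⟨mem_image_of_mem _ hx.1, ?_⟩
  rintro _ ⟨a, ha, rfl⟩ _ ⟨b, hb, rfl⟩ hab
  have h1 : Φ x ∈ (Φ.toRealAffineIsometryEquiv.toAffineEquiv : V →ᵃ[ℝ] V) '' openSegment ℝ a b := by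
    rw [image_openSegment]
    have ha' : (Φ.toRealAffineIsometryEquiv.toAffineEquiv : V →ᵃ[ℝ] V) a = Φ a := hf a
    have hb' : (Φ.toRealAffineIsometryEquiv.toAffineEquiv : V →ᵃ[ℝ] V) b = Φ b := hf b
    rw [ha', hb']
    exact hab
  obtain ⟨z, hz, hzx⟩ := h1
  have hz' : (Φ.toRealAffineIsometryEquiv.toAffineEquiv : V →ᵃ[ℝ] V) z = Φ z := hf z
  rw [hz'] at hzx
  have h2 := Φ.injective hzx
  rw [h2] at hz
  obtain ⟨h3, h4⟩ := hx.2 a ha b hb hz
  exact ⟨by rw [h3], by rw [h4]⟩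

theorem not_ext {A : Set V} (hA : IsOpen A) {x : V} (hx : x ∈ A) :
    x ∉ extremePoints ℝ (closure A) := by
  intro he
  obtain ⟨ε, hε, hb⟩ := Metric.isOpen_iff.1 hA x hx
  rw [mem_extremePoints] at he
  have h1 : x + pt (ε / 2) 0 ∈ A := by
    apply hb
    rw [mem_ball_iff _ _ _ hε]
    simp only [PiLp.add_apply, pt0, pt1]
    nlinarith
  have h2 : x - pt (ε / 2) 0 ∈ A := by
    apply hb
    rw [mem_ball_iff _ _ _ hε]
    simp only [PiLp.sub_apply, pt0, pt1]
    nlinarith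
  have h3 : x ∈ openSegment ℝ (x + pt (ε / 2) 0) (x - pt (ε / 2) 0) := by
    refine ⟨1 / 2, 1 / 2, by norm_num, by norm_num, by norm_num, ?_⟩
    rw [smul_add, smul_sub, add_add_sub_cancel, ← add_smul]
    norm_num
  have h4 := (he.2 _ (subset_closure h1) _ (subset_closure h2) h3).1
  have h5 := congrArg (fun p : V => p 0) h4
  simp only [PiLp.add_apply, pt0] at h5
  linarith

/-- the two balls determine the normal -/
theorem normal {R r k X Y a b : ℝ} (hr : 0 < r) (hrR : r < R) (hk : 0 ≤ k)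
    (hd : X ^ 2 + (Y - k) ^ 2 = r ^ 2) (hab : a ≠ 0 ∨ b ≠ 0)
    (h1 : ∀ x y : ℝ, x ^ 2 + (y - k) ^ 2 ≤ r ^ 2 → a * x + b * y ≤ a * X + b * Y)
    (h2 : ∀ x y : ℝ, x ^ 2 + y ^ 2 ≤ R ^ 2 → a * x + b * y ≤ a * X + b * Y) : k < Y := by
  have hm2 : 0 < a ^ 2 + b ^ 2 := by
    rcases hab with h | h
    · have := sq_pos_of_ne_zero h; positivity
    · have := sq_pos_of_ne_zero h; positivity
  set m := √(a ^ 2 + b ^ 2) with hm
  have hm0 : 0 < m := Real.sqrt_pos.2 hm2
  have hmm : m ^ 2 = a ^ 2 + b ^ 2 := Real.sq_sqrt hm2.le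
  have e1 : r * m ≤ a * X + b * (Y - k) := by
    have h := h1 (r * a / m) (k + r * b / m) (by
      have : (r * a / m) ^ 2 + (k + r * b / m - k) ^ 2 = r ^ 2 * (a ^ 2 + b ^ 2) / m ^ 2 := by
        field_simp
        ring
      rw [this, ← hmm, mul_div_assoc, div_self (by positivity), mul_one])
    have h' : a * (r * a / m) + b * (k + r * b / m) = r * (a ^ 2 + b ^ 2) / m + b * k := by
      field_simp
      ring
    rw [h', ← hmm, pow_two, ← mul_assoc, mul_div_assoc, div_self hm0.ne', mul_one] at h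
    linarith
  have e2 : R * m ≤ a * X + b * Y := by
    have h := h2 (R * a / m) (R * b / m) (by
      have : (R * a / m) ^ 2 + (R * b / m) ^ 2 = R ^ 2 * (a ^ 2 + b ^ 2) / m ^ 2 := by
        field_simp
      rw [this, ← hmm, mul_div_assoc, div_self (by positivity), mul_one])
    have h' : a * (R * a / m) + b * (R * b / m) = R * (a ^ 2 + b ^ 2) / m := by
      field_simp
    rw [h', ← hmm, pow_two, ← mul_assoc, mul_div_assoc, div_self hm0.ne', mul_one] at h
    linarith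
  have e3 : (a * X + b * (Y - k)) ^ 2 + (a * (Y - k) - b * X) ^ 2 = (r * m) ^ 2 := by
    rw [mul_pow, hmm, ← hd]; ring
  have e4 : (r * m) ^ 2 ≤ (a * X + b * (Y - k)) ^ 2 := by
    have : 0 ≤ r * m := by positivity
    nlinarith
  have e5 : a * (Y - k) - b * X = 0 := by
    have : (a * (Y - k) - b * X) ^ 2 ≤ 0 := by linarith
    nlinarith [sq_nonneg (a * (Y - k) - b * X)]
  have e6 : a * X + b * (Y - k) = r * m := by
    have : (a * X + b * (Y - k)) ^ 2 ≤ (r * m) ^ 2 := by nlinarith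
    have h0 : 0 ≤ r * m := by positivity
    exact le_antisymm (abs_le_of_sq_le_sq' this h0).2 e1
  have e7 : (R - r) * m ≤ b * k := by nlinarith
  have e8 : 0 < (R - r) * m := mul_pos (by linarith) hm0
  have e9 : 0 < b := by
    by_contra hcon
    push Not at hcon
    nlinarith
  have e10 : m ^ 2 * (Y - k) = b * (r * m) := by
    rw [hmm, ← e6]
    linear_combination a * e5
  have e11 : 0 < m ^ 2 * (Y - k) := by rw [e10]; positivity
  have e12 : 0 < Y - k := (mul_pos_iff_of_pos_left (by positivity : (0:ℝ) < m ^ 2)).1 e11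
  linarith

/-- reflection -/
noncomputable def refl : V ≃ᵢ V :=
  IsometryEquiv.mk' (fun p => pt (-p 0) (p 1)) (fun p => pt (-p 0) (p 1))
    (fun p => by simp only [pt0, pt1, neg_neg]; exact eta p)
    (Isometry.of_dist_eq fun p q => by
      rw [EuclideanSpace.dist_eq, EuclideanSpace.dist_eq, Fin.sum_univ_two, Fin.sum_univ_two]
      simp only [pt0, pt1, Real.dist_eq, sq_abs]
      congr 1
      ring)

theorem refl_apply (p : V) : refl p = pt (-p 0) (p 1) := rfl

theorem refl_refl (p : V) : refl (refl p) = p := by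
  rw [refl_apply, refl_apply, pt0, pt1, neg_neg, eta]

theorem refl_Reg (α β : ℝ) (l g : ℝ → ℝ) :
    refl '' (Reg α β l g) = Reg (-β) (-α) (fun x => l (-x)) (fun x => g (-x)) := by
  ext p
  constructor
  · rintro ⟨q, ⟨h1, h2, h3, h4⟩, rfl⟩
    rw [refl_apply]
    refine ⟨?_, ?_, ?_, ?_⟩
    · rw [pt0]; linarith
    · rw [pt0]; linarith
    · simp only [pt0, pt1, neg_neg]; exact h3
    · simp only [pt0, pt1, neg_neg]; exact h4
  · rintro ⟨h1, h2, h3, h4⟩
    refine ⟨refl p, ⟨?_, ?_, ?_, ?_⟩, refl_refl p⟩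
    · rw [refl_apply, pt0]; linarith
    · rw [refl_apply, pt0]; linarith
    · rw [refl_apply, pt0, pt1]; exact h3
    · rw [refl_apply, pt0, pt1]; exact h4

theorem flip {U : Set V} {r α β : ℝ} {l g : ℝ → ℝ} {R k X₀ : ℝ} (h2 : S_ISOM) (hgood : Good U r)
    (hloc : Loc U r (pt X₀ (g X₀)))
    (hreg : RegD α β l g) (heq : U = Reg α β l g) (hR : r < R) (hball : ball (0 : V) R ⊆ U)
    (hk : 0 ≤ k) (hbase : ball (pt 0 k) r ⊆ U) (hX : |X₀| < r)
    (htouch : g X₀ = k + √(r ^ 2 - X₀ ^ 2))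
    (hb : ∀ ε : ℝ, 0 < ε → ∃ q ∈ Ioo (X₀ - ε) X₀, Bend g q) :
    ∃ (U' : Set V) (α β : ℝ) (l g : ℝ → ℝ) (R k X₀ : ℝ), Frame U' r α β l g R k X₀ := by
  refine ⟨refl '' U, -β, -α, fun x => l (-x), fun x => g (-x), R, k, -X₀, ?_⟩
  have e0 : refl (0 : V) = 0 := by
    rw [refl_apply]
    ext i
    fin_cases i <;> simp [pt]
  have ek : refl (pt 0 k) = pt 0 k := by
    rw [refl_apply, pt0, pt1, neg_zero]
  have hloc' := h2.2 refl U r _ hloc
  rw [refl_apply, pt0, pt1] at hloc'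
  refine ⟨h2.1 refl U r hgood, by rw [neg_neg]; exact hloc', ⟨neg_lt_neg hreg.lt, ?_, ?_, ?_, ?_⟩, ?_, hR, ?_, hk, ?_, ?_, ?_, ?_⟩
  · refine ⟨convex_Ioo _ _, fun x hx y hy a b ha hb' hab => ?_⟩
    have h := hreg.cl.2 (x := -x) ⟨by linarith [hx.2], by linarith [hx.1]⟩ (y := -y)
      ⟨by linarith [hy.2], by linarith [hy.1]⟩ ha hb' hab
    have e : a • (-x) + b • (-y) = -(a • x + b • y) := by simp only [smul_eq_mul]; ring
    rw [e] at h
    exact h
  · refine ⟨convex_Ioo _ _, fun x hx y hy a b ha hb' hab => ?_⟩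
    have h := hreg.cg.2 (x := -x) ⟨by linarith [hx.2], by linarith [hx.1]⟩ (y := -y)
      ⟨by linarith [hy.2], by linarith [hy.1]⟩ ha hb' hab
    have e : a • (-x) + b • (-y) = -(a • x + b • y) := by simp only [smul_eq_mul]; ring
    rw [e] at h
    exact h
  · intro x hx
    exact hreg.lg (-x) ⟨by linarith [hx.2], by linarith [hx.1]⟩
  · obtain ⟨M, hM⟩ := hreg.bd
    exact ⟨M, fun x hx => hM (-x) ⟨by linarith [hx.2], by linarith [hx.1]⟩⟩
  · rw [heq, refl_Reg]
  · rw [← e0, ← refl.image_ball]; exact image_mono hball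
  · rw [← ek, ← refl.image_ball]; exact image_mono hbase
  · rw [abs_neg]; exact hX
  · simp only [neg_neg, neg_sq]; exact htouch
  · intro ε hε
    obtain ⟨q, hq, hbq⟩ := hb ε hε
    refine ⟨-q, ⟨by linarith [hq.2], by linarith [hq.1]⟩, ?_⟩
    rintro δ hδ ⟨m, c, hmc⟩
    apply hbq δ hδ
    refine ⟨-m, c, fun x hx => ?_⟩
    have h := hmc (-x) ⟨by linarith [hx.2], by linarith [hx.1]⟩
    simp only [neg_neg] at h
    rw [h]; ring

end FRM

theorem t_FRM (h1 : S_ACT) (h2 : S_ISOM) (h3 : S_REG) (h4 : S_NRM) (h5 : S_EXB) : S_FRM := by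
  intro U r hG x₀ hL hx₀
  obtain ⟨y₀, hy₀, hxy⟩ := h1 U r hG x₀ hL hx₀
  obtain ⟨c, R, hrR, hcR⟩ := hG.fat
  have hr := hG.r_pos
  have hR0 : 0 < R := by linarith
  have hcU : c ∈ U := hcR (mem_ball_self hR0)
  obtain ⟨Φ, α, β, l, g, k, hΦc, hk, hΦy, hreg, hUeq⟩ := h4 U hG.pc c hcU y₀
  have hG' := h2.1 Φ U r hG
  have hL' := h2.2 Φ U r x₀ hL
  rw [hUeq] at hG' hL'
  have hball : ball (0 : V) R ⊆ Reg α β l g := by
    rw [← hUeq, ← hΦc, ← Φ.image_ball]; exact image_mono hcR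
  have hbase : ball (pt 0 k) r ⊆ Reg α β l g := by
    rw [← hUeq, ← hΦy, ← Φ.image_ball]; exact image_mono hy₀
  have hd : dist (Φ x₀) (pt 0 k) = r := by rw [← hΦy, Φ.dist_eq, hxy]
  have hinf' : ∀ ε : ℝ, 0 < ε →
      (extremePoints ℝ (closure (Reg α β l g)) ∩ ball (Φ x₀) ε).Infinite := by
    intro ε hε
    have h := (hx₀ ε hε).image Φ.injective.injOn
    refine h.mono ?_
    rintro _ ⟨z, ⟨hz1, hz2⟩, rfl⟩
    refine ⟨?_, ?_⟩
    · have h6 := FRM.ext_img Φ _ z hz1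
      have h7 : Φ '' closure U = closure (Φ '' U) := Φ.toHomeomorph.image_closure U
      rwa [h7, hUeq] at h6
    · rw [mem_ball, Φ.dist_eq]; exact hz2
  obtain ⟨X, Y, hXY⟩ : ∃ X Y, Φ x₀ = pt X Y := ⟨_, _, (FRM.eta _).symm⟩
  rw [hXY] at hd hinf' hL'
  have hPC := h3.1 α β l g hreg
  have hopen := hPC.isOpen
  have hx1not : pt X Y ∉ Reg α β l g := by
    intro hmem
    obtain ⟨ε, hε, hb⟩ := Metric.isOpen_iff.1 hopen _ hmem
    obtain ⟨z, hz1, hz2⟩ := (hinf' ε hε).nonempty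
    exact FRM.not_ext hopen (hb hz2) hz1
  have hd2 : X ^ 2 + (Y - k) ^ 2 = r ^ 2 := by
    have := FRM.distsq (pt X Y) (pt 0 k)
    rw [hd] at this
    simp only [FRM.pt0, FRM.pt1, sub_zero] at this
    exact this.symm
  -- a supporting line
  obtain ⟨f, hf⟩ := geometric_hahn_banach_open_point hPC.convex hopen hx1not
  have hfc : ∀ x y : ℝ, f (pt x y) = f (pt 1 0) * x + f (pt 0 1) * y := by
    intro x y
    have : pt x y = x • pt 1 0 + y • pt 0 1 := by
      ext i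
      fin_cases i <;> simp [pt]
    rw [this, map_add, map_smul, map_smul, smul_eq_mul, smul_eq_mul]
    ring
  have hcl1 : ∀ z ∈ closedBall (pt 0 k) r, f z ≤ f (pt X Y) := by
    intro z hz
    rw [← closure_ball _ hr.ne'] at hz
    exact closure_minimal (fun z hz => (hf z (hbase hz)).le)
      (isClosed_le f.continuous continuous_const) hz
  have hcl2 : ∀ z ∈ closedBall (0 : V) R, f z ≤ f (pt X Y) := by
    intro z hz
    rw [← closure_ball _ hR0.ne'] at hz
    exact closure_minimal (fun z hz => (hf z (hball hz)).le)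
      (isClosed_le f.continuous continuous_const) hz
  have hkY : k < Y := by
    refine FRM.normal (a := f (pt 1 0)) (b := f (pt 0 1)) hr hrR hk hd2 ?_ ?_ ?_
    · by_contra hcon
      push Not at hcon
      have h6 := hf 0 (hball (mem_ball_self hR0))
      rw [map_zero, hfc X Y, hcon.1, hcon.2] at h6
      simp at h6
    · intro x y hxy
      rw [← hfc, ← hfc]
      apply hcl1
      rw [FRM.mem_cball_iff _ _ _ hr]
      simp only [FRM.pt0, FRM.pt1, sub_zero]
      exact hxy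
    · intro x y hxy
      rw [← hfc, ← hfc]
      apply hcl2
      rw [FRM.mem_cball_iff _ _ _ hR0]
      simp only [FRM.pt0, FRM.pt1, PiLp.zero_apply, sub_zero]
      exact hxy
  have hXr : X ^ 2 < r ^ 2 := by nlinarith
  have hXabs : |X| < r := abs_lt_of_sq_lt_sq hXr hr.le
  have hsq : √(r ^ 2 - X ^ 2) = Y - k := by
    rw [show r ^ 2 - X ^ 2 = (Y - k) ^ 2 by linarith]
    exact Real.sqrt_sq (by linarith)
  have hXm : X ∈ Ioo α β := by
    have : pt X 0 ∈ ball (0 : V) R := by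
      rw [FRM.mem_ball_iff _ _ _ hR0]
      simp only [FRM.pt0, FRM.pt1, PiLp.zero_apply, sub_zero]
      nlinarith
    have h6 := hball this
    obtain ⟨h7, h8, -, -⟩ := h6
    rw [FRM.pt0] at h7 h8
    exact ⟨h7, h8⟩
  have hin : ∀ y, k < y → y < Y → l X < y ∧ y < g X := by
    intro y hy1 hy2
    have : pt X y ∈ ball (pt 0 k) r := by
      rw [FRM.mem_ball_iff _ _ _ hr]
      simp only [FRM.pt0, FRM.pt1, sub_zero]
      nlinarith
    obtain ⟨-, -, h7, h8⟩ := hbase this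
    simp only [FRM.pt0, FRM.pt1] at h7 h8
    exact ⟨h7, h8⟩
  have hgX : g X = Y := by
    apply le_antisymm
    · by_contra hcon
      push Not at hcon
      apply hx1not
      refine ⟨?_, ?_, ?_, ?_⟩
      · rw [FRM.pt0]; exact hXm.1
      · rw [FRM.pt0]; exact hXm.2
      · simp only [FRM.pt0, FRM.pt1]
        have := (hin ((k + Y) / 2) (by linarith) (by linarith)).1
        linarith
      · simp only [FRM.pt0, FRM.pt1]; exact hcon
    · by_contra hcon
      push Not at hcon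
      have h6 := (hin (max ((k + Y) / 2) ((g X + Y) / 2))
        (lt_of_lt_of_le (by linarith) (le_max_left _ _))
        (max_lt (by linarith) (by linarith))).2
      have h7 := le_max_right ((k + Y) / 2) ((g X + Y) / 2)
      linarith
  have htouch : g X = k + √(r ^ 2 - X ^ 2) := by rw [hsq, hgX]; ring
  have hbend := h5 α β l g hreg X hXm (by rw [hgX]; exact hinf')
  rw [← hgX] at hL'
  by_cases hright : ∀ ε : ℝ, 0 < ε → ∃ q ∈ Ioo X (X + ε), Bend g q
  · exact ⟨Reg α β l g, α, β, l, g, R, k, X, hG', hL', hreg, rfl, hrR, hball, hk, hbase, hXabs, htouch,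
      hright⟩
  · push Not at hright
    obtain ⟨ε₀, hε₀, hno⟩ := hright
    refine FRM.flip h2 hG' hL' hreg rfl hrR hball hk hbase hXabs htouch ?_
    intro ε hε
    have h6 := hbend (min ε ε₀) (lt_min hε hε₀)
    have h7 : ({q | q ∈ Ioo (X - min ε ε₀) (X + min ε ε₀) ∧ Bend g q} \ {X}).Nonempty :=
      (h6.sdiff (finite_singleton X)).nonempty
    obtain ⟨q, ⟨⟨hq1, hq2⟩, hq3⟩, hq4⟩ := h7
    refine ⟨q, ⟨by linarith [min_le_left ε ε₀], ?_⟩, hq3⟩
    by_contra hcon
    push Not at hcon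
    rcases hcon.eq_or_lt with h8 | h8
    · exact hq4 h8.symm
    · exact hno q ⟨h8, by linarith [min_le_right ε ε₀]⟩ hq3

end Pool.Agent.KS6_79.CK
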