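import Pool.Agent.KS6_79.CK.GOOD
import Pool.Agent.KS6_79.CK.FRM
import Pool.Agent.KS6_79.CK.ACT
import Pool.Graph.R_seed8.H417R2.CH.GOOD

set_option autoImplicit false
open MeasureTheory Metric Set Filter Topology

namespace Pool.Agent.KS6_79.CK

open Pool.Agent.H417R2.CH

/-- local minimality near `x₀`: no planar convex set which agrees with `U` outside the ball of
radius `ε` around `x₀` has a smaller cost -/
def LocMin (J : ℝ × ℝ → ℝ) (U : Set V) (x₀ : V) (ε : ℝ) : Prop :=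
  ∀ U' : Set V, PC U' → symmDiff U U' ⊆ ball x₀ ε → J (lam U, hC U) ≤ J (lam U', hC U')

/-- the boundary of `U` is polygonal near `x₀`: the closure has no extreme point other than
possibly `x₀` in a neighbourhood of `x₀` -/
def PolyAt (U : Set V) (x₀ : V) : Prop :=
  ∃ δ : ℝ, 0 < δ ∧ extremePoints ℝ (closure U) ∩ ball x₀ δ ⊆ {x₀}

theorem polyAt_of (hCI : S_CI) (hCII : S_CII) (hE : S_EIG) (hF : S_FRM) (hM : S_MAIN)
    {J : ℝ × ℝ → ℝ} (hJ : Cost J) {U : Set V} (hU : PC U) {x₀ : V} {ε : ℝ} (hε : 0 < ε)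
    (hmin : LocMin J U x₀ ε) : PolyAt U x₀ := by
  obtain ⟨r, hg, hl⟩ := good_loc hCI hCII hE hJ hU
  have hloc := hl x₀ ε hε hmin
  by_cases h : ∀ ε : ℝ, 0 < ε → (extremePoints ℝ (closure U) ∩ ball x₀ ε).Infinite
  · obtain ⟨U', α, β, l, g, R, k, X₀, hFr⟩ := hF U r hg x₀ hloc h
    exact (hM U' r α β l g R k X₀ hFr).elim
  · push Not at h
    obtain ⟨ε₁, hε₁, hfin⟩ := h
    have hfin' : ((extremePoints ℝ (closure U) ∩ ball x₀ ε₁) \ {x₀}).Finite :=
      hfin.subset fun z hz => hz.1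
    have hN : ball x₀ ε₁ ∩ ((extremePoints ℝ (closure U) ∩ ball x₀ ε₁) \ {x₀})ᶜ ∈ 𝓝 x₀ :=
      inter_mem (ball_mem_nhds x₀ hε₁) (hfin'.isClosed.isOpen_compl.mem_nhds (by simp))
    obtain ⟨δ, hδ, hsub⟩ := Metric.mem_nhds_iff.1 hN
    refine ⟨δ, hδ, ?_⟩
    rintro z ⟨hz1, hz2⟩
    by_contra hz3
    obtain ⟨h4, h5⟩ := hsub hz2
    exact h5 ⟨⟨hz1, h4⟩, hz3⟩

theorem polygon_of_finite {U : Set V} (hpc : PC U)
    (hfin : (extremePoints ℝ (closure U)).Finite) : IsPolygon U := by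
  have hcc : IsCompact (closure U) := hpc.bdd.isCompact_closure
  have hcv : Convex ℝ (closure U) := hpc.convex.closure
  refine ⟨extremePoints ℝ (closure U), hfin, ?_⟩
  have e1 := closure_convexHull_extremePoints hcc hcv
  have e2 : IsClosed (convexHull ℝ (extremePoints ℝ (closure U))) :=
    hfin.isClosed_convexHull ℝ
  rw [e2.closure_eq] at e1
  rw [e1]
  have hne : (interior U).Nonempty := by rw [hpc.isOpen.interior_eq]; exact hpc.ne
  rw [hpc.convex.interior_closure_eq_interior_of_nonempty_interior hne, hpc.isOpen.interior_eq]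

theorem polygon_of (U : Set V) (hpc : PC U) (h : ∀ x₀ ∈ frontier U, PolyAt U x₀) :
    IsPolygon U := by
  apply polygon_of_finite hpc
  by_contra hinf
  obtain ⟨x₀, hx₀⟩ := FRM.acc hpc.bdd hinf
  have hx₀U : x₀ ∉ U := by
    intro hxU
    obtain ⟨ε, hε, hb⟩ := Metric.isOpen_iff.1 hpc.isOpen x₀ hxU
    obtain ⟨e, he1, he2⟩ := (hx₀ ε hε).nonempty
    exact ACT.extreme_not_mem hpc.isOpen he1 (hb he2)
  have hx₀c : x₀ ∈ closure U := by
    rw [← closure_closure, Metric.mem_closure_iff]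
    intro ε hε
    obtain ⟨e, he1, he2⟩ := (hx₀ ε hε).nonempty
    exact ⟨e, he1.1, by rw [dist_comm]; exact he2⟩
  have hfr : x₀ ∈ frontier U := by
    rw [hpc.isOpen.frontier_eq]
    exact ⟨hx₀c, hx₀U⟩
  obtain ⟨δ, hδ, hsub⟩ := h x₀ hfr
  exact hx₀ δ hδ ((finite_singleton x₀).subset hsub)

/-- sets which agree with `U` outside a small ball around a boundary point are close to `U` in
Hausdorff distance -/
theorem near_haus {U : Set V} (hU : PC U) {x₀ : V} (hx : x₀ ∈ frontier U) {η : ℝ} (hη : 0 < η) :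
    ∃ ε : ℝ, 0 < ε ∧ ∀ U' : Set V, symmDiff U U' ⊆ ball x₀ ε → hausdorffDist U U' < η := by
  obtain ⟨q, hq⟩ := hU.ne
  rw [hU.isOpen.frontier_eq] at hx
  have hqx : q ≠ x₀ := by
    rintro rfl
    exact hx.2 hq
  have hD : 0 < dist q x₀ := dist_pos.2 hqx
  obtain ⟨ε, hε, hε1, hε2⟩ : ∃ ε : ℝ, 0 < ε ∧ ε ≤ dist q x₀ ∧ ε ≤ η / 4 :=
    ⟨min (dist q x₀) (η / 4), lt_min hD (by linarith), min_le_left _ _, min_le_right _ _⟩
  refine ⟨ε, hε, fun U' hs => ?_⟩
  have hle : hausdorffDist U U' ≤ η / 2 := by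
    apply hausdorffDist_le_of_mem_dist (by linarith)
    · intro p hp
      by_cases hpb : p ∈ ball x₀ ε
      · have hcont : ContinuousOn (fun t : ℝ => dist (p + t • (q - p)) x₀) (Icc 0 1) := by
          fun_prop
        have hmem : ε ∈ Icc (dist (p + (0 : ℝ) • (q - p)) x₀) (dist (p + (1 : ℝ) • (q - p)) x₀) := by
          rw [mem_ball] at hpb
          simp only [zero_smul, add_zero, one_smul, add_sub_cancel]
          exact ⟨hpb.le, hε1⟩
        obtain ⟨t, ht, hte⟩ := intermediate_value_Icc zero_le_one hcont hmem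
        have hte' : dist (p + t • (q - p)) x₀ = ε := hte
        have hzU : p + t • (q - p) ∈ U := hU.convex.add_smul_sub_mem hp hq ht
        refine ⟨p + t • (q - p), ?_, ?_⟩
        · by_contra hz
          have := hs (Or.inl ⟨hzU, hz⟩)
          rw [mem_ball, hte'] at this
          exact lt_irrefl _ this
        · have h1 := dist_triangle_right p (p + t • (q - p)) x₀
          rw [mem_ball] at hpb
          rw [hte'] at h1
          linarith
      · refine ⟨p, by_contra fun h => hpb (hs (Or.inl ⟨hp, h⟩)), ?_⟩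
        rw [dist_self]; linarith
    · intro p hp
      by_cases hpb : p ∈ ball x₀ ε
      · obtain ⟨z, hz, hzx⟩ := Metric.mem_closure_iff.1 hx.1 ε hε
        refine ⟨z, hz, ?_⟩
        have h1 := dist_triangle p x₀ z
        rw [mem_ball] at hpb
        linarith
      · refine ⟨p, by_contra fun h => hpb (hs (Or.inr ⟨hp, h⟩)), ?_⟩
        rw [dist_self]; linarith
  linarith

/-- the quotient `λ / h²` is a cost function -/
theorem cost_quot : Cost (fun p : ℝ × ℝ => p.1 / p.2 ^ 2) := by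
  intro p h1 h2
  have hne : p.2 ^ 2 ≠ 0 := by positivity
  have hd : HasFDerivAt (fun p : ℝ × ℝ => p.1 * (p.2 ^ 2)⁻¹)
      (p.1 • (-((p.2 ^ 2) ^ 2)⁻¹ • ((2 * p.2) • ContinuousLinearMap.snd ℝ ℝ ℝ)) +
        (p.2 ^ 2)⁻¹ • ContinuousLinearMap.fst ℝ ℝ ℝ) p := by
    have a1 : HasFDerivAt (fun p : ℝ × ℝ => p.1) (ContinuousLinearMap.fst ℝ ℝ ℝ) p :=
      hasFDerivAt_fst
    have a2 : HasFDerivAt (fun p : ℝ × ℝ => p.2 ^ 2)
        ((2 * p.2) • ContinuousLinearMap.snd ℝ ℝ ℝ) p := by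
      have := (hasFDerivAt_snd (𝕜 := ℝ) (p := p)).pow 2
      simpa using this
    have a3 : HasFDerivAt (fun p : ℝ × ℝ => (p.2 ^ 2)⁻¹)
        (-((p.2 ^ 2) ^ 2)⁻¹ • ((2 * p.2) • ContinuousLinearMap.snd ℝ ℝ ℝ)) p :=
      (hasDerivAt_inv hne).comp_hasFDerivAt p a2
    exact a1.mul a3
  refine ⟨_, hd, ?_, ?_⟩
  · simp
    positivity
  · have : 0 < p.1 * (((p.2 ^ 2) ^ 2)⁻¹ * (2 * p.2)) := by positivity
    simp
    simpa using this

end Pool.Agent.KS6_79.CK
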