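import Pool.Agent.KS6_79.CK.D

set_option autoImplicit false
open MeasureTheory Metric Set Filter Topology

namespace Pool.Agent.KS6_79.CK

open Pool.Agent.H417R2.CH

namespace GNP

/-- second order bound for the circle -/
theorem sqrt_bound {r m z D : ℝ} (hm : 0 < m) (hz : z ^ 2 ≤ r ^ 2)
    (h0 : m ^ 2 ≤ r ^ 2 - z ^ 2)
    (h1 : m ^ 2 ≤ r ^ 2 - (z - D) ^ 2) (h2 : m ^ 2 ≤ r ^ 2 - (z + D) ^ 2) :
    2 * √(r ^ 2 - z ^ 2) - (1 / m + r ^ 2 / m ^ 3) * D ^ 2 ≤
      √(r ^ 2 - (z - D) ^ 2) + √(r ^ 2 - (z + D) ^ 2) := by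
  set F := √(r ^ 2 - z ^ 2) with hF
  set G := √(r ^ 2 - (z - D) ^ 2) with hG
  set H := √(r ^ 2 - (z + D) ^ 2) with hH
  have hm2 : 0 < m ^ 2 := by positivity
  have hF2 : F ^ 2 = r ^ 2 - z ^ 2 := Real.sq_sqrt (by linarith)
  have hG2 : G ^ 2 = r ^ 2 - (z - D) ^ 2 := Real.sq_sqrt (by linarith)
  have hH2 : H ^ 2 = r ^ 2 - (z + D) ^ 2 := Real.sq_sqrt (by linarith)
  have hFm : m ≤ F := Real.le_sqrt_of_sq_le h0
  have hGm : m ≤ G := Real.le_sqrt_of_sq_le h1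
  have hHm : m ≤ H := Real.le_sqrt_of_sq_le h2
  have hp : 0 < H + F := by linarith
  have hq : 0 < G + F := by linarith
  have hw : 0 < H + G := by linarith
  have e1 : H - F = (-2 * z * D - D ^ 2) / (H + F) := by
    rw [eq_div_iff hp.ne']; nlinarith
  have e2 : G - F = (2 * z * D - D ^ 2) / (G + F) := by
    rw [eq_div_iff hq.ne']; nlinarith
  have e3 : H - G = (-4 * z * D) / (H + G) := by
    rw [eq_div_iff hw.ne']; nlinarith
  have e4 : 1 / (G + F) - 1 / (H + F) = (H - G) / ((G + F) * (H + F)) := by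
    field_simp; ring
  have key : (H - F) + (G - F) = -(D ^ 2 * (1 / (H + F) + 1 / (G + F))) -
      8 * (z ^ 2 * D ^ 2) * (1 / ((H + G) * ((G + F) * (H + F)))) := by
    have : (H - F) + (G - F) = -(D ^ 2 * (1 / (H + F) + 1 / (G + F))) +
        2 * z * D * (1 / (G + F) - 1 / (H + F)) := by
      rw [e1, e2]; ring
    rw [this, e4, e3]
    field_simp
    ring
  have b1 : 1 / (H + F) ≤ 1 / (2 * m) := one_div_le_one_div_of_le (by linarith) (by linarith)
  have b2 : 1 / (G + F) ≤ 1 / (2 * m) := one_div_le_one_div_of_le (by linarith) (by linarith)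
  have b3 : 1 / ((H + G) * ((G + F) * (H + F))) ≤ 1 / (8 * m ^ 3) := by
    apply one_div_le_one_div_of_le (by positivity)
    have c1 : 2 * m ≤ H + G := by linarith
    have c2 : 2 * m ≤ G + F := by linarith
    have c3 : 2 * m ≤ H + F := by linarith
    calc 8 * m ^ 3 = (2 * m) * ((2 * m) * (2 * m)) := by ring
      _ ≤ (H + G) * ((G + F) * (H + F)) := by
        apply mul_le_mul c1 _ (by positivity) hw.le
        exact mul_le_mul c2 c3 (by positivity) hq.le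
  have b4 : D ^ 2 * (1 / (H + F) + 1 / (G + F)) ≤ D ^ 2 * (1 / m) := by
    apply mul_le_mul_of_nonneg_left _ (sq_nonneg D)
    have : 1 / m = 1 / (2 * m) + 1 / (2 * m) := by field_simp; norm_num
    rw [this]; linarith
  have b5 : 8 * (z ^ 2 * D ^ 2) * (1 / ((H + G) * ((G + F) * (H + F)))) ≤
      r ^ 2 / m ^ 3 * D ^ 2 := by
    calc 8 * (z ^ 2 * D ^ 2) * (1 / ((H + G) * ((G + F) * (H + F))))
        ≤ 8 * (z ^ 2 * D ^ 2) * (1 / (8 * m ^ 3)) :=
          mul_le_mul_of_nonneg_left b3 (by positivity)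
      _ ≤ 8 * (r ^ 2 * D ^ 2) * (1 / (8 * m ^ 3)) := by
          apply mul_le_mul_of_nonneg_right _ (by positivity)
          have := mul_le_mul_of_nonneg_right hz (sq_nonneg D)
          linarith
      _ = r ^ 2 / m ^ 3 * D ^ 2 := by field_simp
  have : (H - F) + (G - F) ≥ -(1 / m + r ^ 2 / m ^ 3) * D ^ 2 := by
    rw [key]
    nlinarith
  linarith

theorem frame_mem {U : Set V} {r α β : ℝ} {l g : ℝ → ℝ} {R k X₀ : ℝ}
    (hF : Frame U r α β l g R k X₀) {y : ℝ} (hy : |y| < R) : y ∈ Ioo α β ∧ 0 < g y := by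
  have h : pt y 0 ∈ Reg α β l g := by
    rw [← hF.eq]
    apply hF.hball
    rw [mem_ball, dist_zero_right, EuclideanSpace.norm_eq]
    simp only [pt, Fin.sum_univ_two, Real.norm_eq_abs, sq_abs]
    simp [Real.sqrt_sq_eq_abs, hy]
  obtain ⟨h1, h2, h3, h4⟩ := h
  simp [pt] at h1 h2 h3 h4
  exact ⟨⟨h1, h2⟩, h4⟩

theorem gr_le {U : Set V} {r α β : ℝ} {l g : ℝ → ℝ} {R k X₀ : ℝ}
    (hF : Frame U r α β l g R k X₀) {δ₀ : ℝ} (hδ : δ₀ < R - r) {ψ : ℝ → ℝ}
    (hψ : Continuous ψ) {x X : ℝ} (hx : x ∈ Icc (-δ₀) δ₀) (hX : |X - x| ≤ r) :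
    gr (fun z => g z + ψ z) r x ≤ g X + ψ X - √(r ^ 2 - (X - x) ^ 2) := by
  unfold gr
  apply csInf_le
  · obtain ⟨B, hB⟩ := (isCompact_Icc (a := x - r) (b := x + r)).bddBelow_image hψ.continuousOn
    refine ⟨B - r, ?_⟩
    rintro _ ⟨s, hs, rfl⟩
    have h1 : |x + s| < R := by
      rw [abs_lt]
      obtain ⟨h3, h4⟩ := hs
      obtain ⟨h5, h6⟩ := hx
      constructor <;> linarith
    have h2 := (frame_mem hF h1).2
    have h3 : B ≤ ψ (x + s) := hB ⟨x + s, ⟨by linarith [hs.1], by linarith [hs.2]⟩, rfl⟩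
    have hr : 0 < r := hF.good.r_pos
    have h4 : √(r ^ 2 - s ^ 2) ≤ r := by
      apply Real.sqrt_le_iff.2
      exact ⟨hr.le, by nlinarith⟩
    show B - r ≤ g (x + s) + ψ (x + s) - √(r ^ 2 - s ^ 2)
    linarith
  · refine ⟨X - x, ?_, ?_⟩
    · rw [abs_le] at hX; exact ⟨hX.1, hX.2⟩
    · simp

end GNP

open GNP in
theorem t_GNP (h : S_CTB) : S_GNP := by
  intro U r α β l g R k X₀ hF δ₀ hδ₀ hδ
  obtain ⟨-, -, -, -, ⟨σ, hσ, hσX⟩, -⟩ := h U r α β l g R k X₀ hF δ₀ hδ₀ hδ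
  have hr : 0 < r := hF.good.r_pos
  -- we may assume `0 ≤ σ`
  set σ' := max σ 0 with hσ'
  have hσ'r : σ' < r := max_lt hσ hr
  have hσ'0 : 0 ≤ σ' := le_max_right _ _
  set ρ := (r + σ') / 2 with hρ
  have hρr : ρ < r := by rw [hρ]; linarith
  have hρ0 : 0 < ρ := by rw [hρ]; linarith
  set m := √(r ^ 2 - ρ ^ 2) with hm
  have hm2 : 0 < r ^ 2 - ρ ^ 2 := by nlinarith
  have hmpos : 0 < m := Real.sqrt_pos.2 hm2
  have hmsq : m ^ 2 = r ^ 2 - ρ ^ 2 := Real.sq_sqrt hm2.le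
  set C := 1 / m + r ^ 2 / m ^ 3 with hC
  have hCpos : 0 < C := by positivity
  refine ⟨1 / C, by positivity, ?_⟩
  intro φ hφ a b s η hab hη hs
  -- choice of `t₀`
  set δ := min η ((r - σ') / 2) with hδdef
  have hδpos : 0 < δ := lt_min hη (by linarith)
  refine ⟨δ * C / (|s| + 1), by positivity, ?_⟩
  intro t ht x hx
  obtain ⟨hxI, X, hX, hct⟩ := hx
  have hXσ : |X - x| ≤ σ' := (hσX x hxI X hct).trans (le_max_left _ _)
  set D := |t * s| / C with hD
  have hD0 : 0 ≤ D := by positivity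
  have hDδ : D ≤ δ := by
    rw [hD, div_le_iff₀ hCpos, abs_mul]
    have h1 : |t| * (|s| + 1) ≤ δ * C := by
      rw [le_div_iff₀ (by positivity)] at ht
      exact ht
    nlinarith [abs_nonneg t, abs_nonneg s]
  have hDη : D ≤ η := hDδ.trans (min_le_left _ _)
  have hDσ : D ≤ (r - σ') / 2 := hDδ.trans (min_le_right _ _)
  -- the two signs
  obtain ⟨ε, hε, hεts⟩ : ∃ ε : ℝ, (ε = 1 ∨ ε = -1) ∧ ε * (t * s) = |t * s| := by
    rcases le_total 0 (t * s) with h0 | h0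
    · exact ⟨1, Or.inl rfl, by rw [abs_of_nonneg h0, one_mul]⟩
    · exact ⟨-1, Or.inr rfl, by rw [abs_of_nonpos h0]; ring⟩
  have hεabs : |ε * D| = D := by
    rcases hε with rfl | rfl
    · rw [one_mul, abs_of_nonneg hD0]
    · rw [neg_one_mul, abs_neg, abs_of_nonneg hD0]
  obtain ⟨he1, he2⟩ := abs_le.1 hεabs.le
  obtain ⟨hz1, hz2⟩ := abs_le.1 hXσ
  set X' := X - ε * D with hX'
  set X'' := X + ε * D with hX''
  have hρe : σ' + D ≤ ρ := by rw [hρ]; linarith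
  have hx'r : |X' - x| ≤ r := by
    rw [abs_le, hX']; constructor <;> linarith
  have hx''r : |X'' - x| ≤ r := by
    rw [abs_le, hX'']; constructor <;> linarith
  have g1 := gr_le hF hδ (ψ := fun z => t * φ z) (by fun_prop) hxI hx'r
  have g2 := gr_le hF hδ (ψ := fun z => -t * φ z) (by fun_prop) hxI hx''r
  -- concavity
  have hR' : |X'| < R := by
    obtain ⟨h5, h6⟩ := hxI
    obtain ⟨h7, h8⟩ := abs_le.1 hx'r
    rw [abs_lt]; constructor <;> linarith
  have hR'' : |X''| < R := by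
    obtain ⟨h5, h6⟩ := hxI
    obtain ⟨h7, h8⟩ := abs_le.1 hx''r
    rw [abs_lt]; constructor <;> linarith
  have hconc : g X' + g X'' ≤ 2 * g X := by
    have h0 := hF.reg.cg
    have h1 := h0.2 (frame_mem hF hR').1 (frame_mem hF hR'').1
      (show (0 : ℝ) ≤ 1 / 2 by norm_num) (show (0 : ℝ) ≤ 1 / 2 by norm_num) (by norm_num)
    simp only [smul_eq_mul] at h1
    have h2 : 1 / 2 * X' + 1 / 2 * X'' = X := by rw [hX', hX'']; ring
    rw [h2] at h1
    linarith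
  -- affine part
  have hX'ab : X' ∈ Icc a b := ⟨by rw [hX']; linarith [hX.1], by rw [hX']; linarith [hX.2]⟩
  have hX''ab : X'' ∈ Icc a b := ⟨by rw [hX'']; linarith [hX.1], by rw [hX'']; linarith [hX.2]⟩
  have hφ1 := hs X' hX'ab X'' hX''ab
  have hφ2 : t * φ X' + -t * φ X'' = -(2 * |t * s| * D) := by
    have : t * φ X' + -t * φ X'' = t * (φ X' - φ X'') := by ring
    rw [this, hφ1, ← hεts, hX', hX'']; ring
  -- circle
  have hsq : √(r ^ 2 - (X' - x) ^ 2) + √(r ^ 2 - (X'' - x) ^ 2) ≥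
      2 * √(r ^ 2 - (X - x) ^ 2) - C * D ^ 2 := by
    have e1 : X' - x = (X - x) - ε * D := by rw [hX']; ring
    have e2 : X'' - x = (X - x) + ε * D := by rw [hX'']; ring
    rw [e1, e2]
    have h3 : (ε * D) ^ 2 = D ^ 2 := by
      rcases hε with rfl | rfl <;> ring
    have h4 := sqrt_bound (r := r) (m := m) (z := X - x) (D := ε * D) hmpos
      (by nlinarith) (by rw [hmsq]; nlinarith) (by rw [hmsq]; nlinarith) (by rw [hmsq]; nlinarith)
    rw [h3] at h4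
    exact h4
  have hcteq := hct.2
  have hfin : C * D ^ 2 - 2 * |t * s| * D = -(1 / C * t ^ 2 * s ^ 2) := by
    rw [hD]
    have : |t * s| ^ 2 = t ^ 2 * s ^ 2 := by rw [sq_abs]; ring
    field_simp
    rw [this]; ring
  have hfin' : gr (fun z => g z + t * φ z) r x + gr (fun z => g z + -t * φ z) r x -
      2 * gr g r x ≤ C * D ^ 2 - 2 * |t * s| * D := by
    rw [← hcteq]
    linarith
  rw [hfin] at hfin'
  exact hfin'

end Pool.Agent.KS6_79.CK
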