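import Pool.Agent.KS6_79.CK.D
import Pool.Graph.R_seed8.H417R2.CH.GOOD

set_option autoImplicit false
open MeasureTheory Metric Set Filter Topology

namespace Pool.Agent.KS6_79.CK

open Pool.Agent.H417R2.CH

/-- A cost function of the first eigenvalue and the Cheeger constant: differentiable on the open
quadrant, with positive derivative in the eigenvalue and negative derivative in the Cheeger
constant. -/
def Cost (J : ℝ × ℝ → ℝ) : Prop :=
  ∀ p : ℝ × ℝ, 0 < p.1 → 0 < p.2 →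
    ∃ L : ℝ × ℝ →L[ℝ] ℝ, HasFDerivAt J L p ∧ 0 < L (1, 0) ∧ L (0, 1) < 0

theorem cost_mono {J : ℝ × ℝ → ℝ} (hJ : Cost J) {h : ℝ} (hh : 0 < h) :
    StrictMonoOn (fun x => J (x, h)) (Ioi 0) := by
  have hd : ∀ x ∈ Ioi (0 : ℝ), ∃ L : ℝ × ℝ →L[ℝ] ℝ,
      HasDerivAt (fun x => J (x, h)) (L (1, 0)) x ∧ 0 < L (1, 0) := by
    intro x hx
    obtain ⟨L, hL, h1, -⟩ := hJ (x, h) hx hh
    refine ⟨L, ?_, h1⟩
    have := hL.comp_hasDerivAt x ((hasDerivAt_id x).prodMk (hasDerivAt_const x h))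
    exact this
  refine strictMonoOn_of_deriv_pos (convex_Ioi 0) ?_ ?_
  · intro x hx
    obtain ⟨L, h1, -⟩ := hd x hx
    exact h1.continuousAt.continuousWithinAt
  · intro x hx
    rw [interior_Ioi] at hx
    obtain ⟨L, h1, h2⟩ := hd x hx
    rw [h1.deriv]; exact h2

theorem cost_anti {J : ℝ × ℝ → ℝ} (hJ : Cost J) {x : ℝ} (hx : 0 < x) :
    StrictAntiOn (fun h => J (x, h)) (Ioi 0) := by
  have hd : ∀ h ∈ Ioi (0 : ℝ), ∃ L : ℝ × ℝ →L[ℝ] ℝ,
      HasDerivAt (fun h => J (x, h)) (L (0, 1)) h ∧ L (0, 1) < 0 := by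
    intro h hh
    obtain ⟨L, hL, -, h1⟩ := hJ (x, h) hx hh
    refine ⟨L, ?_, h1⟩
    have := hL.comp_hasDerivAt h ((hasDerivAt_const h x).prodMk (hasDerivAt_id h))
    exact this
  refine strictAntiOn_of_deriv_neg (convex_Ioi 0) ?_ ?_
  · intro h hh
    obtain ⟨L, h1, -⟩ := hd h hh
    exact h1.continuousAt.continuousWithinAt
  · intro h hh
    rw [interior_Ioi] at hh
    obtain ⟨L, h1, h2⟩ := hd h hh
    rw [h1.deriv]; exact h2

/-- first order decrease along a direction -/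
theorem dir_lem {J : ℝ × ℝ → ℝ} {L : ℝ × ℝ →L[ℝ] ℝ} {lm h₀ r m σ : ℝ}
    (hJ : HasFDerivAt J L (lm, h₀)) (hr : 0 < r) (hrh : 1 / r = h₀)
    (hneg : L (1, 0) * m + L (0, 1) * (σ / r ^ 2) < 0) :
    ∃ ε : ℝ, 0 < ε ∧ ∀ s : ℝ, 0 ≤ s → s < ε → J (lm + m * s, 1 / (r - σ * s)) ≤ J (lm, h₀) := by
  set f : ℝ → ℝ := fun s => J (lm + m * s, 1 / (r - σ * s)) with hf
  have h1 : HasDerivAt (fun s : ℝ => lm + m * s) m 0 := by
    have := ((hasDerivAt_id (0 : ℝ)).const_mul m).const_add lm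
    simpa using this
  have h2 : HasDerivAt (fun s : ℝ => 1 / (r - σ * s)) (σ / r ^ 2) 0 := by
    have a1 : HasDerivAt (fun s : ℝ => r - σ * s) (-σ) 0 := by
      have := ((hasDerivAt_id (0 : ℝ)).const_mul σ).const_sub r
      simpa using this
    have a2 := a1.inv (by simpa using hr.ne')
    have e : (fun s : ℝ => 1 / (r - σ * s)) = (fun s : ℝ => r - σ * s)⁻¹ := by
      funext s; simp [one_div]
    have e2 : -(-σ) / (r - σ * 0) ^ 2 = σ / r ^ 2 := by simp
    rw [e, ← e2]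
    exact a2
  have h3 := h1.prodMk h2
  have e0 : (lm, h₀) = ((fun s : ℝ => (lm + m * s, 1 / (r - σ * s))) 0) := by
    simp [← hrh]
  rw [e0] at hJ
  have h4 : HasDerivAt f (L (m, σ / r ^ 2)) 0 := hJ.comp_hasDerivAt (0 : ℝ) h3
  have e1 : L (m, σ / r ^ 2) = L (1, 0) * m + L (0, 1) * (σ / r ^ 2) := by
    have : ((m, σ / r ^ 2) : ℝ × ℝ) = m • (1, 0) + (σ / r ^ 2) • (0, 1) := by
      ext <;> simp
    rw [this, map_add, map_smul, map_smul, smul_eq_mul, smul_eq_mul]; ring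
  rw [e1] at h4
  have h5 := (hasDerivAt_iff_tendsto_slope.1 h4).eventually_lt_const hneg
  rw [eventually_nhdsWithin_iff, Metric.eventually_nhds_iff] at h5
  obtain ⟨ε, hε, h6⟩ := h5
  refine ⟨ε, hε, fun s hs0 hs => ?_⟩
  have ef : J (lm, h₀) = f 0 := by rw [hf]; simp [← hrh]
  rw [ef]
  rcases hs0.eq_or_lt with h0 | h0
  · rw [← h0]
  · have h7 := h6 (y := s) (by rw [Real.dist_eq, sub_zero, abs_of_pos h0]; exact hs) (by
      simpa using h0.ne')
    rw [slope_def_field, sub_zero, div_lt_iff₀ h0, zero_mul] at h7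
    show f s ≤ f 0
    linarith

open Pool.Agent.H417R2.CH.GOOD in
/-- a set which is locally minimal near `x₀` satisfies the geometric conditions and the local first
order optimality -/
theorem good_loc (h1 : S_CI) (h2 : S_CII) (hE : S_EIG) {J : ℝ × ℝ → ℝ} (hJ : Cost J) {U : Set V}
    (hU : PC U) : ∃ r : ℝ, Good U r ∧ ∀ (x₀ : V) (ε : ℝ), 0 < ε →
      (∀ U' : Set V, PC U' → symmDiff U U' ⊆ ball x₀ ε → J (lam U, hC U) ≤ J (lam U', hC U')) →
      Loc U r x₀ := by
  -- the Cheeger constant is positive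
  have hC0 : 0 < hC U := by
    set ρ : ℝ := max 1 (ar U) with hρ
    have h1ρ : 1 ≤ ρ := le_max_left _ _
    have h3 : ar (Inn U ρ) ≤ Real.pi * ρ ^ 2 := by
      have h4 : ar (Inn U ρ) ≤ ar U :=
        ENNReal.toReal_mono (vol_fin hU) (measure_mono (inn_sub U (by linarith)))
      have h5 : ar U ≤ ρ := le_max_right _ _
      have h6 := Real.pi_gt_three
      nlinarith
    have h4 := h1 U hU ρ (by linarith) h3
    have h5 : 0 < 1 / ρ := by positivity
    linarith
  set r : ℝ := 1 / hC U with hr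
  have hr0 : 0 < r := by positivity
  have hrC : 1 / r = hC U := by rw [hr]; field_simp
  have hlpos : ∀ U' : Set V, PC U' → 0 < lam U' := fun U' hU' => by
    obtain ⟨u, hu⟩ := hE U' hU'
    exact hu.lampos
  refine ⟨r, ⟨hU, hr0, ?_, ?_⟩, ?_⟩
  · by_contra hcon
    push Not at hcon
    obtain ⟨ρ, hρ, hρ2⟩ := right hU hr0 hcon
    have h3 := h2 U hU ρ (hr0.trans hρ) hρ2
    rw [← hrC] at h3
    have h4 : 1 / ρ < 1 / r := one_div_lt_one_div_of_lt hr0 hρ
    linarith
  · by_contra hcon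
    have hint : interior (Inn U r) = ∅ := by
      rw [Set.eq_empty_iff_forall_notMem]
      intro x hx
      obtain ⟨e, he, hball⟩ := inn_interior hr0 hx
      exact hcon ⟨x, r + e, by linarith, hball⟩
    have h0 : ar (Inn U r) = 0 := by
      unfold ar
      rw [vol_interior hU.convex, hint, measure_empty, ENNReal.toReal_zero]
    obtain ⟨ρ, hρ0, hρ, hρ2⟩ := left hU hr0 (by rw [h0]; positivity)
    have h3 := h1 U hU ρ hρ0 hρ2
    rw [← hrC] at h3
    have h4 : 1 / r < 1 / ρ := one_div_lt_one_div_of_lt hρ0 hρ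
    linarith
  · intro x₀ ε hε hmin
    have hl := hlpos U hU
    obtain ⟨L, hL, ha, hb⟩ := hJ (lam U, hC U) hl hC0
    set a := L (1, 0) with ha'
    set b := L (0, 1) with hb'
    obtain ⟨ε₁, hε₁, hd1⟩ := dir_lem (m := -b / (2 * a * r ^ 2)) (σ := 1) hL hr0 hrC (by
      rw [← ha', ← hb']
      have e : a * (-b / (2 * a * r ^ 2)) + b * (1 / r ^ 2) = b / (2 * r ^ 2) := by
        field_simp; ring
      rw [e]
      exact div_neg_of_neg_of_pos hb (by positivity))
    obtain ⟨ε₂, hε₂, hd2⟩ := dir_lem (m := 2 * b / (a * r ^ 2)) (σ := -1) hL hr0 hrC (by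
      rw [← ha', ← hb']
      have e : a * (2 * b / (a * r ^ 2)) + b * (-1 / r ^ 2) = b / r ^ 2 := by
        field_simp; ring
      rw [e]
      exact div_neg_of_neg_of_pos hb (by positivity))
    have hnb : 0 < -b := by linarith
    refine ⟨min ε (min ε₁ ε₂), -b / (2 * a * r ^ 2), -(2 * b / (a * r ^ 2)),
      lt_min hε (lt_min hε₁ hε₂), by positivity, ?_, ?_, ?_⟩
    · have e : -(2 * b / (a * r ^ 2)) = 2 * (-b) / (a * r ^ 2) := by ring
      rw [e]; positivity
    · intro U' ρ hU' hs hρ0 hρ1 hρ2 har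
      have k1 := h1 U' hU' ρ hρ0 har
      have k2 := hmin U' hU' (hs.trans (ball_subset_ball (min_le_left _ _)))
      have k3 : r - ρ < ε₁ := by
        have : min ε (min ε₁ ε₂) ≤ ε₁ := (min_le_right _ _).trans (min_le_left _ _)
        linarith
      have k4 := hd1 (r - ρ) (by linarith) k3
      have e : r - 1 * (r - ρ) = ρ := by ring
      rw [e] at k4
      by_contra hcon
      push Not at hcon
      have hl' := hlpos U' hU'
      have hρi : 0 < 1 / ρ := by positivity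
      have k5 : J (lam U', hC U') ≤ J (lam U', 1 / ρ) :=
        (cost_anti hJ hl').antitoneOn (mem_Ioi.2 hρi) (mem_Ioi.2 (hρi.trans_le k1)) k1
      have k6 : J (lam U', 1 / ρ) < J (lam U + -b / (2 * a * r ^ 2) * (r - ρ), 1 / ρ) :=
        cost_mono hJ hρi (mem_Ioi.2 hl') (mem_Ioi.2 (hl'.trans hcon)) hcon
      linarith
    · intro U' ρ hU' hs hρ1 hρ2 har
      have hρ0 : 0 < ρ := by linarith
      have k1 := h1 U' hU' ρ hρ0 har
      have k2 := hmin U' hU' (hs.trans (ball_subset_ball (min_le_left _ _)))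
      have k3 : ρ - r < ε₂ := by
        have : min ε (min ε₁ ε₂) ≤ ε₂ := (min_le_right _ _).trans (min_le_right _ _)
        linarith
      have k4 := hd2 (ρ - r) (by linarith) k3
      have e : r - -1 * (ρ - r) = ρ := by ring
      rw [e] at k4
      by_contra hcon
      push Not at hcon
      have hcon' : lam U' < lam U + 2 * b / (a * r ^ 2) * (ρ - r) := by linarith
      have hl' := hlpos U' hU'
      have hρi : 0 < 1 / ρ := by positivity
      have k5 : J (lam U', hC U') ≤ J (lam U', 1 / ρ) :=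
        (cost_anti hJ hl').antitoneOn (mem_Ioi.2 hρi) (mem_Ioi.2 (hρi.trans_le k1)) k1
      have k6 : J (lam U', 1 / ρ) < J (lam U + 2 * b / (a * r ^ 2) * (ρ - r), 1 / ρ) :=
        cost_mono hJ hρi (mem_Ioi.2 hl') (mem_Ioi.2 (hl'.trans hcon')) hcon'
      linarith

end Pool.Agent.KS6_79.CK
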