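import Pool.Agent.KS6_79.CK.D

set_option autoImplicit false
open MeasureTheory Metric Set Filter Topology

namespace Pool.Agent.KS6_79.CK

open Pool.Agent.H417R2.CH

namespace NEAR

theorem norm_le_V (p : V) : ‖p‖ ≤ |p 0| + |p 1| := by
  rw [EuclideanSpace.norm_eq, Fin.sum_univ_two, Real.norm_eq_abs, Real.norm_eq_abs]
  rw [Real.sqrt_le_left (by positivity)]
  nlinarith [mul_nonneg (abs_nonneg (p 0)) (abs_nonneg (p 1))]

theorem pt0 (x y : ℝ) : (pt x y) 0 = x := by simp [pt]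

theorem pt1 (x y : ℝ) : (pt x y) 1 = y := by simp [pt]

/-- a small perturbation of the upper graph over a small interval around `X₀` changes the region
only near the boundary point over `X₀` -/
theorem near_reg {α β : ℝ} {l g : ℝ → ℝ} (hreg : RegD α β l g) {X₀ : ℝ} (hX : X₀ ∈ Ioo α β)
    {ε : ℝ} (hε : 0 < ε) :
    ∃ w : ℝ, 0 < w ∧ ∀ ψ : ℝ → ℝ, (∀ x, w ≤ |x - X₀| → ψ x = 0) → (∀ x, |ψ x| ≤ w) →
      symmDiff (Reg α β l g) (Reg α β l (fun x => g x + ψ x)) ⊆ ball (pt X₀ (g X₀)) ε := by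
  have hgc : ContinuousAt g X₀ :=
    (hreg.cg.continuousOn isOpen_Ioo).continuousAt (isOpen_Ioo.mem_nhds hX)
  obtain ⟨w₁, hw₁, hc⟩ := Metric.continuousAt_iff.1 hgc (ε / 4) (by linarith)
  refine ⟨min w₁ (ε / 4), lt_min hw₁ (by linarith), fun ψ hz hb p hp => ?_⟩
  have hψ : ψ (p 0) ≠ 0 := by
    intro h0
    have e : p ∈ Reg α β l g ↔ p ∈ Reg α β l (fun x => g x + ψ x) := by
      simp only [Reg, mem_setOf_eq, h0, add_zero]
    rcases hp with ⟨h1, h2⟩ | ⟨h1, h2⟩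
    · exact h2 (e.1 h1)
    · exact h2 (e.2 h1)
  have hx : |p 0 - X₀| < min w₁ (ε / 4) := by
    by_contra hcon
    push Not at hcon
    exact hψ (hz _ hcon)
  have hbp := hb (p 0)
  have h4 : min w₁ (ε / 4) ≤ ε / 4 := min_le_right _ _
  have hg1 : |g (p 0) - g X₀| < ε / 4 := by
    have := hc (x := p 0) (by rw [Real.dist_eq]; exact hx.trans_le (min_le_left _ _))
    rwa [Real.dist_eq] at this
  have hp1 : |p 1 - g (p 0)| ≤ ε / 4 := by
    have hab := abs_le.1 (hbp.trans h4)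
    rcases hp with ⟨h1, h2⟩ | ⟨h1, h2⟩
    · obtain ⟨q1, q2, q3, q4⟩ := h1
      have : g (p 0) + ψ (p 0) ≤ p 1 := by
        by_contra hcon
        push Not at hcon
        exact h2 ⟨q1, q2, q3, hcon⟩
      rw [abs_le]; constructor <;> linarith [hab.1, hab.2]
    · obtain ⟨q1, q2, q3, q4⟩ := h1
      have q4' : p 1 < g (p 0) + ψ (p 0) := q4
      have : g (p 0) ≤ p 1 := by
        by_contra hcon
        push Not at hcon
        exact h2 ⟨q1, q2, q3, hcon⟩
      rw [abs_le]; constructor <;> linarith [hab.1, hab.2]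
  rw [mem_ball, dist_eq_norm]
  have h5 := norm_le_V (p - pt X₀ (g X₀))
  have e0 : (p - pt X₀ (g X₀)) 0 = p 0 - X₀ := by
    rw [PiLp.sub_apply, pt0]
  have e1 : (p - pt X₀ (g X₀)) 1 = p 1 - g X₀ := by
    rw [PiLp.sub_apply, pt1]
  rw [e0, e1] at h5
  have h6 : |p 1 - g X₀| ≤ |p 1 - g (p 0)| + |g (p 0) - g X₀| := by
    have : p 1 - g X₀ = (p 1 - g (p 0)) + (g (p 0) - g X₀) := by ring
    rw [this]; exact abs_add_le _ _
  have h7 := hx.trans_le h4
  linarith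

end NEAR

end Pool.Agent.KS6_79.CK
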