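import Pool.Graph.R_seed8.H417R2.CH.MAINa
import Pool.Agent.KS6_79.CK.MAINb
import Pool.Agent.KS6_79.CK.NEAR

set_option autoImplicit false
open MeasureTheory Metric Set Filter Topology
open scoped NNReal

namespace Pool.Agent.KS6_79.CK

open Pool.Agent.H417R2.CH

namespace MAIN

theorem norm_le_V (p : V) : ‖p‖ ≤ |p 0| + |p 1| := by
  have h := Pool.Agent.Helper546.norm_sq_V p
  have h1 : ‖p‖ ^ 2 ≤ (|p 0| + |p 1|) ^ 2 := by
    rw [h, add_sq, sq_abs, sq_abs]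
    nlinarith [mul_nonneg (abs_nonneg (p 0)) (abs_nonneg (p 1))]
  exact le_of_sq_le_sq h1 (by positivity)

theorem norm_pt0 (x : ℝ) : ‖pt x 0‖ = |x| := by
  have h := Pool.Agent.Helper546.norm_sq_V (pt x 0)
  have h1 : ‖pt x 0‖ ^ 2 = |x| ^ 2 := by
    rw [h, sq_abs]; simp [pt]
  nlinarith [norm_nonneg (pt x 0), abs_nonneg x, sq_nonneg (‖pt x 0‖ - |x|),
    mul_self_nonneg (‖pt x 0‖ + |x|), abs_le_of_sq_le_sq h1.le (abs_nonneg x),
    (sq_le_sq₀ (norm_nonneg (pt x 0)) (abs_nonneg x)).1 h1.le,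
    (sq_le_sq₀ (abs_nonneg x) (norm_nonneg (pt x 0))).1 h1.ge]

/-- concavity of the area variation -/
theorem FF_concave {g : ℝ → ℝ} {r δ₀ : ℝ} (h0 : 0 < δ₀)
    (hc : ∀ φ : ℝ → ℝ, Continuous φ → ContinuousOn (gr (fun z => g z + φ z) r) (Icc (-δ₀) δ₀))
    (hcon : ∀ φ₁ φ₂ : ℝ → ℝ, Continuous φ₁ → Continuous φ₂ → ∀ θ ∈ Icc (0 : ℝ) 1,
      ∀ x ∈ Icc (-δ₀) δ₀,
      (1 - θ) * gr (fun z => g z + φ₁ z) r x + θ * gr (fun z => g z + φ₂ z) r x ≤
        gr (fun z => g z + ((1 - θ) * φ₁ z + θ * φ₂ z)) r x)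
    {φ₁ φ₂ : ℝ → ℝ} (h1 : Continuous φ₁) (h2 : Continuous φ₂) {θ : ℝ} (hθ : θ ∈ Icc (0 : ℝ) 1) :
    (1 - θ) * FF g r δ₀ φ₁ + θ * FF g r δ₀ φ₂ ≤
      FF g r δ₀ (fun z => (1 - θ) * φ₁ z + θ * φ₂ z) := by
  have hle : (-δ₀) ≤ δ₀ := by linarith
  have hz : gr (fun z => g z + (fun _ => (0:ℝ)) z) r = gr g r := by simp
  have c0 : ContinuousOn (gr g r) (Icc (-δ₀) δ₀) := by
    have := hc (fun _ => 0) continuous_const
    rwa [hz] at this
  have i0 := c0.intervalIntegrable_of_Icc (μ := volume) hle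
  have i1 := (hc φ₁ h1).intervalIntegrable_of_Icc (μ := volume) hle
  have i2 := (hc φ₂ h2).intervalIntegrable_of_Icc (μ := volume) hle
  have i3 := (hc (fun z => (1 - θ) * φ₁ z + θ * φ₂ z)
    ((continuous_const.mul h1).add (continuous_const.mul h2))).intervalIntegrable_of_Icc
      (μ := volume) hle
  unfold FF
  rw [← intervalIntegral.integral_const_mul, ← intervalIntegral.integral_const_mul,
    ← intervalIntegral.integral_add ((i1.sub i0).const_mul _) ((i2.sub i0).const_mul _)]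
  apply intervalIntegral.integral_mono_on hle
    (((i1.sub i0).const_mul _).add ((i2.sub i0).const_mul _)) (i3.sub i0)
  intro x hx
  have := hcon φ₁ φ₂ h1 h2 θ hθ x hx
  linarith

theorem FF_zero (g : ℝ → ℝ) (r δ₀ : ℝ) : FF g r δ₀ (fun _ => 0) = 0 := by
  unfold FF; simp

/-- final numerical contradiction -/
theorem final_num {lm r c q C T L la lb : ℝ} (hlm : 0 < lm) (hr : 0 < r) (hc : 0 < c) (hq : 0 < q)
    (hcq : c * q ≤ r) (hCT : 0 ≤ C * T * L) (ha : lm * r ^ 2 ≤ la * (r - c * q) ^ 2)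
    (hb : lm ≤ lb) (hab : la * lb ≤ lm ^ 2 * (1 + C * T * L)) : c * q ≤ C * T * L * r := by
  have hla : 0 < la := by
    by_contra h
    have h1 : la * (r - c * q) ^ 2 ≤ 0 := mul_nonpos_of_nonpos_of_nonneg (not_lt.1 h) (sq_nonneg _)
    have h2 : 0 < lm * r ^ 2 := by positivity
    linarith
  have h1 : lm ^ 2 * r ^ 2 ≤ lm ^ 2 * (1 + C * T * L) * (r - c * q) ^ 2 := by
    have h2 : lm * (lm * r ^ 2) ≤ lb * (la * (r - c * q) ^ 2) :=
      mul_le_mul hb ha (by positivity) (by linarith)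
    have h3 : la * lb * (r - c * q) ^ 2 ≤ lm ^ 2 * (1 + C * T * L) * (r - c * q) ^ 2 :=
      mul_le_mul_of_nonneg_right hab (sq_nonneg _)
    nlinarith
  have h4 : r ^ 2 ≤ (1 + C * T * L) * (r - c * q) ^ 2 := by
    have h5 : 0 < lm ^ 2 := by positivity
    by_contra hcon
    have h6 := mul_lt_mul_of_pos_left (not_le.1 hcon) h5
    linarith
  have hcq0 : 0 < c * q := mul_pos hc hq
  have h5 : (r - c * q) ^ 2 ≤ r ^ 2 - r * (c * q) := by nlinarith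
  have h6 : r ^ 2 ≤ (1 + C * T * L) * (r ^ 2 - r * (c * q)) :=
    h4.trans (mul_le_mul_of_nonneg_left h5 (by linarith))
  have h7 : r * (c * q) ≤ C * T * L * (r ^ 2 - r * (c * q)) := by nlinarith
  have h8 : C * T * L * (r ^ 2 - r * (c * q)) ≤ C * T * L * r ^ 2 := by
    apply mul_le_mul_of_nonneg_left _ hCT
    nlinarith [mul_pos hr hcq0]
  have h9 : r * (c * q) ≤ r * (C * T * L * r) := by nlinarith
  exact le_of_mul_le_mul_left h9 hr

/-- contribution of one interval -/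
theorem one_interval {s H x cL len4 v : ℝ} (hx : 0 < x) (hH : 0 < H) (hcL : 0 < cL)
    (hs : 3 / 4 * (H / x) ≤ s) (hl : 3 / 4 * (cL * x) ≤ len4) :
    cL / 4 * (v ^ 2 * H ^ 2 / x) ≤ (v * s) ^ 2 * len4 := by
  have h1 : 0 < H / x := by positivity
  have h2 : (3 / 4 * (H / x)) ^ 2 ≤ s ^ 2 := pow_le_pow_left₀ (by positivity) hs 2
  have h3 : (3 / 4 * (H / x)) ^ 2 * (3 / 4 * (cL * x)) ≤ s ^ 2 * len4 :=
    mul_le_mul h2 hl (by positivity) (by positivity)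
  have h4 : (3 / 4 * (H / x)) ^ 2 * (3 / 4 * (cL * x)) = 27 / 64 * cL * (H ^ 2 / x) := by
    field_simp; ring
  rw [h4] at h3
  have h5 : 0 ≤ H ^ 2 / x := by positivity
  have h6 : cL / 4 * (H ^ 2 / x) ≤ s ^ 2 * len4 := by
    have : cL / 4 * (H ^ 2 / x) ≤ 27 / 64 * cL * (H ^ 2 / x) := by
      apply mul_le_mul_of_nonneg_right _ h5
      linarith
    linarith
  have h7 := mul_le_mul_of_nonneg_left h6 (sq_nonneg v)
  have e1 : v ^ 2 * (cL / 4 * (H ^ 2 / x)) = cL / 4 * (v ^ 2 * H ^ 2 / x) := by ring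
  have e2 : v ^ 2 * (s ^ 2 * len4) = (v * s) ^ 2 * len4 := by ring
  rw [e1, e2] at h7
  exact h7

/-- comparison of the logarithmic cost and the gain for one interval -/
theorem one_cost {A C x y z : ℝ} (hC : 0 < C) (hx : 0 < x) (hxz : x ≤ z) (hy : 0 < y) (hy1 : y ≤ 1)
    (h : C * (1 + Real.log (1 / x)) < A / x) : C * (1 + Real.log (y / z)) < A / x := by
  refine lt_of_le_of_lt ?_ h
  apply mul_le_mul_of_nonneg_left _ hC.le
  have : Real.log (y / z) ≤ Real.log (1 / x) := by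
    apply Real.log_le_log (div_pos hy (by linarith))
    exact div_le_div₀ (by norm_num) hy1 hx hxz
  linarith

/-- choice of six bends -/
structure Pts (X₀ w cL p1 p2 p3 p4 p5 p6 ε : ℝ) : Prop where
  e0 : 0 < ε
  ew : ε ≤ w / 16
  X6 : X₀ < p6 - ε
  X3 : X₀ < p3 - ε
  X6' : X₀ < p6
  X3' : X₀ < p3
  x1 : 0 < p2 - p3
  x2 : 0 < p5 - p6
  L1 : p3 - X₀ ≤ cL * (p2 - X₀)
  L2 : p6 - X₀ ≤ cL * (p5 - X₀)
  o1 : p3 + 4 * ε < p2
  o2 : p2 + 4 * ε < p1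
  o3 : p6 + 4 * ε < p5
  o4 : p5 + 4 * ε < p4
  o5 : p4 + ε < p3 - ε
  o6 : p5 < p3
  s1 : p2 - p3 + 2 * ε ≤ p1 - p2
  s2 : p5 - p6 + 2 * ε ≤ p4 - p5
  k1 : 4 * ε ≤ cL * (p2 - p3) / 4
  k2 : 4 * ε ≤ cL * (p5 - p6) / 4
  t1 : p1 + ε < X₀ + w
  t4 : p4 + ε < X₀ + w
  t2 : p2 - X₀ ≤ w
  t5 : p5 - X₀ ≤ w

theorem pts {P : ℝ → Prop} {X₀ w cL : ℝ} (hP : ∀ ε : ℝ, 0 < ε → ∃ q ∈ Ioo X₀ (X₀ + ε), P q)
    (hw0 : 0 < w) (hcL : 0 < cL) : ∃ p1 p2 p3 p4 p5 p6 ε : ℝ, Pts X₀ w cL p1 p2 p3 p4 p5 p6 ε ∧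
      P p1 ∧ P p2 ∧ P p3 ∧ P p4 ∧ P p5 ∧ P p6 := by
  set c4 := min cL (1 / 4) with hc4
  have hc40 : 0 < c4 := lt_min hcL (by norm_num)
  have hc4L : c4 ≤ cL := min_le_left _ _
  have hc44 : c4 ≤ 1 / 4 := min_le_right _ _
  obtain ⟨p1, hp1, hb1⟩ := hP (w / 2) (by positivity)
  obtain ⟨p2, hp2, hb2⟩ := hP ((p1 - X₀) / 4) (by linarith [hp1.1])
  obtain ⟨p3, hp3, hb3⟩ := hP (c4 * (p2 - X₀)) (mul_pos hc40 (by linarith [hp2.1]))
  obtain ⟨p4, hp4, hb4⟩ := hP ((p3 - X₀) / 4) (by linarith [hp3.1])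
  obtain ⟨p5, hp5, hb5⟩ := hP ((p4 - X₀) / 4) (by linarith [hp4.1])
  obtain ⟨p6, hp6, hb6⟩ := hP (c4 * (p5 - X₀)) (mul_pos hc40 (by linarith [hp5.1]))
  obtain ⟨hp1a, hp1b⟩ := hp1
  obtain ⟨hp2a, hp2b⟩ := hp2
  obtain ⟨hp3a, hp3b⟩ := hp3
  obtain ⟨hp4a, hp4b⟩ := hp4
  obtain ⟨hp5a, hp5b⟩ := hp5
  obtain ⟨hp6a, hp6b⟩ := hp6
  have hp3c : p3 - X₀ < (p2 - X₀) / 4 := by
    have : c4 * (p2 - X₀) ≤ 1 / 4 * (p2 - X₀) := mul_le_mul_of_nonneg_right hc44 (by linarith)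
    linarith
  have hp6c : p6 - X₀ < (p5 - X₀) / 4 := by
    have : c4 * (p5 - X₀) ≤ 1 / 4 * (p5 - X₀) := mul_le_mul_of_nonneg_right hc44 (by linarith)
    linarith
  have hp3L : p3 - X₀ ≤ cL * (p2 - X₀) := by
    have : c4 * (p2 - X₀) ≤ cL * (p2 - X₀) := mul_le_mul_of_nonneg_right hc4L (by linarith)
    linarith
  have hp6L : p6 - X₀ ≤ cL * (p5 - X₀) := by
    have : c4 * (p5 - X₀) ≤ cL * (p5 - X₀) := mul_le_mul_of_nonneg_right hc4L (by linarith)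
    linarith
  have hx1 : 0 < p2 - p3 := by linarith
  have hx2 : 0 < p5 - p6 := by linarith
  set ε := min (min (c4 * (p2 - p3) / 16) (c4 * (p5 - p6) / 16)) ((p6 - X₀) / 16) with hε
  have hε0 : 0 < ε := lt_min (lt_min (by positivity) (by positivity)) (by linarith)
  have hε1 : ε ≤ c4 * (p2 - p3) / 16 := (min_le_left _ _).trans (min_le_left _ _)
  have hε2 : ε ≤ c4 * (p5 - p6) / 16 := (min_le_left _ _).trans (min_le_right _ _)
  have hε3 : ε ≤ (p6 - X₀) / 16 := min_le_right _ _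
  have hε1' : ε ≤ (p2 - p3) / 64 := by
    have : c4 * (p2 - p3) ≤ 1 / 4 * (p2 - p3) := mul_le_mul_of_nonneg_right hc44 hx1.le
    linarith
  have hε2' : ε ≤ (p5 - p6) / 64 := by
    have : c4 * (p5 - p6) ≤ 1 / 4 * (p5 - p6) := mul_le_mul_of_nonneg_right hc44 hx2.le
    linarith
  have hk1 : 4 * ε ≤ cL * (p2 - p3) / 4 := by
    have : c4 * (p2 - p3) ≤ cL * (p2 - p3) := mul_le_mul_of_nonneg_right hc4L hx1.le
    linarith
  have hk2 : 4 * ε ≤ cL * (p5 - p6) / 4 := by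
    have : c4 * (p5 - p6) ≤ cL * (p5 - p6) := mul_le_mul_of_nonneg_right hc4L hx2.le
    linarith
  clear_value ε
  clear hε hε1 hε2 hc4 hp3b hp6b
  refine ⟨p1, p2, p3, p4, p5, p6, ε, ⟨hε0, by linarith, by linarith, by linarith, hp6a, hp3a, hx1,
    hx2, hp3L, hp6L, by linarith, by linarith, by linarith, by linarith, by linarith, by linarith,
    by linarith, by linarith, hk1, hk2, by linarith, by linarith, by linarith, by linarith⟩,
    hb1, hb2, hb3, hb4, hb5, hb6⟩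

/-- gain versus cost -/
theorem cost {v₁ v₂ H₁ H₂ a1 a2 b1 b2 A C Q Lg : ℝ} (hv : |v₁| + |v₂| = 1) (hH1 : 0 < H₁)
    (hH2 : 0 < H₂) (hx1 : 0 < a1) (hx2 : 0 < a2)
    (hQ : Q = v₁ ^ 2 * H₁ ^ 2 / a1 + v₂ ^ 2 * H₂ ^ 2 / a2)
    (hLg : Lg = v₁ ^ 2 * H₁ ^ 2 * b1 + v₂ ^ 2 * H₂ ^ 2 * b2)
    (k1 : C * b1 < A / a1) (k2 : C * b2 < A / a2) : 0 < Q ∧ C * Lg < A * Q := by
  have e1 : C * Lg = v₁ ^ 2 * H₁ ^ 2 * (C * b1) + v₂ ^ 2 * H₂ ^ 2 * (C * b2) := by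
    rw [hLg]; ring
  have e2 : A * Q = v₁ ^ 2 * H₁ ^ 2 * (A / a1) + v₂ ^ 2 * H₂ ^ 2 * (A / a2) := by
    rw [hQ]; ring
  have n1 : 0 ≤ v₁ ^ 2 * H₁ ^ 2 := by positivity
  have n2 : 0 ≤ v₂ ^ 2 * H₂ ^ 2 := by positivity
  have h2 : 0 ≤ v₁ ^ 2 * H₁ ^ 2 / a1 := by positivity
  have h3 : 0 ≤ v₂ ^ 2 * H₂ ^ 2 / a2 := by positivity
  rw [e1, e2, hQ]
  by_cases hv1 : v₁ = 0
  · have hv2 : v₂ ≠ 0 := by
      intro h; rw [hv1, h] at hv; simp at hv
    have n3 : 0 < v₂ ^ 2 * H₂ ^ 2 := by positivity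
    have h4 : 0 < v₂ ^ 2 * H₂ ^ 2 / a2 := by positivity
    have h5 := mul_lt_mul_of_pos_left k2 n3
    have h6 := mul_le_mul_of_nonneg_left k1.le n1
    constructor <;> linarith
  · have n3 : 0 < v₁ ^ 2 * H₁ ^ 2 := by positivity
    have h4 : 0 < v₁ ^ 2 * H₁ ^ 2 / a1 := by positivity
    have h5 := mul_lt_mul_of_pos_left k1 n3
    have h6 := mul_le_mul_of_nonneg_left k2.le n2
    constructor <;> linarith

/-- end of the argument -/
theorem last (hREG : S_REG) {U : Set V} {r α β δ₀ c q₀ κ' Q C Lg Bφ B ε' m' w₂ : ℝ}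
    {l g φ : ℝ → ℝ} {x₀ : V}
    (hgood : Good U r) (hlm : 0 < lam U) (hB : ∀ x ∈ Ioo α β, -B ≤ l x ∧ g x ≤ B)
    (hε' : 0 < ε') (hw₂ : 0 < w₂)
    (hdn : ∀ (U' : Set V) (ρ : ℝ), PC U' → symmDiff U U' ⊆ ball x₀ ε' → 0 < ρ → r - ε' < ρ →
      ρ ≤ r → ar (Inn U' ρ) ≤ Real.pi * ρ ^ 2 → lam U + m' * (r - ρ) ≤ lam U')
    (hsy : ∀ s : ℝ, |s| * Bφ ≤ w₂ →
      symmDiff U (Reg α β l (fun x => g x + s * φ x)) ⊆ ball x₀ ε')
    (hc : 0 < c) (hq₀ : 0 < q₀) (hcq₀ : c * q₀ < r)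
    (hshr : ∀ U' : Set V, PC U' → U' ⊆ ball 0 (|α| + |β| + B + 2) → ∀ q : ℝ, 0 < q → q ≤ q₀ →
      ar (Inn U' r) ≤ Real.pi * r ^ 2 - q →
        ar (Inn U' (r - c * q)) ≤ Real.pi * (r - c * q) ^ 2)
    (hκ' : 0 < κ') (hQ0 : 0 < Q) (hBφ : 0 < Bφ) (hφb : ∀ x, |φ x| ≤ Bφ)
    {t1 t2 t3 t4 : ℝ} (ht1 : 0 < t1) (ht2 : 0 < t2) (ht3 : 0 < t3) (ht4 : 0 < t4)
    (hGQ : ∀ t : ℝ, |t| ≤ t1 →
      FF g r δ₀ (fun x => t * φ x) + FF g r δ₀ (fun x => -t * φ x) ≤ -(κ' * t ^ 2 * Q))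
    (hFle : ∀ t : ℝ, FF g r δ₀ (fun x => t * φ x) ≤ 0)
    (hAr : ∀ t : ℝ, |t| ≤ t2 → ar (Inn (Reg α β l (fun x => g x + t * φ x)) r) ≤
          ar (Inn U r) + FF g r δ₀ (fun x => t * φ x))
    (hRg : ∀ t : ℝ, |t| ≤ t3 → RegD α β l (fun x => g x + t * φ x))
    (hBl : ∀ t : ℝ, |t| ≤ t4 → lam (Reg α β l (fun x => g x + t * φ x)) *
          lam (Reg α β l (fun x => g x + -t * φ x)) ≤ lam U ^ 2 * (1 + C * t ^ 2 * Lg))
    (hcost : C * lam U * Lg < c * m' * κ' / 2 * Q) : False := by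
  have hr := hgood.r_pos
  set t := min (min (min (min t1 t2) (min t3 t4)) (min (min 1 (q₀ / (κ' * Q))) (1 / Bφ)))
    (min (w₂ / Bφ) (ε' / (c * κ' * Q))) with ht
  have htpos : 0 < t := by
    refine lt_min (lt_min (lt_min (lt_min ht1 ht2) (lt_min ht3 ht4))
      (lt_min (lt_min one_pos ?_) ?_)) (lt_min ?_ ?_)
    · positivity
    · positivity
    · positivity
    · positivity
  have ht' : t ≤ min (min (min t1 t2) (min t3 t4)) (min (min 1 (q₀ / (κ' * Q))) (1 / Bφ)) :=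
    min_le_left _ _
  have hta : t ≤ t1 :=
    ht'.trans ((min_le_left _ _).trans ((min_le_left _ _).trans (min_le_left _ _)))
  have htb : t ≤ t2 :=
    ht'.trans ((min_le_left _ _).trans ((min_le_left _ _).trans (min_le_right _ _)))
  have htc : t ≤ t3 :=
    ht'.trans ((min_le_left _ _).trans ((min_le_right _ _).trans (min_le_left _ _)))
  have htd : t ≤ t4 :=
    ht'.trans ((min_le_left _ _).trans ((min_le_right _ _).trans (min_le_right _ _)))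
  have hte : t ≤ 1 :=
    ht'.trans ((min_le_right _ _).trans ((min_le_left _ _).trans (min_le_left _ _)))
  have htf : t ≤ q₀ / (κ' * Q) :=
    ht'.trans ((min_le_right _ _).trans ((min_le_left _ _).trans (min_le_right _ _)))
  have htg : t ≤ 1 / Bφ := ht'.trans ((min_le_right _ _).trans (min_le_right _ _))
  have hth : t ≤ w₂ / Bφ := (min_le_right _ _).trans (min_le_left _ _)
  have hti : t ≤ ε' / (c * κ' * Q) := (min_le_right _ _).trans (min_le_right _ _)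
  clear_value t
  clear ht ht'
  set Ut : ℝ → Set V := fun t => Reg α β l (fun x => g x + t * φ x) with hUt
  have hsub : ∀ s : ℝ, |s| ≤ t → Ut s ⊆ ball 0 (|α| + |β| + B + 2) := by
    intro s hs p hp
    obtain ⟨q1, q2, q3, q4⟩ := hp
    have hb := hB (p 0) ⟨q1, q2⟩
    have h2 : |s * φ (p 0)| ≤ 1 := by
      rw [abs_mul]
      calc |s| * |φ (p 0)| ≤ (1 / Bφ) * Bφ :=
            mul_le_mul (hs.trans htg) (hφb _) (abs_nonneg _) (by positivity)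
        _ = 1 := by field_simp
    have h3 := (abs_le.1 h2).2
    rw [mem_ball, dist_zero_right]
    have h4 : |p 1| ≤ B + 1 := by
      rw [abs_le]; constructor <;> linarith [hb.1, hb.2]
    have h5 : |p 0| ≤ |α| + |β| := by
      rw [abs_le]
      constructor
      · linarith [neg_abs_le α, abs_nonneg β]
      · linarith [le_abs_self β, abs_nonneg α]
    have := norm_le_V p
    linarith
  have hPC : ∀ s : ℝ, |s| ≤ t → PC (Ut s) := fun s hs =>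
    hREG.1 α β l _ (hRg s (hs.trans htc))
  have hsy' : ∀ s : ℝ, |s| ≤ t → symmDiff U (Ut s) ⊆ ball x₀ ε' := fun s hs =>
    hsy s (by
      have := hs.trans hth
      rwa [le_div_iff₀ hBφ] at this)
  have harea := hgood.area
  have hplain : ∀ s : ℝ, |s| ≤ t → lam U ≤ lam (Ut s) := by
    intro s hs
    have h2 := hAr s (hs.trans htb)
    have h3 := hFle s
    have h4 := hdn (Ut s) r (hPC s hs) (hsy' s hs) hr (by linarith) le_rfl (by linarith)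
    rw [sub_self, mul_zero, add_zero] at h4
    exact h4
  set q := κ' * t ^ 2 * Q / 2 with hq
  have hq0 : 0 < q := by rw [hq]; positivity
  have htt : t ^ 2 ≤ t := by nlinarith only [htpos, hte]
  have hqq : q ≤ q₀ := by
    have h3 : κ' * Q * t ≤ q₀ := by
      rw [le_div_iff₀ (by positivity)] at htf; linarith
    have h4 : κ' * Q * t ^ 2 ≤ κ' * Q * t := mul_le_mul_of_nonneg_left htt (by positivity)
    have h5 : 0 ≤ κ' * Q * t ^ 2 := by positivity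
    rw [hq]; linarith
  have hcqε : c * q < ε' := by
    have h3 : c * κ' * Q * t ≤ ε' := by
      rw [le_div_iff₀ (by positivity)] at hti; linarith
    have h4 : c * κ' * Q * t ^ 2 ≤ c * κ' * Q * t :=
      mul_le_mul_of_nonneg_left htt (by positivity)
    have h5 : 0 < c * κ' * Q * t ^ 2 := by positivity
    have h6 : c * q = c * κ' * Q * t ^ 2 / 2 := by rw [hq]; ring
    rw [h6]; linarith
  have hcq' : c * q ≤ c * q₀ := mul_le_mul_of_nonneg_left hqq hc.le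
  have hcq0 : 0 < c * q := mul_pos hc hq0
  have hgainS : ∀ s : ℝ, |s| ≤ t → FF g r δ₀ (fun x => s * φ x) ≤ -q →
      lam U + m' * (c * q) ≤ lam (Ut s) := by
    intro s hs hFs
    have h2 := hAr s (hs.trans htb)
    have h3 := hshr (Ut s) (hPC s hs) (hsub s hs) q hq0 hqq (by linarith)
    have h4 : 0 < r - c * q := by linarith
    have h5 := hdn (Ut s) (r - c * q) (hPC s hs) (hsy' s hs) h4 (by linarith) (by linarith) h3
    have e : r - (r - c * q) = c * q := by ring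
    rw [e] at h5
    exact h5
  have habs : |t| ≤ t := by rw [abs_of_pos htpos]
  have habs' : |-t| ≤ t := by rw [abs_neg, abs_of_pos htpos]
  have hprod := hBl t (habs.trans htd)
  have hsumQ := hGQ t (habs.trans hta)
  have hnum : ∀ la lb : ℝ, lam U + m' * (c * q) ≤ la → lam U ≤ lb →
      la * lb ≤ lam U ^ 2 * (1 + C * t ^ 2 * Lg) → m' * (c * q) ≤ lam U * (C * t ^ 2 * Lg) := by
    intro la lb h1 h2 h3
    rcases le_or_gt (m' * (c * q)) 0 with h0 | h0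
    · by_contra hcon
      push Not at hcon
      have h4 : lam U * (C * t ^ 2 * Lg) < 0 := hcon.trans_le h0
      have h5 := mul_lt_mul_of_pos_left hcost (show 0 < t ^ 2 by positivity)
      have h6 : t ^ 2 * (c * m' * κ' / 2 * Q) = m' * (c * q) := by rw [hq]; ring
      have h7 : t ^ 2 * (C * lam U * Lg) = lam U * (C * t ^ 2 * Lg) := by ring
      have h8 : lam U ≤ lam (Ut t) := hplain t habs
      have h9 : lam U ≤ lam (Ut (-t)) := hplain (-t) habs'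
      have h10 : lam U * lam U ≤ lam (Ut t) * lam (Ut (-t)) :=
        mul_le_mul h8 h9 hlm.le (by linarith)
      have h11 : lam U * lam U ≤ lam U ^ 2 * (1 + C * t ^ 2 * Lg) := h10.trans hprod
      nlinarith
    · have h4 : (lam U + m' * (c * q)) * lam U ≤ la * lb :=
        mul_le_mul h1 h2 hlm.le (by linarith)
      have h5 : lam U * (m' * (c * q)) ≤ lam U * (lam U * (C * t ^ 2 * Lg)) := by nlinarith
      exact le_of_mul_le_mul_left h5 hlm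
  have hfin : m' * (c * q) ≤ lam U * (C * t ^ 2 * Lg) := by
    rcases le_or_gt (FF g r δ₀ (fun x => t * φ x)) (-q) with h | h
    · exact hnum _ _ (hgainS t habs h) (hplain (-t) habs') hprod
    · have h2 : FF g r δ₀ (fun x => -t * φ x) ≤ -q := by linarith
      refine hnum _ _ (hgainS (-t) habs' h2) (hplain t habs) ?_
      rw [mul_comm]; exact hprod
  have h2 : m' * (c * q) = t ^ 2 * (c * m' * κ' / 2 * Q) := by rw [hq]; ring
  have h3 : lam U * (C * t ^ 2 * Lg) = t ^ 2 * (C * lam U * Lg) := by ring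
  rw [h2, h3] at hfin
  have h4 := mul_lt_mul_of_pos_left hcost (show 0 < t ^ 2 by positivity)
  linarith

end MAIN

open MAINa MAINb MAIN in
theorem t_MAIN (hEIG : S_EIG) (hHAT : S_HAT) (hADM : S_ADM) (hREG : S_REG) (hLOW : S_LOW)
    (hBLM : S_BLM) (hGNP : S_GNP) (hGRF : S_GRF) (hCTB : S_CTB) (hARE : S_ARE) (hSUP : S_SUP)
    (hSHR : S_SHR) : S_MAIN := by
  intro U r α β l g R k X₀ hF
  have hgood := hF.good
  have hr := hgood.r_pos
  obtain ⟨u, hu⟩ := hEIG U hgood.pc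
  have hlm : 0 < lam U := hu.lampos
  have hRr := hF.hR
  obtain ⟨δ₀, h0, h1⟩ : ∃ δ₀ : ℝ, 0 < δ₀ ∧ δ₀ < R - r := ⟨(R - r) / 2, by linarith, by linarith⟩
  obtain ⟨κ, hκ, hgain⟩ := MAINb.gain hCTB hGRF hGNP hF h0 h1
  obtain ⟨cL, wL, hcL, hwL, hlow⟩ := hLOW U r α β l g R k X₀ hF δ₀ h0 h1
  obtain ⟨C, wB, hC, hwB, hblm⟩ := hBLM U r α β l g R k X₀ hF
  obtain ⟨B, hB⟩ := hF.reg.bd
  obtain ⟨hgc, hgcon, -⟩ := hGRF U r α β l g R k X₀ hF δ₀ h0 h1
  -- the interval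
  have hIn : ∀ x : ℝ, |x| < R → α < x ∧ x < β := by
    intro x hx
    have h2 : pt x 0 ∈ U := hF.hball (by
      rw [mem_ball, dist_zero_right, norm_pt0]; exact hx)
    rw [hF.eq] at h2
    have h3 : (pt x 0) 0 = x := by simp [pt]
    obtain ⟨h4, h5, -, -⟩ := h2
    rw [h3] at h4 h5
    exact ⟨h4, h5⟩
  obtain ⟨hαX, hXβ⟩ := hIn X₀ (hF.hX.trans hRr)
  have hB0 : 0 < B := by
    have h2 := hB X₀ ⟨hαX, hXβ⟩
    have h3 := hF.reg.lg X₀ ⟨hαX, hXβ⟩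
    linarith [h2.1, h2.2]
  have hM0 : 0 < |α| + |β| + B + 2 := by positivity
  obtain ⟨c, q₀, hc, hq₀, hcq₀, hshr⟩ := hSHR _ r hM0 hr
  obtain ⟨ε', m', M', hε', hm', hM', hdn, -⟩ := hF.loc
  obtain ⟨w₂, hw₂, hnear⟩ := NEAR.near_reg hF.reg (X₀ := X₀) ⟨hαX, hXβ⟩ hε'
  obtain ⟨κ', hκ'⟩ : ∃ κ', κ' = κ * (cL / 4) := ⟨_, rfl⟩
  have hκ'0 : 0 < κ' := by rw [hκ']; positivity
  obtain ⟨x₁, hx₁, hx₁1, hlog⟩ := log_small (c * m' * κ' / 2) (C * lam U) (by positivity) (by positivity)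
  -- the window
  obtain ⟨w, hw0, hw1, hw2, hw3, hw4, hw5, hw6⟩ : ∃ w : ℝ, 0 < w ∧ w ≤ wL ∧ w ≤ wB ∧ w ≤ x₁ ∧
      w ≤ δ₀ ∧ w ≤ β - X₀ ∧ w ≤ w₂ := by
    refine ⟨min (min (min (min wL wB) (min x₁ δ₀)) (β - X₀)) w₂,
      lt_min (lt_min (lt_min (lt_min hwL hwB) (lt_min hx₁ h0)) (by linarith)) hw₂,
      ?_, ?_, ?_, ?_, ?_, min_le_right _ _⟩
    all_goals refine (min_le_left _ _).trans ?_
    · exact (min_le_left _ _).trans ((min_le_left _ _).trans (min_le_left _ _))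
    · exact (min_le_left _ _).trans ((min_le_left _ _).trans (min_le_right _ _))
    · exact (min_le_left _ _).trans ((min_le_right _ _).trans (min_le_left _ _))
    · exact (min_le_left _ _).trans ((min_le_right _ _).trans (min_le_right _ _))
    · exact min_le_right _ _
  obtain ⟨p1, p2, p3, p4, p5, p6, ε, hp, hb1, hb2, hb3, hb4, hb5, hb6⟩ := pts hF.bends hw0 hcL
  have hε0 := hp.e0
  have hε4 : ε < 1 / 4 := by linarith only [hp.ew, hw3, hx₁1]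
  obtain ⟨φ₁, H₁, hA1, hS1⟩ := hHAT α β g hF.reg.cg p3 p2 p1 ε hε0 hε4
    (by linarith only [hp.X3, hαX]) hp.o1 hp.o2 (by linarith only [hp.t1, hw5]) hb3 hb2 hb1
  obtain ⟨φ₂, H₂, hA2, hS2⟩ := hHAT α β g hF.reg.cg p6 p5 p4 ε hε0 hε4
    (by linarith only [hp.X6, hαX]) hp.o3 hp.o4 (by linarith only [hp.t4, hw5]) hb6 hb5 hb4
  have hL1 := HL_of_HatS hS1 hA1 hε0 hε4 hp.o1 hp.s1
  have hL2 := HL_of_HatS hS2 hA2 hε0 hε4 hp.o3 hp.s2
  have hH1 := hS1.H_pos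
  have hH2 := hS2.H_pos
  obtain ⟨s₁, hs₁, haff1⟩ := hS1.aff
  obtain ⟨s₂, hs₂, haff2⟩ := hS2.aff
  have hcont1 := (hADM.1 α β g φ₁ _ _ hA1).1
  have hcont2 := (hADM.1 α β g φ₂ _ _ hA2).1
  have hx1 := hp.x1
  have hx2 := hp.x2
  have hs1' : 3 / 4 * (H₁ / (p2 - p3)) ≤ s₁ := by
    refine le_trans (mul_le_mul_of_nonneg_right ?_ (by positivity)) hs₁
    linarith only [hε4]
  have hs2' : 3 / 4 * (H₂ / (p5 - p6)) ≤ s₂ := by
    refine le_trans (mul_le_mul_of_nonneg_right ?_ (by positivity)) hs₂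
    linarith only [hε4]
  -- the direction
  obtain ⟨v₁, v₂, hv, hvF⟩ := hSUP (fun a b => FF g r δ₀ (fun z => a * φ₁ z + b * φ₂ z)) (by
    intro a b c d θ hθ
    have := FF_concave (g := g) (r := r) h0 hgc hgcon (φ₁ := fun z => a * φ₁ z + b * φ₂ z)
      (φ₂ := fun z => c * φ₁ z + d * φ₂ z)
      ((continuous_const.mul hcont1).add (continuous_const.mul hcont2))
      ((continuous_const.mul hcont1).add (continuous_const.mul hcont2)) hθ
    have e : (fun z => (1 - θ) * (a * φ₁ z + b * φ₂ z) + θ * (c * φ₁ z + d * φ₂ z)) =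
        fun z => ((1 - θ) * a + θ * c) * φ₁ z + ((1 - θ) * b + θ * d) * φ₂ z := by
      funext z; ring
    rw [e] at this
    exact this) (by
    have e : (fun z => (0:ℝ) * φ₁ z + 0 * φ₂ z) = fun _ => 0 := by funext z; ring
    show FF g r δ₀ (fun z => (0:ℝ) * φ₁ z + 0 * φ₂ z) = 0
    rw [e]; exact FF_zero g r δ₀)
  set φ : ℝ → ℝ := fun x => v₁ * φ₁ x + v₂ * φ₂ x with hφ
  have hφc : Continuous φ := (continuous_const.mul hcont1).add (continuous_const.mul hcont2)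
  have hFle : ∀ t : ℝ, FF g r δ₀ (fun x => t * φ x) ≤ 0 := by
    intro t
    have := hvF t
    have e : (fun z => t * v₁ * φ₁ z + t * v₂ * φ₂ z) = fun x => t * φ x := by
      funext z; rw [hφ]; ring
    simp only [e] at this
    exact this
  -- affine on the two intervals
  have haf1 : ∀ x ∈ Icc (p3 + ε) (p2 - ε), ∀ y ∈ Icc (p3 + ε) (p2 - ε),
      φ x - φ y = v₁ * s₁ * (x - y) := by
    intro x hx y hy
    have z1 : φ₂ x = 0 := hA2.zero x (fun h => by linarith only [h.2, hx.1, hp.o5, hε0])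
    have z2 : φ₂ y = 0 := hA2.zero y (fun h => by linarith only [h.2, hy.1, hp.o5, hε0])
    have := haff1 x hx y hy
    rw [hφ]; simp only [z1, z2]
    linear_combination v₁ * this
  have haf2 : ∀ x ∈ Icc (p6 + ε) (p5 - ε), ∀ y ∈ Icc (p6 + ε) (p5 - ε),
      φ x - φ y = v₂ * s₂ * (x - y) := by
    intro x hx y hy
    have z1 : φ₁ x = 0 := hA1.zero x (fun h => by linarith only [h.1, hx.2, hp.o4, hp.o5, hε0])
    have z2 : φ₁ y = 0 := hA1.zero y (fun h => by linarith only [h.1, hy.2, hp.o4, hp.o5, hε0])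
    have := haff2 x hx y hy
    rw [hφ]; simp only [z1, z2]
    linear_combination v₂ * this
  obtain ⟨t1, ht1, hG⟩ := hgain φ hφc p3 p2 (v₁ * s₁) p6 p5 (v₂ * s₂) ε hε0 hp.o1 hp.o3 hp.o6
    haf1 haf2
  have hlow1 := hlow p3 p2 hp.X3' hp.L1 (hp.t2.trans hw1) hb3 hb2
  have hlow2 := hlow p6 p5 hp.X6' hp.L2 (hp.t5.trans hw1) hb6 hb5
  have hlen1 : 3 / 4 * (cL * (p2 - p3)) ≤ len (CS g r δ₀ (Icc p3 p2)) - 4 * ε := by
    have h3 : cL * (p2 - p3) ≤ cL * (p2 - X₀) :=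
      mul_le_mul_of_nonneg_left (by linarith only [hp.X3']) hcL.le
    linarith only [h3, hlow1, hp.k1]
  have hlen2 : 3 / 4 * (cL * (p5 - p6)) ≤ len (CS g r δ₀ (Icc p6 p5)) - 4 * ε := by
    have h3 : cL * (p5 - p6) ≤ cL * (p5 - X₀) :=
      mul_le_mul_of_nonneg_left (by linarith only [hp.X6']) hcL.le
    linarith only [h3, hlow2, hp.k2]
  have hone1 := one_interval (v := v₁) hx1 hH1 hcL hs1' hlen1
  have hone2 := one_interval (v := v₂) hx2 hH2 hcL hs2' hlen2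
  have hGQ : ∀ t : ℝ, |t| ≤ t1 →
      FF g r δ₀ (fun x => t * φ x) + FF g r δ₀ (fun x => -t * φ x) ≤ -(κ' * t ^ 2 *
        (v₁ ^ 2 * H₁ ^ 2 / (p2 - p3) + v₂ ^ 2 * H₂ ^ 2 / (p5 - p6))) := by
    intro t ht
    refine (hG t ht).trans ?_
    have h2 : 0 ≤ κ * t ^ 2 := by positivity
    have h3 := mul_le_mul_of_nonneg_left (add_le_add hone1 hone2) h2
    have h4 : κ * t ^ 2 * (cL / 4 * (v₁ ^ 2 * H₁ ^ 2 / (p2 - p3)) +
        cL / 4 * (v₂ ^ 2 * H₂ ^ 2 / (p5 - p6))) = κ' * t ^ 2 *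
        (v₁ ^ 2 * H₁ ^ 2 / (p2 - p3) + v₂ ^ 2 * H₂ ^ 2 / (p5 - p6)) := by
      rw [hκ']; ring
    linarith only [h3, h4]
  -- area
  have hAφ := hADM.2.1 α β g φ₁ φ₂ _ _ _ _ v₁ v₂ hA1 hA2 hF.reg.cg hv.le
  have hmn : X₀ < min (p3 - ε) (p6 - ε) := lt_min hp.X3 hp.X6
  have hmx : max (p1 + ε) (p4 + ε) < X₀ + δ₀ :=
    max_lt (by linarith only [hp.t1, hw4]) (by linarith only [hp.t4, hw4])
  obtain ⟨t2, ht2, hAr⟩ := hARE U r α β l g R k X₀ hF δ₀ h0 h1 φ _ _ hAφ hmn hmx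
  obtain ⟨t3, ht3, hRg⟩ := hADM.2.2 α β l g φ _ _ hF.reg hAφ
  obtain ⟨t4, ht4, hBl⟩ := hblm φ₁ φ₂ H₁ _ _ _ H₂ _ _ _ hL1 hL2 hA1 hA2 hp.X3 hp.X6
    (by linarith only [hp.t1, hw2]) (by linarith only [hp.t4, hw2]) v₁ v₂ hv.le
  have k1 := one_cost (A := c * m' * κ' / 2) (C := C * lam U) (x := p2 - p3) (y := p1 + ε - (p2 + ε))
      (z := p2 + ε - (p3 - ε)) (by positivity) hx1 (by linarith only [hε0])
      (by linarith only [hp.o2, hε0]) (by linarith only [hp.t1, hp.o1, hp.X3', hε0, hw3, hx₁1])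
      (hlog (p2 - p3) hx1 (by linarith only [hp.t2, hp.X3', hw3]))
  have k2 := one_cost (A := c * m' * κ' / 2) (C := C * lam U) (x := p5 - p6) (y := p4 + ε - (p5 + ε))
      (z := p5 + ε - (p6 - ε)) (by positivity) hx2 (by linarith only [hε0])
      (by linarith only [hp.o4, hε0]) (by linarith only [hp.t4, hp.o3, hp.X6', hε0, hw3, hx₁1])
      (hlog (p5 - p6) hx2 (by linarith only [hp.t5, hp.X6', hw3]))
  obtain ⟨hQ0, hcost⟩ := cost hv hH1 hH2 hx1 hx2 rfl rfl k1 k2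
  have hφb : ∀ x, |φ x| ≤ 2 * (H₁ + H₂) := by
    intro x
    have b1 := hL1.bound x
    have b2 := hL2.bound x
    have a1 : |v₁| ≤ 1 := by linarith only [abs_nonneg v₂, hv]
    have a2 : |v₂| ≤ 1 := by linarith only [abs_nonneg v₁, hv]
    calc |φ x| ≤ |v₁ * φ₁ x| + |v₂ * φ₂ x| := abs_add_le _ _
      _ = |v₁| * |φ₁ x| + |v₂| * |φ₂ x| := by rw [abs_mul, abs_mul]
      _ ≤ 1 * (2 * H₁) + 1 * (2 * H₂) := add_le_add
          (mul_le_mul a1 b1 (abs_nonneg _) (by norm_num))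
          (mul_le_mul a2 b2 (abs_nonneg _) (by norm_num))
      _ = 2 * (H₁ + H₂) := by ring
  have hsy : ∀ s : ℝ, |s| * (2 * (H₁ + H₂)) ≤ w₂ →
      symmDiff U (Reg α β l (fun x => g x + s * φ x)) ⊆ ball (pt X₀ (g X₀)) ε' := by
    intro s hs
    have := hnear (fun x => s * φ x) (fun x hx => by
      have z1 : φ₁ x = 0 := hA1.zero x (fun h => by
        have : |x - X₀| < w₂ := by
          rw [abs_lt]; constructor <;> linarith only [h.1, h.2, hp.X3, hp.t1, hw6, hw₂]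
        linarith)
      have z2 : φ₂ x = 0 := hA2.zero x (fun h => by
        have : |x - X₀| < w₂ := by
          rw [abs_lt]; constructor <;> linarith only [h.1, h.2, hp.X6, hp.t4, hw6, hw₂]
        linarith)
      show s * (v₁ * φ₁ x + v₂ * φ₂ x) = 0
      rw [z1, z2]; ring) (fun x => by
      show |s * φ x| ≤ w₂
      rw [abs_mul]
      exact (mul_le_mul_of_nonneg_left (hφb x) (abs_nonneg s)).trans hs)
    rw [← hF.eq] at this
    exact this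
  exact last hREG hgood hlm hB hε' hw₂ hdn hsy hc hq₀ hcq₀ hshr hκ'0 hQ0 (by positivity) hφb
    ht1 ht2 ht3 ht4 hGQ hFle hAr hRg hBl hcost

end Pool.Agent.KS6_79.CK
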